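import Mathlib
import Pool.Agent.Helper48.KM.Stmts

set_option autoImplicit false

namespace Pool.Agent.Helper48.KM

open Polynomial

noncomputable section

/-- the algebra at a good point -/
lemma th_alg (A C β μ m r α lam : ℂ) (h1 : μ ^ 2 = β ^ 3 + A * β + C)
    (h2 : 2 * m * μ = 3 * β ^ 2 + A) (h3 : 3 * r ^ 2 - 4 * m * r + 3 * β = 0)
    (hα : 2 * α = r ^ 2 - β) (hl : lam = 4 * r ^ 2 * (r - m) + 2 * μ) :
    3 * α ^ 2 + A = lam * m ∧
      lam ^ 2 / 4 + 8 * α ^ 3 + 2 * α * A - C + lam * r ^ 2 * (m - 2 * r) = 0 := by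
  have hβ : β = (4 * m * r - 3 * r ^ 2) / 3 := by
    linear_combination (1 / 3 : ℂ) * h3
  have hA : A = 2 * m * μ - 3 * β ^ 2 := by linear_combination -h2
  have hC : C = μ ^ 2 - β ^ 3 - A * β := by linear_combination -h1
  have hα' : α = (r ^ 2 - β) / 2 := by linear_combination (1 / 2 : ℂ) * hα
  subst hl
  subst hα'
  subst hC
  subst hA
  subst hβ
  constructor
  · ring
  · ring

lemma th_curve (A C m r α lam u R : ℂ) (h1 : 3 * α ^ 2 + A = lam * m)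
    (h2 : lam ^ 2 / 4 + 8 * α ^ 3 + 2 * α * A - C + lam * r ^ 2 * (m - 2 * r) = 0)
    (h3 : 3 * α = 3 * r ^ 2 - 2 * r * m) :
    (lam / 2 * u ^ 3 + R * (R ^ 2 - 3 * α * u ^ 2)) ^ 2 - (R ^ 2 - 2 * α * u ^ 2) ^ 3 -
      A * (R ^ 2 - 2 * α * u ^ 2) * u ^ 4 - C * u ^ 6 =
      lam * (R - r * u) ^ 2 * (R - (m - 2 * r) * u) * u ^ 3 := by
  linear_combination (-(R ^ 2 * u ^ 4)) * h1 + u ^ 6 * h2 + (-(lam * R * u ^ 5)) * h3

lemma th_val (p : ℂ[X]) (n : ℕ) (s : ℂˣ) :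
    LaurentPolynomial.eval₂ (RingHom.id ℂ) s
      (toLaurent p * LaurentPolynomial.T (-(n : ℤ))) = p.eval (s : ℂ) * ((s : ℂ)⁻¹) ^ n := by
  rw [map_mul, LaurentPolynomial.eval₂_toLaurent, LaurentPolynomial.eval₂_T_neg_n,
    Polynomial.eval₂_id, Units.val_inv_eq_inv_val]

lemma th_mk (A B β m r α lam κ : ℂ) (h1 : 3 * α ^ 2 + A = lam * m)
    (h2 : lam ^ 2 / 4 + 8 * α ^ 3 + 2 * α * A - B + lam * r ^ 2 * (m - 2 * r) = 0)
    (h3 : 3 * α = 3 * r ^ 2 - 2 * r * m) (hα : 2 * α = r ^ 2 - β)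
    (hκ : κ ^ 3 * (lam * (r - (m - 2 * r)) ^ 3) = 1) :
    ∃ f : Fin 3 → LaurentPolynomial ℂ, IsGm (surfLow 3 A B) f ∧ Lim 2 f β := by
  set rp : ℂ := m - 2 * r with hrp
  have hκ0 : κ ≠ 0 := by
    rintro rfl
    rw [zero_pow (by norm_num), zero_mul] at hκ
    exact zero_ne_one hκ
  have hr0 : r - rp ≠ 0 := by
    intro h
    rw [h, zero_pow (by norm_num), mul_zero, mul_zero] at hκ
    exact zero_ne_one hκ
  set U : ℂ[X] := 1 - X ^ 3 with hU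
  set Rp : ℂ[X] := C r - C rp * X ^ 3 with hRp
  set pz : ℂ[X] := C κ * U with hpz
  set px : ℂ[X] := C (κ ^ 2) * (Rp ^ 2 - C (2 * α) * U ^ 2) with hpx
  set py : ℂ[X] := C (κ ^ 3) * (C (lam / 2) * U ^ 3 + Rp * (Rp ^ 2 - C (3 * α) * U ^ 2)) with hpy
  have ez : ∀ t : ℂ, pz.eval t = κ * (1 - t ^ 3) := by
    intro t; simp [hpz, hU]
  have ex : ∀ t : ℂ, px.eval t =
      κ ^ 2 * ((r - rp * t ^ 3) ^ 2 - 2 * α * (1 - t ^ 3) ^ 2) := by
    intro t; simp [hpx, hU, hRp]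
  have ey : ∀ t : ℂ, py.eval t = κ ^ 3 * (lam / 2 * (1 - t ^ 3) ^ 3 +
      (r - rp * t ^ 3) * ((r - rp * t ^ 3) ^ 2 - 3 * α * (1 - t ^ 3) ^ 2)) := by
    intro t; simp [hpy, hU, hRp]
  set f : Fin 3 → LaurentPolynomial ℂ := ![toLaurent pz * LaurentPolynomial.T (-((2 : ℕ) : ℤ)),
    toLaurent px * LaurentPolynomial.T (-((4 : ℕ) : ℤ)),
    toLaurent py * LaurentPolynomial.T (-((6 : ℕ) : ℤ))] with hf
  have vz : ∀ s : ℂˣ, val f s 0 = κ * (1 - (s : ℂ) ^ 3) * ((s : ℂ)⁻¹) ^ 2 := by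
    intro s
    rw [← ez]
    exact th_val pz 2 s
  have vx : ∀ s : ℂˣ, val f s 1 = κ ^ 2 * ((r - rp * (s : ℂ) ^ 3) ^ 2 -
      2 * α * (1 - (s : ℂ) ^ 3) ^ 2) * ((s : ℂ)⁻¹) ^ 4 := by
    intro s
    rw [← ex]
    exact th_val px 4 s
  have vy : ∀ s : ℂˣ, val f s 2 = κ ^ 3 * (lam / 2 * (1 - (s : ℂ) ^ 3) ^ 3 +
      (r - rp * (s : ℂ) ^ 3) * ((r - rp * (s : ℂ) ^ 3) ^ 2 - 3 * α * (1 - (s : ℂ) ^ 3) ^ 2)) *
        ((s : ℂ)⁻¹) ^ 6 := by
    intro s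
    rw [← ey]
    exact th_val py 6 s
  refine ⟨f, ⟨fun s => ⟨?_, ?_⟩, ?_⟩, ?_⟩
  · have hs : (s : ℂ) ≠ 0 := s.ne_zero
    rw [vz, vx, vy]
    set t : ℂ := (s : ℂ) with ht
    have hc := th_curve A B m r α lam (1 - t ^ 3) (r - rp * t ^ 3) h1 h2 h3
    have e1 : r - rp * t ^ 3 - r * (1 - t ^ 3) = (r - rp) * t ^ 3 := by ring
    have e2 : r - rp * t ^ 3 - (m - 2 * r) * (1 - t ^ 3) = r - rp := by rw [← hrp]; ring
    rw [e1, e2] at hc
    have hti : t * t⁻¹ = 1 := mul_inv_cancel₀ hs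
    set w : ℂ := t⁻¹ with hw
    have e3 : t ^ 6 * w ^ 12 = w ^ 6 := by
      calc t ^ 6 * w ^ 12 = (t * w) ^ 6 * w ^ 6 := by ring
        _ = w ^ 6 := by rw [hti, one_pow, one_mul]
    linear_combination (κ ^ 6 * w ^ 12) * hc +
      (κ ^ 6 * lam * (r - rp) ^ 3 * (1 - t ^ 3) ^ 3) * e3 +
      (κ ^ 3 * (1 - t ^ 3) ^ 3 * w ^ 6) * hκ
  · rintro ⟨hz, hxy⟩
    have hs : (s : ℂ) ≠ 0 := s.ne_zero
    rw [vz] at hz
    have hs3 : (s : ℂ) ^ 3 = 1 := by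
      rcases mul_eq_zero.1 hz with h4 | h4
      · rcases mul_eq_zero.1 h4 with h5 | h5
        · exact absurd h5 hκ0
        · exact (sub_eq_zero.1 h5).symm
      · exact absurd h4 (pow_ne_zero _ (inv_ne_zero hs))
    rw [vx, vy, hs3] at hxy
    have hi := inv_ne_zero hs
    rcases mul_eq_zero.1 hxy with h4 | h4
    · rcases mul_eq_zero.1 h4 with h5 | h5
      · rw [mul_one, sub_self, zero_pow (by norm_num), mul_zero, sub_zero] at h5
        rcases mul_eq_zero.1 h5 with h6 | h6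
        · exact hκ0 (pow_eq_zero_iff (by norm_num) |>.1 h6)
        · exact hr0 (pow_eq_zero_iff (by norm_num) |>.1 h6)
      · exact absurd h5 (pow_ne_zero _ hi)
    · rcases mul_eq_zero.1 h4 with h5 | h5
      · have h6 : κ ^ 3 * (r - rp) ^ 3 = 0 := by
          rw [← h5]; ring
        rcases mul_eq_zero.1 h6 with h7 | h7
        · exact hκ0 (pow_eq_zero_iff (by norm_num) |>.1 h7)
        · exact hr0 (pow_eq_zero_iff (by norm_num) |>.1 h7)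
      · exact absurd h5 (pow_ne_zero _ hi)
  · refine ⟨1, Units.mk0 2 (by norm_num), fun h => ?_⟩
    have h4 := congrFun h 0
    rw [vz, vz, Units.val_one, Units.val_mk0] at h4
    have h5 : κ * (7 / 4) = 0 := by
      have : κ * (1 - 1 ^ 3) * (1 : ℂ)⁻¹ ^ 2 - κ * (1 - 2 ^ 3) * (2 : ℂ)⁻¹ ^ 2 = 0 := by
        rw [h4, sub_self]
      rw [← this]; norm_num; ring
    rcases mul_eq_zero.1 h5 with h6 | h6
    · exact hκ0 h6
    · norm_num at h6
  · refine ⟨2, pz, px, by norm_num, ?_, ?_, fun s => ⟨?_, ?_⟩⟩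
    · rw [ez]; simpa using hκ0
    · rw [ez, ex]
      linear_combination (-(κ ^ 2)) * hα
    · have hs : (s : ℂ) ≠ 0 := s.ne_zero
      rw [vz, ez, mul_assoc, inv_pow, inv_mul_cancel₀ (pow_ne_zero _ hs), mul_one]
    · have hs : (s : ℂ) ≠ 0 := s.ne_zero
      rw [vx, ex, mul_assoc, inv_pow, inv_mul_cancel₀ (pow_ne_zero _ hs), mul_one]

lemma th_root (A B β μ m : ℂ) (hAB : A ≠ 0 ∨ B ≠ 0) (h1 : μ ^ 2 = β ^ 3 + A * β + B)
    (h2 : 2 * m * μ = 3 * β ^ 2 + A) (hm : m ≠ 0) :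
    ∃ r : ℂ, 3 * r ^ 2 - 4 * m * r + 3 * β = 0 ∧ 4 * r ^ 2 * (r - m) + 2 * μ ≠ 0 := by
  obtain ⟨δ, hδ⟩ := IsAlgClosed.exists_pow_nat_eq (4 * m ^ 2 - 9 * β) (n := 2) (by norm_num)
  by_contra hcon
  push Not at hcon
  have q1 : 3 * ((2 * m + δ) / 3) ^ 2 - 4 * m * ((2 * m + δ) / 3) + 3 * β = 0 := by
    linear_combination (1 / 3 : ℂ) * hδ
  have q2 : 3 * ((2 * m - δ) / 3) ^ 2 - 4 * m * ((2 * m - δ) / 3) + 3 * β = 0 := by
    linear_combination (1 / 3 : ℂ) * hδ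
  set r1 : ℂ := (2 * m + δ) / 3 with hr1
  set r2 : ℂ := (2 * m - δ) / 3 with hr2
  have l1 := hcon r1 q1
  have l2 := hcon r2 q2
  have a1 := th_alg A B β μ m r1 ((r1 ^ 2 - β) / 2) 0 h1 h2 q1 (by ring) l1.symm
  have a2 := th_alg A B β μ m r2 ((r2 ^ 2 - β) / 2) 0 h1 h2 q2 (by ring) l2.symm
  set α1 : ℂ := (r1 ^ 2 - β) / 2 with hα1
  set α2 : ℂ := (r2 ^ 2 - β) / 2 with hα2
  have b1 : A = -3 * α1 ^ 2 := by linear_combination a1.1
  have b2 : A = -3 * α2 ^ 2 := by linear_combination a2.1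
  have c1 : B = 2 * α1 ^ 3 := by linear_combination -a1.2 + 2 * α1 * a1.1
  have c2 : B = 2 * α2 ^ 3 := by linear_combination -a2.2 + 2 * α2 * a2.1
  have hα0 : α1 ≠ 0 := by
    intro h
    rw [h] at b1 c1
    rcases hAB with h3 | h3
    · apply h3; rw [b1]; ring
    · apply h3; rw [c1]; ring
  have e2 : α1 ^ 2 = α2 ^ 2 := by linear_combination (1 / 3 : ℂ) * b1 - (1 / 3 : ℂ) * b2
  have e3 : α1 ^ 3 = α2 ^ 3 := by linear_combination (1 / 2 : ℂ) * c2 - (1 / 2 : ℂ) * c1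
  have e1 : α1 = α2 := by
    have h3 : α1 ^ 2 * (α1 - α2) = 0 := by
      linear_combination e3 - α2 * e2
    rcases mul_eq_zero.1 h3 with h4 | h4
    · exact absurd h4 (pow_ne_zero _ hα0)
    · exact sub_eq_zero.1 h4
  have h5 : m * δ = 0 := by
    have h6 : r1 ^ 2 = r2 ^ 2 := by
      rw [hα1, hα2] at e1
      linear_combination 2 * e1
    rw [hr1, hr2] at h6
    linear_combination (9 / 8 : ℂ) * h6
  have hδ0 : δ = 0 := by
    rcases mul_eq_zero.1 h5 with h6 | h6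
    · exact absurd h6 hm
    · exact h6
  apply hα0
  rw [hα1, hr1, hδ0]
  rw [hδ0] at hδ
  linear_combination (-1 / 18 : ℂ) * hδ

theorem st_TH (hunc : ST_UNC) : ST_TH := by
  intro A B hAB hcount
  set S : Set ℂ := {β | β ^ 3 + A * β + B ≠ 0 ∧ 3 * β ^ 2 + A ≠ 0 ∧ β ≠ 0 ∧
    (3 * β ^ 2 + A) ^ 2 ≠ 12 * β * (β ^ 3 + A * β + B)} with hS
  have hfin : Sᶜ.Finite := by
    set p1 : ℂ[X] := X ^ 3 + C A * X + C B with hp1
    set p2 : ℂ[X] := C 3 * X ^ 2 + C A with hp2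
    set p3 : ℂ[X] := C (-3) * X ^ 4 + C (-(6 * A)) * X ^ 2 + C (-(12 * B)) * X + C (A ^ 2) with hp3
    have n1 : p1 ≠ 0 := by
      intro h
      have h3 : p1.coeff 3 = 0 := by rw [h, coeff_zero]
      simp only [hp1, coeff_add, coeff_C_mul, coeff_X_pow, coeff_X, coeff_C] at h3
      norm_num at h3
    have n2 : p2 ≠ 0 := by
      intro h
      have h3 : p2.coeff 2 = 0 := by rw [h, coeff_zero]
      simp only [hp2, coeff_add, coeff_C_mul, coeff_X_pow, coeff_C] at h3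
      norm_num at h3
    have n3 : p3 ≠ 0 := by
      intro h
      have h3 : p3.coeff 4 = 0 := by rw [h, coeff_zero]
      simp only [hp3, coeff_add, coeff_C_mul, coeff_X_pow, coeff_X, coeff_C] at h3
      norm_num at h3
    have hP : p1 * p2 * X * p3 ≠ 0 := mul_ne_zero (mul_ne_zero (mul_ne_zero n1 n2) X_ne_zero) n3
    refine Set.Finite.subset (Polynomial.finite_setOfPred_isRoot hP) ?_
    intro β hβ
    have hβ' : ¬ (β ^ 3 + A * β + B ≠ 0 ∧ 3 * β ^ 2 + A ≠ 0 ∧ β ≠ 0 ∧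
      (3 * β ^ 2 + A) ^ 2 ≠ 12 * β * (β ^ 3 + A * β + B)) := hβ
    show (p1 * p2 * X * p3).eval β = 0
    have e1 : p1.eval β = β ^ 3 + A * β + B := by simp [hp1]
    have e2 : p2.eval β = 3 * β ^ 2 + A := by simp [hp2]
    have e3 : p3.eval β = (3 * β ^ 2 + A) ^ 2 - 12 * β * (β ^ 3 + A * β + B) := by
      simp [hp3]; ring
    rw [eval_mul, eval_mul, eval_mul, e1, e2, e3, eval_X]
    by_contra hne
    apply hβ'
    refine ⟨?_, ?_, ?_, ?_⟩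
    · intro h; apply hne; rw [h]; ring
    · intro h; apply hne; rw [h]; ring
    · intro h; apply hne; rw [h]; ring
    · intro h; apply hne; rw [h]; ring
  refine hunc S id hfin (fun ξ => ?_) ?_
  · refine (Set.finite_singleton ξ).subset ?_
    rintro x ⟨-, hx⟩
    exact hx
  · rw [Set.image_id]
    refine hcount.mono ?_
    rintro β ⟨g1, g2, g3, g4⟩
    obtain ⟨μ, hμ⟩ := IsAlgClosed.exists_pow_nat_eq (β ^ 3 + A * β + B) (n := 2) (by norm_num)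
    have hμ0 : μ ≠ 0 := by
      rintro rfl
      rw [zero_pow (by norm_num)] at hμ
      exact g1 hμ.symm
    set m : ℂ := (3 * β ^ 2 + A) / (2 * μ) with hm
    have h2 : 2 * m * μ = 3 * β ^ 2 + A := by
      rw [hm]; field_simp
    have hm0 : m ≠ 0 := by
      intro h
      rw [h] at h2
      apply g2
      rw [← h2]; ring
    obtain ⟨r, hr, hlam⟩ := th_root A B β μ m hAB hμ h2 hm0
    have halg := th_alg A B β μ m r ((r ^ 2 - β) / 2) (4 * r ^ 2 * (r - m) + 2 * μ) hμ h2 hr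
      (by ring) rfl
    have hrr : r - (m - 2 * r) ≠ 0 := by
      intro h
      apply g4
      have hm3 : m = 3 * r := by linear_combination -h
      have hβr : β = 3 * r ^ 2 := by
        rw [hm3] at hr
        linear_combination (1 / 3 : ℂ) * hr
      have h3 : (3 * β ^ 2 + A) ^ 2 = 4 * m ^ 2 * μ ^ 2 := by rw [← h2]; ring
      rw [h3, hμ, hm3]
      linear_combination (-(12 * (β ^ 3 + A * β + B))) * hβr
    obtain ⟨κ, hκ⟩ := IsAlgClosed.exists_pow_nat_eq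
      (1 / ((4 * r ^ 2 * (r - m) + 2 * μ) * (r - (m - 2 * r)) ^ 3)) (n := 3) (by norm_num)
    refine th_mk A B β m r ((r ^ 2 - β) / 2) (4 * r ^ 2 * (r - m) + 2 * μ) κ halg.1 halg.2 ?_
      (by ring) ?_
    · linear_combination (-1 / 2 : ℂ) * hr
    · rw [hκ, one_div]
      exact inv_mul_cancel₀ (mul_ne_zero hlam (pow_ne_zero _ hrr))

end

end Pool.Agent.Helper48.KM
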