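import Pool.Agent.Helper83.KM.Stm

namespace Pool.Agent.Helper83.KM.DICHA

open Real

/-- bound for one term of the remainder -/
theorem term (P : ℝ) (α α₁ N M p : ℝ) (hα : 0 < α) (hα1 : α ≤ α₁) (hN : 0 < N) (hM : 0 < M)
    (hP : |P| ≤ p) :
    |P * √(N + α) * (√(M + α) - √M)| * (2 * √M) ≤ p * √(N + α₁) * α₁ := by
  have hp : 0 ≤ p := le_trans (abs_nonneg _) hP
  have hm : 0 < √M := Real.sqrt_pos.2 hM
  have hmm : √M * √M = M := Real.mul_self_sqrt hM.le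
  have hMa : √(M + α) * √(M + α) = M + α := Real.mul_self_sqrt (by linarith)
  have h1 : √M ≤ √(M + α) := Real.sqrt_le_sqrt (by linarith)
  have h2 : √(N + α) ≤ √(N + α₁) := Real.sqrt_le_sqrt (by linarith)
  have he : 0 ≤ √(M + α) - √M := by linarith
  have h3 : (√(M + α) - √M) * (2 * √M) ≤ α₁ := by
    have h4 : (√(M + α) - √M) * (√(M + α) + √M) = α := by nlinarith
    have h5 : (√(M + α) - √M) * (2 * √M) ≤ (√(M + α) - √M) * (√(M + α) + √M) :=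
      mul_le_mul_of_nonneg_left (by linarith) he
    linarith
  have hs : 0 ≤ √(N + α) := Real.sqrt_nonneg _
  have hs1 : 0 ≤ √(N + α₁) := Real.sqrt_nonneg _
  rw [abs_mul, abs_mul, abs_of_nonneg hs, abs_of_nonneg he, mul_assoc]
  have h6 : |P| * √(N + α) ≤ p * √(N + α₁) := mul_le_mul hP h2 hs hp
  exact mul_le_mul h6 h3 (mul_nonneg he (by linarith)) (mul_nonneg hp hs1)

/-- Row DICHA -/
theorem row : DichAStmt := by
  intro P₁ P₂ P₃ X₁ X₂ X₃ α₁ α₂ α₃ N M p F h3 h23 h12 hN hM hX1 hX2 hX3 hP1 hP2 hP3 hF hF0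
  have hm : 0 < √M := Real.sqrt_pos.2 hM
  have hmm : √M * √M = M := Real.mul_self_sqrt hM.le
  have t1 := term (P₁ : ℝ) α₁ α₁ N M p (by linarith) le_rfl hN hM hP1
  have t2 := term (P₂ : ℝ) α₂ α₁ N M p (by linarith) h12.le hN hM hP2
  have t3 := term (P₃ : ℝ) α₃ α₁ N M p h3 (by linarith) hN hM hP3
  obtain ⟨R, hR⟩ : ∃ R : ℝ, R = (P₁ : ℝ) * √(N + α₁) * (√(M + α₁) - √M) +
      (P₂ : ℝ) * √(N + α₂) * (√(M + α₂) - √M) + (P₃ : ℝ) * √(N + α₃) * (√(M + α₃) - √M) :=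
    ⟨_, rfl⟩
  have hRb : |R| * (2 * √M) ≤ 3 * p * √(N + α₁) * α₁ := by
    have h4 : |R| ≤ |(P₁ : ℝ) * √(N + α₁) * (√(M + α₁) - √M)| +
        |(P₂ : ℝ) * √(N + α₂) * (√(M + α₂) - √M)| + |(P₃ : ℝ) * √(N + α₃) * (√(M + α₃) - √M)| := by
      rw [hR]
      exact abs_add_three _ _ _
    have h5 : |R| * (2 * √M) ≤ (|(P₁ : ℝ) * √(N + α₁) * (√(M + α₁) - √M)| +
        |(P₂ : ℝ) * √(N + α₂) * (√(M + α₂) - √M)| + |(P₃ : ℝ) * √(N + α₃) * (√(M + α₃) - √M)|) *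
        (2 * √M) := mul_le_mul_of_nonneg_right h4 (by linarith)
    linarith
  obtain ⟨Z, hZ⟩ : ∃ Z : ℤ, Z = P₁ * X₁ + P₂ * X₂ + P₃ * X₃ := ⟨_, rfl⟩
  have hZr : (Z : ℝ) = √M * F + R := by
    rw [hZ, hR, ← hF]
    push_cast
    rw [hX1, hX2, hX3]
    ring
  rcases eq_or_ne Z 0 with h0 | h0
  · left
    rw [h0, Int.cast_zero] at hZr
    have h6 : √M * F ≤ |R| := by
      have h7 := neg_abs_le R
      linarith
    have h8 : √M * F * (2 * √M) ≤ |R| * (2 * √M) := mul_le_mul_of_nonneg_right h6 (by linarith)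
    have h9 : √M * F * (2 * √M) = 2 * M * F := by
      calc √M * F * (2 * √M) = 2 * (√M * √M) * F := by ring
        _ = 2 * M * F := by rw [hmm]
    linarith
  · right
    have h6 : (1 : ℝ) ≤ |(Z : ℝ)| := by
      have h7 : (1 : ℤ) ≤ |Z| := Int.one_le_abs h0
      exact_mod_cast h7
    have h8 : |(Z : ℝ)| ≤ √M * F + |R| := by
      rw [hZr]
      refine le_trans (abs_add_le _ _) ?_
      rw [abs_of_pos (mul_pos hm hF0)]
    rcases le_or_gt 1 (2 * √M * F) with h9 | h9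
    · left; exact h9
    · right
      have h10 : 1 / 2 ≤ |R| := by nlinarith
      have h11 : 1 / 2 * (2 * √M) ≤ |R| * (2 * √M) := mul_le_mul_of_nonneg_right h10 (by linarith)
      linarith

end Pool.Agent.Helper83.KM.DICHA
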