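import Mathlib

namespace Pool.Agent.Helper83.KM

open Finset MeasureTheory Real

/-- The power series of `(X + δ) ^ (-(k + 1))`. -/
noncomputable def invPS (k : ℕ) (δ : ℝ) : PowerSeries ℝ :=
  PowerSeries.mk fun n => (-1 : ℝ) ^ n * ((k + n).choose n : ℝ) / δ ^ (k + 1 + n)

/-- The power series of `(X - G) ^ (k + 1) (X + δ₁) ^ (-(k + 1)) (X + δ₂) ^ (-(k + 1))`. -/
noncomputable def tser (k : ℕ) (G δ₁ δ₂ : ℝ) : PowerSeries ℝ :=
  (PowerSeries.X - PowerSeries.C G) ^ (k + 1) * (invPS k δ₁ * invPS k δ₂)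

/-- The coefficient of `(t + G) ^ (-(h + 1))` in the partial fraction expansion. -/
noncomputable def dco (k : ℕ) (G δ₁ δ₂ : ℝ) (h : ℕ) : ℝ :=
  PowerSeries.coeff (k - h) (tser k G δ₁ δ₂)

/-- The coefficient of `√G` in the linear form. -/
noncomputable def qsum (k : ℕ) (G δ₁ δ₂ : ℝ) : ℝ :=
  ∑ h ∈ range (k + 1), dco k G δ₁ δ₂ h * (((2 * h).choose h : ℝ) / 4 ^ h) / G ^ (h + 1)

/-- The Padé integral. -/
noncomputable def J (k : ℕ) (G₁ G₂ G₃ : ℝ) : ℝ :=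
  ∫ w : ℝ, w ^ (2 * k + 2) /
    ((w ^ 2 + G₁) ^ (k + 1) * (w ^ 2 + G₂) ^ (k + 1) * (w ^ 2 + G₃) ^ (k + 1))

end Pool.Agent.Helper83.KM
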