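import Mathlib
import Pool.Agent.Helper56.DioDefs
import Pool.Agent.Helper83.KM.Defs

namespace Pool.Agent.Helper83.KM

open Finset MeasureTheory Real

/-- Row GAP. -/
def GapStmt : Prop :=
  ∀ (a₁ a₂ a₃ b₁ b₂ b₃ : ℕ) (ha : 0 < a₁) (ha12 : a₁ < a₂) (ha23 : a₂ < a₃)
    (hb : 0 < b₁) (hb12 : b₁ < b₂) (hb23 : b₂ < b₃)
    (h11 : IsSquare (a₁ * b₁ + 1)) (h12 : IsSquare (a₁ * b₂ + 1)) (h13 : IsSquare (a₁ * b₃ + 1))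
    (h21 : IsSquare (a₂ * b₁ + 1)) (h22 : IsSquare (a₂ * b₂ + 1)) (h23 : IsSquare (a₂ * b₃ + 1))
    (h31 : IsSquare (a₃ * b₁ + 1)) (h32 : IsSquare (a₃ * b₂ + 1)) (h33 : IsSquare (a₃ * b₃ + 1)),
    a₂ * b₂ * (a₁ * b₁) ^ 3 ≤ a₃ * b₃

/-- Row INV. -/
def InvStmt : Prop :=
  ∀ (k : ℕ) {δ : ℝ} (hδ : δ ≠ 0),
    invPS k δ * (PowerSeries.X + PowerSeries.C δ) ^ (k + 1) = 1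

/-- Row PF. -/
def PfStmt : Prop :=
  ∀ (k : ℕ) {G₁ G₂ G₃ : ℝ} (h12 : G₁ ≠ G₂) (h13 : G₁ ≠ G₃) (h23 : G₂ ≠ G₃) (t : ℝ)
    (h1 : t + G₁ ≠ 0) (h2 : t + G₂ ≠ 0) (h3 : t + G₃ ≠ 0),
    t ^ (k + 1) / ((t + G₁) ^ (k + 1) * (t + G₂) ^ (k + 1) * (t + G₃) ^ (k + 1)) =
      ∑ h ∈ range (k + 1), dco k G₁ (G₂ - G₁) (G₃ - G₁) h / (t + G₁) ^ (h + 1) +
      ∑ h ∈ range (k + 1), dco k G₂ (G₁ - G₂) (G₃ - G₂) h / (t + G₂) ^ (h + 1) +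
      ∑ h ∈ range (k + 1), dco k G₃ (G₁ - G₃) (G₂ - G₃) h / (t + G₃) ^ (h + 1)

/-- Row INTEG. -/
def IntegStmt : Prop :=
  ∀ (h : ℕ) (G : ℝ) (hG : 0 < G),
    Integrable (fun w : ℝ => 1 / (w ^ 2 + G) ^ (h + 1)) ∧
      ∫ w : ℝ, 1 / (w ^ 2 + G) ^ (h + 1) = π * (((2 * h).choose h : ℝ) / 4 ^ h) / (G ^ h * √G)

/-- Row SER. -/
def SerStmt : Prop :=
  ∀ (k : ℕ) (G δ₁ δ₂ e : ℤ) (hG : 0 < G) (h1 : δ₁ ≠ 0) (h2 : δ₂ ≠ 0) (he : e ≠ 0),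
    ∃ P : ℤ, (P : ℝ) = 4 ^ k * ((δ₁ * δ₂ * e : ℤ) : ℝ) ^ (2 * k + 1) * qsum k G δ₁ δ₂ ∧
      |(P : ℝ)| ≤ 4 * (k + 1) * |((δ₁ * δ₂ * e : ℤ) : ℝ)| *
        (64 * ((δ₁ * δ₂ * e : ℤ) : ℝ) ^ 2 * G) ^ k

/-- Row FORM. -/
def FormStmt : Prop :=
  ∀ (k : ℕ) (G₁ G₂ G₃ : ℤ) (h3 : 0 < G₃) (h23 : G₃ < G₂) (h12 : G₂ < G₁),
    ∃ P₁ P₂ P₃ : ℤ,
      |(P₁ : ℝ)| ≤ 4 * (k + 1) * (((G₁ - G₂) * (G₁ - G₃) * (G₂ - G₃) : ℤ) : ℝ) *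
        (64 * (((G₁ - G₂) * (G₁ - G₃) * (G₂ - G₃) : ℤ) : ℝ) ^ 2 * G₁) ^ k ∧
      |(P₂ : ℝ)| ≤ 4 * (k + 1) * (((G₁ - G₂) * (G₁ - G₃) * (G₂ - G₃) : ℤ) : ℝ) *
        (64 * (((G₁ - G₂) * (G₁ - G₃) * (G₂ - G₃) : ℤ) : ℝ) ^ 2 * G₁) ^ k ∧
      |(P₃ : ℝ)| ≤ 4 * (k + 1) * (((G₁ - G₂) * (G₁ - G₃) * (G₂ - G₃) : ℤ) : ℝ) *
        (64 * (((G₁ - G₂) * (G₁ - G₃) * (G₂ - G₃) : ℤ) : ℝ) ^ 2 * G₁) ^ k ∧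
      P₁ * √(G₁ : ℝ) + P₂ * √(G₂ : ℝ) + P₃ * √(G₃ : ℝ) =
        4 ^ k * (((G₁ - G₂) * (G₁ - G₃) * (G₂ - G₃) : ℤ) : ℝ) ^ (2 * k + 1) *
          J k G₁ G₂ G₃ / π

/-- Row UB. -/
def UbStmt : Prop :=
  ∀ (k : ℕ) {N G₁ G₂ G₃ : ℝ} (hN : 0 < N) (h1 : N ≤ G₁) (h2 : N ≤ G₂) (h3 : N ≤ G₃),
    J k G₁ G₂ G₃ ≤ π * (4 / (27 * N ^ 2)) ^ k / (N * √N)

/-- Row LB. -/
def LbStmt : Prop :=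
  ∀ (k : ℕ) {N G₁ G₂ G₃ : ℝ} (hN : 0 < N) (h1 : 0 < G₁) (h2 : 0 < G₂) (h3 : 0 < G₃)
    (h1' : G₁ ≤ 4 / 3 * N) (h2' : G₂ ≤ 4 / 3 * N) (h3' : G₃ ≤ 4 / 3 * N),
    √N / 2 * (1 / (16 * N ^ 2)) ^ (k + 1) ≤ J k G₁ G₂ G₃

/-- Row DICHA. -/
def DichAStmt : Prop :=
  ∀ (P₁ P₂ P₃ X₁ X₂ X₃ : ℤ) (α₁ α₂ α₃ N M p F : ℝ) (h3 : 0 < α₃) (h23 : α₃ < α₂)
    (h12 : α₂ < α₁) (hN : 0 < N) (hM : 0 < M)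
    (hX1 : (X₁ : ℝ) = √(N + α₁) * √(M + α₁)) (hX2 : (X₂ : ℝ) = √(N + α₂) * √(M + α₂))
    (hX3 : (X₃ : ℝ) = √(N + α₃) * √(M + α₃))
    (hP1 : |(P₁ : ℝ)| ≤ p) (hP2 : |(P₂ : ℝ)| ≤ p) (hP3 : |(P₃ : ℝ)| ≤ p)
    (hF : P₁ * √(N + α₁) + P₂ * √(N + α₂) + P₃ * √(N + α₃) = F) (hF0 : 0 < F),
    2 * M * F ≤ 3 * p * √(N + α₁) * α₁ ∨ 1 ≤ 2 * √M * F ∨ √M ≤ 3 * p * √(N + α₁) * α₁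

/-- Row DICHB. -/
def DichStmt : Prop :=
  ∀ (k α₁ α₂ α₃ N M X₁ X₂ X₃ : ℕ) (h3 : 0 < α₃) (h23 : α₃ < α₂) (h12 : α₂ < α₁)
    (hM : 0 < M) (hN1 : 3 * α₁ ≤ N)
    (hN2 : 64 * ((α₁ - α₂) * (α₁ - α₃) * (α₂ - α₃)) ^ 4 ≤ N)
    (hN3 : ((α₁ - α₂) * (α₁ - α₃) * (α₂ - α₃)) ^ 2 * α₁ ≤ N)
    (hX1 : X₁ ^ 2 = (N + α₁) * (M + α₁)) (hX2 : X₂ ^ 2 = (N + α₂) * (M + α₂))
    (hX3 : X₃ ^ 2 = (N + α₃) * (M + α₃)),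
    M ≤ 1024 ^ (k + 1) * α₁ * N ^ (3 * k + 2) ∨
      N ^ (4 * k + 3) ≤ 4 * ((α₁ - α₂) * (α₁ - α₃) * (α₂ - α₃)) ^ (4 * k + 2) * M

/-- Row CHAIN. -/
def ChainStmt : Prop :=
  ∀ (α N M D : ℕ) (hα : 0 < α) (hD : 0 < D) (hN : 1024 * D ^ 4 ≤ N)
    (hN2 : 4 * 1024 ^ 6 * α * D ^ 18 < N ^ 2)
    (hd : ∀ k, M ≤ 1024 ^ (k + 1) * α * N ^ (3 * k + 2) ∨
      N ^ (4 * k + 3) ≤ 4 * D ^ (4 * k + 2) * M),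
    M ≤ 1024 ^ 5 * α * N ^ 14

/-- Row PADE. -/
def PadeStmt : Prop :=
  ∀ (a₁ a₂ a₃ B b : ℕ) (ha : 0 < a₁) (ha12 : a₁ < a₂) (ha23 : a₂ < a₃)
    (hB : a₃ ^ 65 ≤ B) (hb : 0 < b)
    (h1 : IsSquare (a₁ * B + 1)) (h2 : IsSquare (a₂ * B + 1)) (h3 : IsSquare (a₃ * B + 1))
    (h1' : IsSquare (a₁ * b + 1)) (h2' : IsSquare (a₂ * b + 1)) (h3' : IsSquare (a₃ * b + 1)),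
    b ≤ B ^ 16

/-- Row SEQ. -/
def SeqStmt : Prop :=
  ∀ (a₁ a₂ a₃ : ℕ) (ha : 0 < a₁) (ha12 : a₁ < a₂) (ha23 : a₂ < a₃) (b : ℕ → ℕ)
    (hb : ∀ i, i < 10 → b i < b (i + 1)) (hb0 : a₃ < b 0)
    (h1 : ∀ i, i < 11 → IsSquare (a₁ * b i + 1)) (h2 : ∀ i, i < 11 → IsSquare (a₂ * b i + 1))
    (h3 : ∀ i, i < 11 → IsSquare (a₃ * b i + 1)),
    False

/-- Row SETS. -/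
def SetsStmt : Prop :=
  ∀ (A B : Finset ℕ) (hA : ∀ a ∈ A, 0 < a) (hB : ∀ b ∈ B, 0 < b)
    (h : ∀ a ∈ A, ∀ b ∈ B, IsSquare (a * b + 1)),
    A.card ≤ 12 ∨ B.card ≤ 12

/-- Row GRAPH. -/
def GraphStmt : Prop :=
  ∀ (V : Type) (G : SimpleGraph V) (hG : Pool.Agent.Helper56.Dio.IsDiophantine G),
    ¬ (completeBipartiteGraph (Fin 13) (Fin 13)).IsContained G

/-- Row KST. -/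
def KstStmt : Prop :=
  ∀ (V : Type) [Fintype V] (G : SimpleGraph V) [DecidableRel G.Adj]
    (hG : ¬ (completeBipartiteGraph (Fin 13) (Fin 13)).IsContained G),
    (G.edgeFinset.card : ℝ) ≤ 7 * (Fintype.card V : ℝ) ^ (2 - 1 / 13 : ℝ)

end Pool.Agent.Helper83.KM
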