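import Mathlib
import Pool.Agent.Helper83.KM.Stm

namespace Pool.Agent.Helper83.KM.Dich

open Finset MeasureTheory Real Pool.Agent.Helper83.KM

theorem succ_le_two_pow (k : ℕ) : ((k : ℝ) + 1) ≤ 2 ^ k := by
  have h : k + 1 ≤ 2 ^ k := Nat.lt_two_pow_self
  exact_mod_cast h

/-- The upper bound for `T`. -/
theorem T_le (k : ℕ) {n x d : ℝ} (hn : 0 < n) (hx : 0 < x) (hd : 0 < d) (hxn : 3 * x ≤ n) :
    3 * (4 * (k + 1) * d * (64 * d ^ 2 * (n + x)) ^ k) * √(n + x) * x ≤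
      14 * (k + 1) * d * (256 / 3 * d ^ 2 * n) ^ k * √n * x := by
  have h1 : √(n + x) ≤ 7 / 6 * √n := by
    rw [show (7 / 6 : ℝ) * √n = √((7 / 6) ^ 2 * n) by
      rw [Real.sqrt_mul (by positivity), Real.sqrt_sq (by norm_num)]]
    apply Real.sqrt_le_sqrt
    nlinarith
  have h2 : (64 * d ^ 2 * (n + x)) ^ k ≤ (256 / 3 * d ^ 2 * n) ^ k := by
    apply pow_le_pow_left₀ (by positivity)
    have : 0 ≤ d ^ 2 := by positivity
    nlinarith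
  calc 3 * (4 * (k + 1) * d * (64 * d ^ 2 * (n + x)) ^ k) * √(n + x) * x
      ≤ 3 * (4 * (k + 1) * d * (256 / 3 * d ^ 2 * n) ^ k) * (7 / 6 * √n) * x := by
        gcongr
    _ = 14 * (k + 1) * d * (256 / 3 * d ^ 2 * n) ^ k * √n * x := by ring

theorem case1 (k : ℕ) {n m x d F I : ℝ} (hn : 0 < n) (hm : 0 < m) (hx : 0 < x) (hd : 0 < d)
    (hxn : 3 * x ≤ n) (hF : F = 4 ^ k * d ^ (2 * k + 1) * I / π)
    (hI : √n / 2 * (1 / (16 * n ^ 2)) ^ (k + 1) ≤ I)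
    (h : 2 * m * F ≤ 3 * (4 * (k + 1) * d * (64 * d ^ 2 * (n + x)) ^ k) * √(n + x) * x) :
    m ≤ 1024 ^ (k + 1) * x * n ^ (3 * k + 2) := by
  have hs : 0 < √n := Real.sqrt_pos.mpr hn
  have h' := h.trans (T_le k hn hx hd hxn)
  rw [hF] at h'
  have h1 : 2 * m * (4 ^ k * d ^ (2 * k + 1) * (√n / 2 * (1 / (16 * n ^ 2)) ^ (k + 1)) / π) ≤
      14 * (k + 1) * d * (256 / 3 * d ^ 2 * n) ^ k * √n * x := by
    refine le_trans ?_ h'
    gcongr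
  have h2 : m * 4 ^ k ≤ 14 * π * (k + 1) * x * (256 / 3) ^ k * n ^ k * (16 * n ^ 2) ^ (k + 1) := by
    have hpos : 0 < d * (d ^ 2) ^ k * √n / (π * (16 * n ^ 2) ^ (k + 1)) := by positivity
    have e1 : 2 * m * (4 ^ k * d ^ (2 * k + 1) * (√n / 2 * (1 / (16 * n ^ 2)) ^ (k + 1)) / π) =
        (m * 4 ^ k) * (d * (d ^ 2) ^ k * √n / (π * (16 * n ^ 2) ^ (k + 1))) := by
      rw [one_div_pow, pow_succ d (2 * k), pow_mul d 2 k]
      field_simp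
    have e2 : 14 * (k + 1) * d * (256 / 3 * d ^ 2 * n) ^ k * √n * x =
        (14 * π * (k + 1) * x * (256 / 3) ^ k * n ^ k * (16 * n ^ 2) ^ (k + 1)) *
          (d * (d ^ 2) ^ k * √n / (π * (16 * n ^ 2) ^ (k + 1))) := by
      rw [mul_pow, mul_pow]
      field_simp
    rw [e1, e2] at h1
    exact le_of_mul_le_mul_right h1 hpos
  have hpi : π ≤ 4 := Real.pi_le_four
  have hpi' : 14 * π * 16 ≤ 1024 := by
    have := Real.pi_lt_d2
    linarith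
  have h3 : 14 * π * (k + 1) * x * (256 / 3) ^ k * n ^ k * (16 * n ^ 2) ^ (k + 1) ≤
      4 ^ k * (1024 ^ (k + 1) * x * n ^ (3 * k + 2)) := by
    have e3 : 14 * π * (k + 1) * x * (256 / 3) ^ k * n ^ k * (16 * n ^ 2) ^ (k + 1) =
        (14 * π * 16) * ((k + 1) * (256 / 3 * 16) ^ k) * (x * n ^ (3 * k + 2)) := by
      rw [mul_pow, mul_pow]
      ring
    have e4 : (4 : ℝ) ^ k * (1024 ^ (k + 1) * x * n ^ (3 * k + 2)) =
        1024 * 4096 ^ k * (x * n ^ (3 * k + 2)) := by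
      rw [show (4096 : ℝ) = 4 * 1024 by norm_num, mul_pow]
      ring
    rw [e3, e4]
    have e5 : ((k : ℝ) + 1) * (256 / 3 * 16) ^ k ≤ 4096 ^ k := by
      calc ((k : ℝ) + 1) * (256 / 3 * 16) ^ k ≤ 2 ^ k * (256 / 3 * 16) ^ k := by
            gcongr
            exact succ_le_two_pow k
        _ = (2 * (256 / 3 * 16)) ^ k := by rw [← mul_pow]
        _ ≤ 4096 ^ k := by
            apply pow_le_pow_left₀ (by norm_num)
            norm_num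
    gcongr
  have h4 := h2.trans h3
  have h5 : (0 : ℝ) < 4 ^ k := by positivity
  have h6 : 4 ^ k * m ≤ 4 ^ k * (1024 ^ (k + 1) * x * n ^ (3 * k + 2)) := by linarith
  exact le_of_mul_le_mul_left h6 h5

theorem case2 (k : ℕ) {n m d F I : ℝ} (hn : 0 < n) (hm : 0 < m) (hd : 0 < d)
    (hF : F = 4 ^ k * d ^ (2 * k + 1) * I / π) (hF0 : 0 < F)
    (hI : I ≤ π * (4 / (27 * n ^ 2)) ^ k / (n * √n))
    (h : 1 ≤ 2 * √m * F) :
    n ^ (4 * k + 3) ≤ 4 * d ^ (4 * k + 2) * m := by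
  have hs : 0 < √n := Real.sqrt_pos.mpr hn
  have hsm : 0 < √m := Real.sqrt_pos.mpr hm
  have hpi : 0 < π := Real.pi_pos
  have h1 : F ≤ 4 ^ k * d ^ (2 * k + 1) * (4 / (27 * n ^ 2)) ^ k / (n * √n) := by
    rw [hF]
    calc 4 ^ k * d ^ (2 * k + 1) * I / π
        ≤ 4 ^ k * d ^ (2 * k + 1) * (π * (4 / (27 * n ^ 2)) ^ k / (n * √n)) / π := by gcongr
      _ = 4 ^ k * d ^ (2 * k + 1) * (4 / (27 * n ^ 2)) ^ k / (n * √n) := by
          field_simp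
  have h2 : 1 ≤ 4 * m * F ^ 2 := by
    have : 1 ^ 2 ≤ (2 * √m * F) ^ 2 := by
      apply pow_le_pow_left₀ (by norm_num) h
    have e : (2 * √m * F) ^ 2 = 4 * m * F ^ 2 := by
      rw [mul_pow, mul_pow, Real.sq_sqrt hm.le]
      norm_num
    rw [e] at this
    linarith
  have h3 : F ^ 2 ≤ (4 ^ k * d ^ (2 * k + 1) * (4 / (27 * n ^ 2)) ^ k / (n * √n)) ^ 2 :=
    pow_le_pow_left₀ hF0.le h1 2
  have h4 : (4 ^ k * d ^ (2 * k + 1) * (4 / (27 * n ^ 2)) ^ k / (n * √n)) ^ 2 ≤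
      d ^ (4 * k + 2) / n ^ (4 * k + 3) := by
    have e1 : (4 ^ k * d ^ (2 * k + 1) * (4 / (27 * n ^ 2)) ^ k / (n * √n)) ^ 2 =
        ((4 : ℝ) ^ k * (4 / 27) ^ k) ^ 2 * (d ^ (4 * k + 2) / n ^ (4 * k + 3)) := by
      have hsq : √n ^ 2 = n := Real.sq_sqrt hn.le
      rw [show (4 : ℝ) / (27 * n ^ 2) = (4 / 27) / n ^ 2 by field_simp, div_pow (4 / 27 : ℝ)]
      rw [div_pow, mul_pow n, hsq]
      field_simp
      ring
    rw [e1]
    have e2 : ((4 : ℝ) ^ k * (4 / 27) ^ k) ^ 2 ≤ 1 := by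
      rw [← mul_pow]
      have : ((4 : ℝ) * (4 / 27)) ^ k ≤ 1 := pow_le_one₀ (by norm_num) (by norm_num)
      have h0 : 0 ≤ ((4 : ℝ) * (4 / 27)) ^ k := by positivity
      nlinarith
    have e3 : 0 ≤ d ^ (4 * k + 2) / n ^ (4 * k + 3) := by positivity
    nlinarith
  have h5 : 1 ≤ 4 * m * (d ^ (4 * k + 2) / n ^ (4 * k + 3)) := by
    refine h2.trans ?_
    have := h3.trans h4
    gcongr
  have h6 : 0 < n ^ (4 * k + 3) := by positivity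
  calc n ^ (4 * k + 3) = 1 * n ^ (4 * k + 3) := by ring
    _ ≤ (4 * m * (d ^ (4 * k + 2) / n ^ (4 * k + 3))) * n ^ (4 * k + 3) := by gcongr
    _ = 4 * d ^ (4 * k + 2) * m := by field_simp

theorem case3 (k : ℕ) {n m x d : ℝ} (hn : 0 < n) (hm : 0 < m) (hx : 0 < x) (hd : 0 < d)
    (hxn : 3 * x ≤ n) (hn2 : 64 * d ^ 4 ≤ n) (hn3 : d ^ 2 * x ≤ n)
    (h : √m ≤ 3 * (4 * (k + 1) * d * (64 * d ^ 2 * (n + x)) ^ k) * √(n + x) * x) :
    m ≤ 1024 ^ (k + 1) * x * n ^ (3 * k + 2) := by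
  have h1 := h.trans (T_le k hn hx hd hxn)
  have h2 : m ≤ (14 * (k + 1) * d * (256 / 3 * d ^ 2 * n) ^ k * √n * x) ^ 2 := by
    calc m = √m ^ 2 := (Real.sq_sqrt hm.le).symm
      _ ≤ _ := pow_le_pow_left₀ (Real.sqrt_nonneg m) h1 2
  refine h2.trans ?_
  have e0 : ∀ c : ℝ, (14 * ((k : ℝ) + 1) * d * (c * d ^ 2 * n) ^ k * √n * x) ^ 2 =
      196 * ((k + 1) ^ 2 * (c ^ 2) ^ k) * (d ^ 4) ^ k * (d ^ 2 * x) *
        (x * n ^ (2 * k + 1)) := by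
    intro c
    have hsq : √n ^ 2 = n := Real.sq_sqrt hn.le
    calc (14 * ((k : ℝ) + 1) * d * (c * d ^ 2 * n) ^ k * √n * x) ^ 2
        = 196 * (k + 1) ^ 2 * d ^ 2 * ((c * d ^ 2 * n) ^ k) ^ 2 * (√n ^ 2) * x ^ 2 := by ring
      _ = _ := by
        rw [hsq, mul_pow, mul_pow]
        ring
  have e1 := e0 (256 / 3)
  have e2 : ((k : ℝ) + 1) ^ 2 * ((256 / 3) ^ 2) ^ k ≤ 65536 ^ k := by
    have h0 := succ_le_two_pow k
    calc ((k : ℝ) + 1) ^ 2 * ((256 / 3) ^ 2) ^ k ≤ (2 ^ k) ^ 2 * ((256 / 3) ^ 2) ^ k := by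
          gcongr
      _ = (4 * (256 / 3) ^ 2) ^ k := by
          rw [mul_pow, ← pow_mul, mul_comm k 2, pow_mul]
          norm_num
      _ ≤ 65536 ^ k := by
          apply pow_le_pow_left₀ (by norm_num)
          norm_num
  have e3 : (65536 : ℝ) ^ k * (d ^ 4) ^ k ≤ 1024 ^ k * n ^ k := by
    rw [← mul_pow, ← mul_pow]
    apply pow_le_pow_left₀ (by positivity)
    linarith
  rw [e1]
  calc 196 * (((k : ℝ) + 1) ^ 2 * ((256 / 3) ^ 2) ^ k) * (d ^ 4) ^ k * (d ^ 2 * x) *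
        (x * n ^ (2 * k + 1))
      ≤ 196 * (65536 ^ k) * (d ^ 4) ^ k * (d ^ 2 * x) * (x * n ^ (2 * k + 1)) := by gcongr
    _ = 196 * (65536 ^ k * (d ^ 4) ^ k) * (d ^ 2 * x) * (x * n ^ (2 * k + 1)) := by ring
    _ ≤ 1024 * (1024 ^ k * n ^ k) * n * (x * n ^ (2 * k + 1)) := by
        gcongr
        norm_num
    _ = 1024 ^ (k + 1) * x * n ^ (3 * k + 2) := by ring

theorem row (hForm : FormStmt) (hUb : UbStmt) (hLb : LbStmt) (hA : DichAStmt) : DichStmt := by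
  intro k α₁ α₂ α₃ N M X₁ X₂ X₃ h3 h23 h12 hM hN1 hN2 hN3 hX1 hX2 hX3
  obtain ⟨D, hD⟩ : ∃ D : ℕ, D = (α₁ - α₂) * (α₁ - α₃) * (α₂ - α₃) := ⟨_, rfl⟩
  rw [← hD] at hN2 hN3 ⊢
  have hDpos : 0 < D := by
    rw [hD]
    have a1 : 0 < α₁ - α₂ := by omega
    have a2 : 0 < α₁ - α₃ := by omega
    have a3 : 0 < α₂ - α₃ := by omega
    positivity
  have hNpos : 0 < N := by omega
  have hDint : (((N + α₁ : ℤ) - (N + α₂)) * ((N + α₁ : ℤ) - (N + α₃)) *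
      ((N + α₂ : ℤ) - (N + α₃))) = (D : ℤ) := by
    rw [hD]
    push_cast [Nat.cast_sub h12.le, Nat.cast_sub h23.le, Nat.cast_sub (h23.trans h12).le]
    ring
  obtain ⟨P₁, P₂, P₃, hP1, hP2, hP3, hF⟩ := hForm k (N + α₁) (N + α₂) (N + α₃)
    (by positivity) (by exact_mod_cast Nat.add_lt_add_left h23 N)
    (by exact_mod_cast Nat.add_lt_add_left h12 N)
  rw [hDint] at hP1 hP2 hP3 hF
  push_cast at hP1 hP2 hP3 hF
  have hn : (0 : ℝ) < N := by exact_mod_cast hNpos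
  have hm : (0 : ℝ) < M := by exact_mod_cast hM
  have hd : (0 : ℝ) < D := by exact_mod_cast hDpos
  have hx3 : (0 : ℝ) < α₃ := by exact_mod_cast h3
  have hx23 : (α₃ : ℝ) < α₂ := by exact_mod_cast h23
  have hx12 : (α₂ : ℝ) < α₁ := by exact_mod_cast h12
  have hx1 : (0 : ℝ) < α₁ := by linarith
  have hx2 : (0 : ℝ) < α₂ := by linarith
  have hxn : 3 * (α₁ : ℝ) ≤ N := by exact_mod_cast hN1
  have hn2 : 64 * (D : ℝ) ^ 4 ≤ N := by exact_mod_cast hN2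
  have hn3 : (D : ℝ) ^ 2 * α₁ ≤ N := by exact_mod_cast hN3
  have hU := hUb k hn (G₁ := (N : ℝ) + α₁) (G₂ := (N : ℝ) + α₂) (G₃ := (N : ℝ) + α₃)
    (by linarith) (by linarith) (by linarith)
  have hL := hLb k hn (G₁ := (N : ℝ) + α₁) (G₂ := (N : ℝ) + α₂) (G₃ := (N : ℝ) + α₃)
    (by linarith) (by linarith) (by linarith) (by linarith) (by linarith) (by linarith)
  have hJpos : 0 < J k ((N : ℝ) + α₁) ((N : ℝ) + α₂) ((N : ℝ) + α₃) := by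
    refine lt_of_lt_of_le ?_ hL
    positivity
  have hXr : ∀ X α : ℕ, X ^ 2 = (N + α) * (M + α) →
      ((X : ℤ) : ℝ) = √((N : ℝ) + α) * √((M : ℝ) + α) := by
    intro X α hX
    have e : ((X : ℝ)) ^ 2 = ((N : ℝ) + α) * ((M : ℝ) + α) := by exact_mod_cast hX
    rw [← Real.sqrt_mul (by positivity), ← e, Real.sqrt_sq (by positivity)]
    norm_num
  have hF0 : 0 < 4 ^ k * (D : ℝ) ^ (2 * k + 1) *
      J k ((N : ℝ) + α₁) ((N : ℝ) + α₂) ((N : ℝ) + α₃) / π := by positivity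
  have key := hA P₁ P₂ P₃ X₁ X₂ X₃ α₁ α₂ α₃ N M
    (4 * (k + 1) * D * (64 * (D : ℝ) ^ 2 * (N + α₁)) ^ k)
    (4 ^ k * (D : ℝ) ^ (2 * k + 1) *
      J k ((N : ℝ) + α₁) ((N : ℝ) + α₂) ((N : ℝ) + α₃) / π) hx3 hx23 hx12 hn hm
    (hXr X₁ α₁ hX1) (hXr X₂ α₂ hX2) (hXr X₃ α₃ hX3) hP1 hP2 hP3 hF hF0
  rcases key with key | key | key
  · left
    have := case1 k hn hm hx1 hd hxn rfl hL key
    exact_mod_cast this
  · right
    have := case2 k hn hm hd rfl hF0 hU key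
    exact_mod_cast this
  · left
    have := case3 k hn hm hx1 hd hxn hn2 hn3 key
    exact_mod_cast this

end Pool.Agent.Helper83.KM.Dich
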