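import Mathlib
import Pool.Agent.Helper83.KM.Stm

namespace Pool.Agent.Helper83.KM

/-- Row TRIPLE: three positive integers have at most ten common neighbours above all of them. -/
def TripleStmt : Prop :=
  ∀ (a₁ a₂ a₃ : ℕ), 0 < a₁ → a₁ < a₂ → a₂ < a₃ → ∀ S : Finset ℕ,
    (∀ b ∈ S, a₃ < b ∧ IsSquare (a₁ * b + 1) ∧ IsSquare (a₂ * b + 1) ∧ IsSquare (a₃ * b + 1)) →
    S.card ≤ 10

/-- Row EDGE: a graph with an injective labelling in which any three vertices have at most ten
common neighbours with larger labels has at most `5 n ^ (5 / 3)` edges. -/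
def EdgeStmt : Prop :=
  ∀ (V : Type) [Fintype V] (G : SimpleGraph V) [DecidableRel G.Adj] (f : V → ℕ),
    Function.Injective f →
    (∀ u v w : V, f u < f v → f v < f w → ∀ S : Finset V,
      (∀ x ∈ S, f w < f x ∧ G.Adj u x ∧ G.Adj v x ∧ G.Adj w x) → S.card ≤ 10) →
    (G.edgeFinset.card : ℝ) ≤ 5 * (Fintype.card V : ℝ) ^ (5 / 3 : ℝ)

end Pool.Agent.Helper83.KM
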