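import Mathlib
import Pool.Agent.Helper83.KM.Stm2

namespace Pool.Agent.Helper83.KM.DioEdge

open Finset

/-- A Diophantine graph with `n` vertices has at most `5 n ^ (5 / 3)` edges. -/
def DioEdgeStmt : Prop :=
  ∀ (V : Type) [Fintype V] (G : SimpleGraph V) [DecidableRel G.Adj],
    Pool.Agent.Helper56.Dio.IsDiophantine G →
    (G.edgeFinset.card : ℝ) ≤ 5 * (Fintype.card V : ℝ) ^ (5 / 3 : ℝ)

theorem row (hT : TripleStmt) (hE : EdgeStmt) : DioEdgeStmt := by
  intro V _ G _ hG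
  obtain ⟨f, hpos, hinj, hadj⟩ := hG
  refine hE V G f hinj ?_
  intro u v w huv hvw S hS
  have h := hT (f u) (f v) (f w) (hpos u) huv hvw (S.image f) ?_
  · rwa [card_image_of_injective _ hinj] at h
  · intro b hb
    obtain ⟨x, hx, rfl⟩ := mem_image.mp hb
    obtain ⟨h0, h1, h2, h3⟩ := hS x hx
    exact ⟨h0, (hadj _ _ h1.ne).mp h1, (hadj _ _ h2.ne).mp h2, (hadj _ _ h3.ne).mp h3⟩

end Pool.Agent.Helper83.KM.DioEdge
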