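import Pool.Agent.Helper83.KM.Stm2

set_option autoImplicit false
set_option linter.unusedSectionVars false

namespace Pool.Agent.Helper83.KM.Edge

open Finset Real Pool.Agent.Helper83.KM

section
variable {V : Type} [Fintype V] [DecidableEq V] (G : SimpleGraph V) [DecidableRel G.Adj] (f : V → ℕ)

/-- the neighbours with smaller label -/
def dn (x : V) : Finset V := Finset.univ.filter (fun u => G.Adj u x ∧ f u < f x)

/-- the neighbours with larger label -/
def up (x : V) : Finset V := Finset.univ.filter (fun u => G.Adj u x ∧ f x < f u)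

theorem degree_eq (hf : Function.Injective f) (x : V) :
    G.degree x = (dn G f x).card + (up G f x).card := by
  rw [← SimpleGraph.card_neighborFinset_eq_degree, ← Finset.card_union_of_disjoint]
  · congr 1
    ext u
    rw [SimpleGraph.mem_neighborFinset, Finset.mem_union, dn, up, Finset.mem_filter,
      Finset.mem_filter]
    constructor
    · intro h
      have hne : f u ≠ f x := fun h' => h.ne (hf h').symm
      rcases lt_or_gt_of_ne hne with h1 | h1
      · exact Or.inl ⟨Finset.mem_univ _, h.symm, h1⟩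
      · exact Or.inr ⟨Finset.mem_univ _, h.symm, h1⟩
    · rintro (h | h)
      · exact h.2.1.symm
      · exact h.2.1.symm
  · rw [Finset.disjoint_left]
    intro u h1 h2
    have e1 := (Finset.mem_filter.1 h1).2.2
    have e2 := (Finset.mem_filter.1 h2).2.2
    exact absurd e1 (not_lt.2 e2.le)

theorem sum_dn_up : ∑ x, (dn G f x).card = ∑ x, (up G f x).card := by
  have h1 := Finset.sum_card_bipartiteAbove_eq_sum_card_bipartiteBelow
    (s := (Finset.univ : Finset V)) (t := (Finset.univ : Finset V))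
    (fun x u => G.Adj u x ∧ f u < f x)
  have h2 : ∀ u : V, (Finset.bipartiteBelow (fun x u => G.Adj u x ∧ f u < f x)
      (Finset.univ : Finset V) u).card = (up G f u).card := by
    intro u
    congr 1
    ext x
    rw [Finset.mem_bipartiteBelow, up, Finset.mem_filter]
    constructor
    · rintro ⟨h, h', h''⟩
      exact ⟨h, h'.symm, h''⟩
    · rintro ⟨h, h', h''⟩
      exact ⟨h, h'.symm, h''⟩
  rw [Finset.sum_congr rfl (fun u _ => h2 u)] at h1
  exact h1

theorem edges (hf : Function.Injective f) : G.edgeFinset.card = ∑ x, (dn G f x).card := by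
  have h1 := G.sum_degrees_eq_twice_card_edges
  rw [Finset.sum_congr rfl (fun x _ => degree_eq G f hf x), Finset.sum_add_distrib,
    ← sum_dn_up G f] at h1
  omega

theorem tri (h : ∀ u v w : V, f u < f v → f v < f w → ∀ S : Finset V,
      (∀ x ∈ S, f w < f x ∧ G.Adj u x ∧ G.Adj v x ∧ G.Adj w x) → S.card ≤ 10)
    (a b c : V) (hab : f a ≠ f b) (hac : f a ≠ f c) (hbc : f b ≠ f c) (S : Finset V)
    (hS : ∀ x ∈ S, (f a < f x ∧ G.Adj a x) ∧ (f b < f x ∧ G.Adj b x) ∧ (f c < f x ∧ G.Adj c x)) :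
    S.card ≤ 10 := by
  rcases lt_or_gt_of_ne hab with h1 | h1
  · rcases lt_or_gt_of_ne hac with h2 | h2
    · rcases lt_or_gt_of_ne hbc with h3 | h3
      · exact h a b c h1 h3 S fun x hx =>
          ⟨(hS x hx).2.2.1, (hS x hx).1.2, (hS x hx).2.1.2, (hS x hx).2.2.2⟩
      · exact h a c b h2 h3 S fun x hx =>
          ⟨(hS x hx).2.1.1, (hS x hx).1.2, (hS x hx).2.2.2, (hS x hx).2.1.2⟩
    · exact h c a b h2 h1 S fun x hx =>
        ⟨(hS x hx).2.1.1, (hS x hx).2.2.2, (hS x hx).1.2, (hS x hx).2.1.2⟩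
  · rcases lt_or_gt_of_ne hac with h2 | h2
    · exact h b a c h1 h2 S fun x hx =>
        ⟨(hS x hx).2.2.1, (hS x hx).2.1.2, (hS x hx).1.2, (hS x hx).2.2.2⟩
    · rcases lt_or_gt_of_ne hbc with h3 | h3
      · exact h b c a h3 h2 S fun x hx =>
          ⟨(hS x hx).1.1, (hS x hx).2.1.2, (hS x hx).2.2.2, (hS x hx).1.2⟩
      · exact h c b a h3 h1 S fun x hx =>
          ⟨(hS x hx).1.1, (hS x hx).2.2.2, (hS x hx).2.1.2, (hS x hx).1.2⟩

theorem count (hf : Function.Injective f) (h : ∀ u v w : V, f u < f v → f v < f w →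
      ∀ S : Finset V, (∀ x ∈ S, f w < f x ∧ G.Adj u x ∧ G.Adj v x ∧ G.Adj w x) → S.card ≤ 10) :
    ∑ x, ((dn G f x).card).choose 3 ≤ 10 * (Fintype.card V).choose 3 := by
  have h1 := Finset.sum_card_bipartiteAbove_eq_sum_card_bipartiteBelow
    (s := (Finset.univ : Finset V)) (t := Finset.powersetCard 3 (Finset.univ : Finset V))
    (fun x S => S ⊆ dn G f x)
  have h2 : ∀ x : V, (Finset.bipartiteAbove (fun x S => S ⊆ dn G f x)
      (Finset.powersetCard 3 (Finset.univ : Finset V)) x).card = ((dn G f x).card).choose 3 := by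
    intro x
    rw [← Finset.card_powersetCard]
    congr 1
    ext S
    rw [Finset.mem_bipartiteAbove, Finset.mem_powersetCard, Finset.mem_powersetCard]
    constructor
    · rintro ⟨⟨_, h⟩, h'⟩
      exact ⟨h', h⟩
    · rintro ⟨h', h⟩
      exact ⟨⟨Finset.subset_univ _, h⟩, h'⟩
  rw [Finset.sum_congr rfl (fun v _ => h2 v)] at h1
  rw [h1]
  calc ∑ S ∈ Finset.powersetCard 3 (Finset.univ : Finset V),
        (Finset.bipartiteBelow (fun x S => S ⊆ dn G f x) (Finset.univ : Finset V) S).card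
      ≤ ∑ _S ∈ Finset.powersetCard 3 (Finset.univ : Finset V), 10 := by
        apply Finset.sum_le_sum
        intro S hS
        obtain ⟨a, b, c, hab, hac, hbc, rfl⟩ :=
          Finset.card_eq_three.1 (Finset.mem_powersetCard.1 hS).2
        apply tri G f h a b c (fun h' => hab (hf h')) (fun h' => hac (hf h'))
          (fun h' => hbc (hf h'))
        intro x hx
        have hx' := (Finset.mem_filter.1 hx).2
        have ha := (Finset.mem_filter.1 (hx' (by simp : a ∈ ({a, b, c} : Finset V)))).2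
        have hb := (Finset.mem_filter.1 (hx' (by simp : b ∈ ({a, b, c} : Finset V)))).2
        have hc := (Finset.mem_filter.1 (hx' (by simp : c ∈ ({a, b, c} : Finset V)))).2
        exact ⟨⟨ha.2, ha.1⟩, ⟨hb.2, hb.1⟩, ⟨hc.2, hc.1⟩⟩
    _ = 10 * (Fintype.card V).choose 3 := by
        rw [Finset.sum_const, Finset.card_powersetCard, Finset.card_univ, smul_eq_mul, mul_comm]

end

theorem row : EdgeStmt := by
  classical
  intro V _ G inst f hf h
  have hcount : ∑ v : V, ((dn G f v).card).choose 3 ≤ 10 * (Fintype.card V).choose 3 :=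
    count G f hf h
  have hedges : G.edgeFinset.card = ∑ x, (dn G f x).card := edges G f hf
  set n := Fintype.card V with hn
  have h1 : ∑ v : V, ((dn G f v).card - 2) ^ 3 ≤ 10 * n ^ 3 := by
    calc ∑ v : V, ((dn G f v).card - 2) ^ 3
        ≤ ∑ v : V, Nat.factorial 3 * ((dn G f v).card).choose 3 := by
          apply Finset.sum_le_sum
          intro v _
          have h2 := Nat.pow_sub_le_descFactorial ((dn G f v).card) 3
          rw [Nat.descFactorial_eq_factorial_mul_choose] at h2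
          have e : (dn G f v).card + 1 - 3 = (dn G f v).card - 2 := by omega
          rw [e] at h2
          exact h2
      _ = Nat.factorial 3 * ∑ v : V, ((dn G f v).card).choose 3 := by rw [Finset.mul_sum]
      _ ≤ Nat.factorial 3 * (10 * n.choose 3) := Nat.mul_le_mul_left _ hcount
      _ = 10 * (Nat.factorial 3 * n.choose 3) := by ring
      _ = 10 * n.descFactorial 3 := by rw [Nat.descFactorial_eq_factorial_mul_choose]
      _ ≤ 10 * n ^ 3 := Nat.mul_le_mul_left _ (Nat.descFactorial_le_pow n 3)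
  have h1R : ∑ v : V, (((dn G f v).card - 2 : ℕ) : ℝ) ^ 3 ≤ 10 * (n : ℝ) ^ 3 := by exact_mod_cast h1
  set e : ℝ := (G.edgeFinset.card : ℝ) with he
  have hdeg : (∑ v : V, ((dn G f v).card : ℝ)) = e := by
    rw [he, hedges]
    push_cast
    rfl
  have hsum : e - 2 * n ≤ ∑ v : V, (((dn G f v).card - 2 : ℕ) : ℝ) := by
    have h3 : ∑ v : V, (((dn G f v).card : ℝ) - 2) ≤ ∑ v : V, (((dn G f v).card - 2 : ℕ) : ℝ) := by
      apply Finset.sum_le_sum
      intro v _
      have : ((dn G f v).card : ℤ) - 2 ≤ (((dn G f v).card - 2 : ℕ) : ℤ) := by omega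
      exact_mod_cast this
    rw [Finset.sum_sub_distrib, hdeg, Finset.sum_const, Finset.card_univ, nsmul_eq_mul, ← hn] at h3
    linarith
  rcases Nat.eq_zero_or_pos n with h0 | hpos
  · have hE : IsEmpty V := Fintype.card_eq_zero_iff.1 h0
    have h4 : ∑ v : V, (((dn G f v).card - 2 : ℕ) : ℝ) = 0 := by
      rw [Finset.univ_eq_empty, Finset.sum_empty]
    rw [h4, h0] at hsum
    rw [h0]
    have h5 : (0 : ℝ) ≤ ((0 : ℕ) : ℝ) ^ (5 / 3 : ℝ) := Real.rpow_nonneg (by norm_num) _
    push_cast at hsum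
    linarith
  have hn1 : (1 : ℝ) ≤ n := by exact_mod_cast hpos
  have hn0 : (0 : ℝ) < n := by linarith
  set Q : ℝ := (n : ℝ) ^ (5 / 3 : ℝ) with hQ
  have hQpos : 0 < Q := Real.rpow_pos_of_pos hn0 _
  have hnQ : (n : ℝ) ≤ Q := by
    calc (n : ℝ) = (n : ℝ) ^ (1 : ℝ) := (Real.rpow_one _).symm
      _ ≤ Q := Real.rpow_le_rpow_of_exponent_le hn1 (by norm_num)
  have hQ3 : Q ^ 3 = (n : ℝ) ^ 5 := by
    rw [hQ, ← Real.rpow_natCast, ← Real.rpow_mul hn0.le, ← Real.rpow_natCast]
    norm_num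
  have hpow := pow_sum_div_card_le_sum_pow (s := (Finset.univ : Finset V))
    (f := fun v => (((dn G f v).card - 2 : ℕ) : ℝ)) (fun v _ => Nat.cast_nonneg _) 2
  rw [Finset.card_univ, ← hn] at hpow
  have h6 : (∑ v : V, (((dn G f v).card - 2 : ℕ) : ℝ)) ^ 3 ≤ 10 * (n : ℝ) ^ 5 := by
    have h7 := hpow.trans h1R
    rw [div_le_iff₀ (by positivity)] at h7
    calc (∑ v : V, (((dn G f v).card - 2 : ℕ) : ℝ)) ^ 3 ≤ 10 * (n : ℝ) ^ 3 * (n : ℝ) ^ 2 := h7
      _ = 10 * (n : ℝ) ^ 5 := by ring
  have h8 : (∑ v : V, (((dn G f v).card - 2 : ℕ) : ℝ)) ≤ 3 * Q := by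
    by_contra hcon
    push Not at hcon
    have h9 : (3 * Q) ^ 3 < (∑ v : V, (((dn G f v).card - 2 : ℕ) : ℝ)) ^ 3 :=
      pow_lt_pow_left₀ hcon (by positivity) (by norm_num)
    rw [mul_pow, hQ3] at h9
    have h10 : (0 : ℝ) < (n : ℝ) ^ 5 := by positivity
    linarith
  linarith

end Pool.Agent.Helper83.KM.Edge
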