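import Pool.Agent.Helper83.KM.Stm

set_option autoImplicit false

namespace Pool.Agent.Helper83.KM.FORM

open Finset MeasureTheory Real Pool.Agent.Helper83.KM

theorem one (hI : IntegStmt) (k : ℕ) (G δ₁ δ₂ : ℝ) (hG : 0 < G) :
    Integrable (fun w : ℝ => ∑ h ∈ range (k + 1), dco k G δ₁ δ₂ h / (w ^ 2 + G) ^ (h + 1)) ∧
      ∫ w : ℝ, ∑ h ∈ range (k + 1), dco k G δ₁ δ₂ h / (w ^ 2 + G) ^ (h + 1) =
        π * (qsum k G δ₁ δ₂ * √G) := by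
  have hint : ∀ h ∈ range (k + 1),
      Integrable (fun w : ℝ => dco k G δ₁ δ₂ h / (w ^ 2 + G) ^ (h + 1)) := by
    intro h _
    have h1 := (hI h G hG).1.const_mul (dco k G δ₁ δ₂ h)
    refine h1.congr (Filter.Eventually.of_forall fun w => ?_)
    simp only
    rw [mul_one_div]
  refine ⟨integrable_finsetSum _ hint, ?_⟩
  rw [integral_finsetSum _ hint]
  have hsG : √G ≠ 0 := (Real.sqrt_pos.2 hG).ne'
  have hGG : √G * √G = G := Real.mul_self_sqrt hG.le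
  unfold qsum
  rw [Finset.sum_mul, Finset.mul_sum]
  apply Finset.sum_congr rfl
  intro h _
  have e1 : (fun w : ℝ => dco k G δ₁ δ₂ h / (w ^ 2 + G) ^ (h + 1)) =
      fun w : ℝ => dco k G δ₁ δ₂ h * (1 / (w ^ 2 + G) ^ (h + 1)) := by
    funext w
    rw [mul_one_div]
  rw [e1, integral_const_mul, (hI h G hG).2]
  have e2 : G ^ (h + 1) = G ^ h * (√G * √G) := by rw [hGG, pow_succ]
  have hGh : G ^ h ≠ 0 := pow_ne_zero _ hG.ne'
  rw [e2]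
  field_simp

theorem add3 {f g h : ℝ → ℝ} (hf : Integrable f) (hg : Integrable g) (hh : Integrable h) :
    ∫ w, (f w + g w + h w) = (∫ w, f w) + (∫ w, g w) + ∫ w, h w := by
  have h1 : Integrable (fun w => f w + g w) := hf.add hg
  rw [integral_add h1 hh, integral_add hf hg]

theorem row (hP : PfStmt) (hI : IntegStmt) (hS : SerStmt) : FormStmt := by
  intro k G₁ G₂ G₃ h3 h23 h12
  have h13 : G₃ < G₁ := h23.trans h12
  set D : ℤ := (G₁ - G₂) * (G₁ - G₃) * (G₂ - G₃) with hD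
  have hDpos : 0 < D := mul_pos (mul_pos (by linarith) (by linarith)) (by linarith)
  have hD1 : (G₂ - G₁) * (G₃ - G₁) * (G₂ - G₃) = D := by rw [hD]; ring
  have hD2 : (G₁ - G₂) * (G₃ - G₂) * (G₃ - G₁) = D := by rw [hD]; ring
  have hD3 : (G₁ - G₃) * (G₂ - G₃) * (G₁ - G₂) = D := by rw [hD]; ring
  obtain ⟨P₁, p1, q1⟩ := hS k G₁ (G₂ - G₁) (G₃ - G₁) (G₂ - G₃) (by linarith) (by omega)
    (by omega) (by omega)
  obtain ⟨P₂, p2, q2⟩ := hS k G₂ (G₁ - G₂) (G₃ - G₂) (G₃ - G₁) (by linarith) (by omega)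
    (by omega) (by omega)
  obtain ⟨P₃, p3, q3⟩ := hS k G₃ (G₁ - G₃) (G₂ - G₃) (G₁ - G₂) h3 (by omega)
    (by omega) (by omega)
  rw [hD1] at p1 q1
  rw [hD2] at p2 q2
  rw [hD3] at p3 q3
  have hDR : (0 : ℝ) < (D : ℝ) := by exact_mod_cast hDpos
  have r3 : (0 : ℝ) < (G₃ : ℝ) := by exact_mod_cast h3
  have r23 : (G₃ : ℝ) < G₂ := by exact_mod_cast h23
  have r12 : (G₂ : ℝ) < G₁ := by exact_mod_cast h12
  have r2 : (0 : ℝ) < (G₂ : ℝ) := r3.trans r23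
  have r1 : (0 : ℝ) < (G₁ : ℝ) := r2.trans r12
  rw [abs_of_pos hDR] at q1 q2 q3
  have hmono : ∀ G : ℝ, 0 < G → G ≤ G₁ →
      4 * ((k : ℝ) + 1) * (D : ℝ) * (64 * (D : ℝ) ^ 2 * G) ^ k ≤
        4 * ((k : ℝ) + 1) * (D : ℝ) * (64 * (D : ℝ) ^ 2 * G₁) ^ k := by
    intro G hG hG1
    apply mul_le_mul_of_nonneg_left _ (by positivity)
    apply pow_le_pow_left₀ (by positivity)
    exact mul_le_mul_of_nonneg_left hG1 (by positivity)
  refine ⟨P₁, P₂, P₃, q1, q2.trans (hmono _ r2 r12.le), q3.trans (hmono _ r3 (r23.trans r12).le),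
    ?_⟩
  obtain ⟨i1, j1⟩ := one hI k G₁ (G₂ - G₁) (G₃ - G₁) r1
  obtain ⟨i2, j2⟩ := one hI k G₂ (G₁ - G₂) (G₃ - G₂) r2
  obtain ⟨i3, j3⟩ := one hI k G₃ (G₁ - G₃) (G₂ - G₃) r3
  have hJ : J k G₁ G₂ G₃ = π * (qsum k G₁ (G₂ - G₁) (G₃ - G₁) * √G₁) +
      π * (qsum k G₂ (G₁ - G₂) (G₃ - G₂) * √G₂) + π * (qsum k G₃ (G₁ - G₃) (G₂ - G₃) * √G₃) := by
    have e1 : (fun w : ℝ => w ^ (2 * k + 2) /
        ((w ^ 2 + G₁) ^ (k + 1) * (w ^ 2 + G₂) ^ (k + 1) * (w ^ 2 + G₃) ^ (k + 1))) =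
        fun w : ℝ =>
        (∑ h ∈ range (k + 1), dco k G₁ (G₂ - G₁) (G₃ - G₁) h / (w ^ 2 + G₁) ^ (h + 1) +
        ∑ h ∈ range (k + 1), dco k G₂ (G₁ - G₂) (G₃ - G₂) h / (w ^ 2 + G₂) ^ (h + 1)) +
        ∑ h ∈ range (k + 1), dco k G₃ (G₁ - G₃) (G₂ - G₃) h / (w ^ 2 + G₃) ^ (h + 1) := by
      funext w
      have hw : 0 ≤ w ^ 2 := sq_nonneg w
      rw [← hP k r12.ne' (r23.trans r12).ne' r23.ne' (w ^ 2) (by positivity) (by positivity)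
        (by positivity)]
      have : 2 * k + 2 = 2 * (k + 1) := by ring
      rw [this, pow_mul]
    unfold J
    rw [e1, add3 i1 i2 i3, j1, j2, j3]
  have hπ : (π : ℝ) ≠ 0 := Real.pi_ne_zero
  rw [hJ, p1, p2, p3]
  push_cast
  field_simp

end Pool.Agent.Helper83.KM.FORM
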