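import Mathlib
import Pool.Agent.Helper83.KM.Stm

namespace Pool.Agent.Helper83.KM.GAP

lemma lower {x y r : ℝ} (hx : 0 ≤ x) (hy : 0 ≤ y) (hr : 0 ≤ r) (h : r ^ 2 = x ^ 2 * y ^ 2 + 1) :
    x * y ≤ r := by
  rw [← pow_le_pow_iff_left₀ (mul_nonneg hx hy) hr two_ne_zero, mul_pow, h]
  linarith

lemma upper {x y r : ℝ} (hx : 0 ≤ x) (hy : 0 ≤ y) (hr : 0 ≤ r) (h : r ^ 2 = x ^ 2 * y ^ 2 + 1)
    (h1 : 1 ≤ x ^ 2 * y ^ 2) : r ≤ 3 / 2 * (x * y) := by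
  rw [← pow_le_pow_iff_left₀ hr (by positivity) two_ne_zero, h]
  nlinarith

lemma minor_pos {p q d : ℤ} (hq : 0 < q) (h : p * q = d) (hd : 0 < d) : 0 < p := by
  by_contra hp
  push Not at hp
  have h1 : p * q ≤ 0 := mul_nonpos_of_nonpos_of_nonneg hp hq.le
  rw [h] at h1
  exact absurd hd (not_lt.2 h1)

lemma minor_eq {a c b d p q r s : ℤ} (hp : p ^ 2 = a * b + 1) (hq : q ^ 2 = c * d + 1)
    (hr : r ^ 2 = a * d + 1) (hs : s ^ 2 = c * b + 1) :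
    (p * q - r * s) * (p * q + r * s) = (c - a) * (d - b) := by
  linear_combination q ^ 2 * hp + (a * b + 1) * hq - s ^ 2 * hr - (a * d + 1) * hs

/-- Integer part. -/
lemma star {a1 a2 a3 b1 b2 b3 r11 r12 r13 r21 r22 r23 r31 r32 r33 : ℤ}
    (ha12 : a1 < a2) (ha23 : a2 < a3) (hb12 : b1 < b2) (hb23 : b2 < b3)
    (p11 : 0 < r11) (p12 : 0 < r12) (p13 : 0 < r13) (p21 : 0 < r21) (p22 : 0 < r22)
    (p23 : 0 < r23) (p31 : 0 < r31) (p32 : 0 < r32) (p33 : 0 < r33)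
    (e11 : r11 ^ 2 = a1 * b1 + 1) (e12 : r12 ^ 2 = a1 * b2 + 1) (e13 : r13 ^ 2 = a1 * b3 + 1)
    (e21 : r21 ^ 2 = a2 * b1 + 1) (e22 : r22 ^ 2 = a2 * b2 + 1) (e23 : r23 ^ 2 = a2 * b3 + 1)
    (e31 : r31 ^ 2 = a3 * b1 + 1) (e32 : r32 ^ 2 = a3 * b2 + 1) (e33 : r33 ^ 2 = a3 * b3 + 1) :
    (r11 * r22 + r12 * r21) * (r22 * r33 + r23 * r32) *
        ((r12 * r23 + r13 * r22) * (r21 * r32 + r22 * r31)) ≤
      (a2 - a1) * (b2 - b1) * ((a3 - a2) * (b3 - b2)) *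
        (r22 * (r11 * r33 - r13 * r31) + r23 * (r11 * r32 - r12 * r31) +
          r21 * (r12 * r33 - r13 * r32)) ∧
    0 < r11 * r33 - r13 * r31 ∧ 0 < r11 * r32 - r12 * r31 ∧ 0 < r12 * r33 - r13 * r32 := by
  have m1 : (r11 * r22 - r12 * r21) * (r11 * r22 + r12 * r21) = (a2 - a1) * (b2 - b1) :=
    minor_eq e11 e22 e12 e21
  have m2 : (r22 * r33 - r23 * r32) * (r22 * r33 + r23 * r32) = (a3 - a2) * (b3 - b2) :=
    minor_eq e22 e33 e23 e32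
  have m3 : (r12 * r23 - r13 * r22) * (r12 * r23 + r13 * r22) = (a2 - a1) * (b3 - b2) :=
    minor_eq e12 e23 e13 e22
  have m4 : (r21 * r32 - r22 * r31) * (r21 * r32 + r22 * r31) = (a3 - a2) * (b2 - b1) :=
    minor_eq e21 e32 e22 e31
  have q1 : (r11 * r33 - r13 * r31) * (r11 * r33 + r13 * r31) = (a3 - a1) * (b3 - b1) :=
    minor_eq e11 e33 e13 e31
  have q2 : (r11 * r32 - r12 * r31) * (r11 * r32 + r12 * r31) = (a3 - a1) * (b2 - b1) :=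
    minor_eq e11 e32 e12 e31
  have q3 : (r12 * r33 - r13 * r32) * (r12 * r33 + r13 * r32) = (a3 - a1) * (b3 - b2) :=
    minor_eq e12 e33 e13 e32
  have hA12 : 0 < a2 - a1 := by linarith
  have hA23 : 0 < a3 - a2 := by linarith
  have hA13 : 0 < a3 - a1 := by linarith
  have hB12 : 0 < b2 - b1 := by linarith
  have hB23 : 0 < b3 - b2 := by linarith
  have hB13 : 0 < b3 - b1 := by linarith
  have k1 : 0 < r11 * r33 - r13 * r31 := minor_pos (by positivity) q1 (by positivity)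
  have k2 : 0 < r11 * r32 - r12 * r31 := minor_pos (by positivity) q2 (by positivity)
  have k3 : 0 < r12 * r33 - r13 * r32 := minor_pos (by positivity) q3 (by positivity)
  refine ⟨?_, k1, k2, k3⟩
  set E : ℤ := (a2 - a1) * (b2 - b1) * ((a3 - a2) * (b3 - b2)) with hE
  set S1 : ℤ := (r11 * r22 + r12 * r21) * (r22 * r33 + r23 * r32) with hS1
  set S2 : ℤ := (r12 * r23 + r13 * r22) * (r21 * r32 + r22 * r31) with hS2
  set Ym : ℤ := r22 * (r11 * r33 - r13 * r31) + r23 * (r11 * r32 - r12 * r31) +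
    r21 * (r12 * r33 - r13 * r32) with hYm
  have hE1 : (r11 * r22 - r12 * r21) * (r22 * r33 - r23 * r32) * S1 = E := by
    rw [hS1, hE, ← m1, ← m2]; ring
  have hE2 : (r12 * r23 - r13 * r22) * (r21 * r32 - r22 * r31) * S2 = E := by
    have h5 : E = (a2 - a1) * (b3 - b2) * ((a3 - a2) * (b2 - b1)) := by rw [hE]; ring
    rw [h5, ← m3, ← m4, hS2]; ring
  set det : ℤ := r11 * r22 * r33 + r12 * r23 * r31 + r13 * r21 * r32 - r13 * r22 * r31 -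
    r11 * r23 * r32 - r12 * r21 * r33 with hdet
  have hc : r22 * (det * (S1 * S2)) = r22 * (-(E * Ym)) := by
    have h6 : r22 * det = (r11 * r22 - r12 * r21) * (r22 * r33 - r23 * r32) -
      (r12 * r23 - r13 * r22) * (r21 * r32 - r22 * r31) := by rw [hdet]; ring
    have h7 : S1 - S2 = r22 * Ym := by rw [hS1, hS2, hYm]; ring
    linear_combination (S1 * S2) * h6 + S2 * hE1 - S1 * hE2 - E * h7
  have hc2 : det * (S1 * S2) = -(E * Ym) := mul_left_cancel₀ p22.ne' hc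
  have hS1p : 0 < S1 := by rw [hS1]; positivity
  have hS2p : 0 < S2 := by rw [hS2]; positivity
  have hEp : 0 < E := by rw [hE]; positivity
  have hYp : 0 < Ym := by rw [hYm]; positivity
  have hSS : 0 < S1 * S2 := mul_pos hS1p hS2p
  have hd : det < 0 := by
    by_contra h8
    push Not at h8
    have h9 : 0 ≤ det * (S1 * S2) := mul_nonneg h8 hSS.le
    rw [hc2] at h9
    have h10 : 0 < E * Ym := mul_pos hEp hYp
    linarith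
  have hd1 : det ≤ -1 := by omega
  have h11 : det * (S1 * S2) ≤ -1 * (S1 * S2) := mul_le_mul_of_nonneg_right hd1 hSS.le
  linarith

lemma prod_ge {x z y w r s t u : ℝ} (hx : 0 ≤ x) (hz : 0 ≤ z) (hy : 0 ≤ y) (hw : 0 ≤ w)
    (l1 : x * y ≤ r) (l2 : z * w ≤ s) (l3 : x * w ≤ t) (l4 : z * y ≤ u) :
    2 * (x * z * y * w) ≤ r * s + t * u := by
  have h1 : (x * y) * (z * w) ≤ r * s :=
    mul_le_mul l1 l2 (mul_nonneg hz hw) ((mul_nonneg hx hy).trans l1)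
  have h2 : (x * w) * (z * y) ≤ t * u :=
    mul_le_mul l3 l4 (mul_nonneg hz hy) ((mul_nonneg hx hw).trans l3)
  calc 2 * (x * z * y * w) = (x * y) * (z * w) + (x * w) * (z * y) := by ring
    _ ≤ _ := add_le_add h1 h2

lemma minor_le {x z y w p q r s : ℝ} (hx : 0 < x) (hz : 0 < z) (hy : 0 < y) (hw : 0 < w)
    (hxz : x ^ 2 ≤ z ^ 2) (hyw : y ^ 2 ≤ w ^ 2)
    (hp : 0 ≤ p) (hq : 0 ≤ q) (hr : 0 ≤ r) (hs : 0 ≤ s)
    (ep : p ^ 2 = x ^ 2 * y ^ 2 + 1) (eq : q ^ 2 = z ^ 2 * w ^ 2 + 1)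
    (er : r ^ 2 = x ^ 2 * w ^ 2 + 1) (es : s ^ 2 = z ^ 2 * y ^ 2 + 1)
    (k : 0 < p * q - r * s) : 2 * (x * y) * (p * q - r * s) ≤ z * w := by
  have h1 := prod_ge hx.le hz.le hy.le hw.le (lower hx.le hy.le hp ep) (lower hz.le hw.le hq eq)
    (lower hx.le hw.le hr er) (lower hz.le hy.le hs es)
  have h3 : (p * q - r * s) * (p * q + r * s) = (z ^ 2 - x ^ 2) * (w ^ 2 - y ^ 2) := by
    linear_combination q ^ 2 * ep + (x ^ 2 * y ^ 2 + 1) * eq - s ^ 2 * er -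
      (x ^ 2 * w ^ 2 + 1) * es
  have h4 : (z ^ 2 - x ^ 2) * (w ^ 2 - y ^ 2) ≤ z ^ 2 * w ^ 2 :=
    mul_le_mul (by linarith [sq_nonneg x]) (by linarith [sq_nonneg y]) (by linarith)
      (sq_nonneg z)
  have h5 : (p * q - r * s) * (2 * (x * z * y * w)) ≤ (p * q - r * s) * (p * q + r * s) :=
    mul_le_mul_of_nonneg_left h1 k.le
  have h6 : (2 * (x * y) * (p * q - r * s)) * (z * w) ≤ (z * w) * (z * w) := by
    calc (2 * (x * y) * (p * q - r * s)) * (z * w) = (p * q - r * s) * (2 * (x * z * y * w)) := by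
          ring
      _ ≤ _ := h5
      _ = _ := h3
      _ ≤ _ := h4
      _ = _ := by ring
  exact le_of_mul_le_mul_right h6 (mul_pos hz hw)

lemma mm {a b c d : ℝ} (ha : 0 ≤ a) (hc : 0 ≤ c) (hab : a ≤ b) (hcd : c ≤ d) :
    a * c ≤ b * d := mul_le_mul hab hcd hc (ha.trans hab)

lemma E_le {x1 x2 x3 y1 y2 y3 : ℝ} (hx12 : x1 ^ 2 ≤ x2 ^ 2) (hx23 : x2 ^ 2 ≤ x3 ^ 2)
    (hy12 : y1 ^ 2 ≤ y2 ^ 2) (hy23 : y2 ^ 2 ≤ y3 ^ 2) :
    (x2 ^ 2 - x1 ^ 2) * (y2 ^ 2 - y1 ^ 2) * ((x3 ^ 2 - x2 ^ 2) * (y3 ^ 2 - y2 ^ 2)) ≤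
      x2 ^ 2 * y2 ^ 2 * (x3 ^ 2 * y3 ^ 2) := by
  have z1 := sq_nonneg x1
  have z2 := sq_nonneg x2
  have z3 := sq_nonneg y1
  have z4 := sq_nonneg y2
  exact mm (mul_nonneg (by linarith) (by linarith)) (mul_nonneg (by linarith) (by linarith))
    (mm (by linarith) (by linarith) (by linarith) (by linarith))
    (mm (by linarith) (by linarith) (by linarith) (by linarith))

lemma assemble {x1 x2 x3 y1 y2 y3 Ym S E : ℝ}
    (hx1 : 0 < x1) (hx2 : 0 < x2) (hx3 : 0 < x3) (hy1 : 0 < y1) (hy2 : 0 < y2) (hy3 : 0 < y3)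
    (hS : 2 * (x1 * x2 * y1 * y2) * (2 * (x2 * x3 * y2 * y3)) *
      (2 * (x1 * x2 * y2 * y3) * (2 * (x2 * x3 * y1 * y2))) ≤ S)
    (hE : E ≤ x2 ^ 2 * y2 ^ 2 * (x3 ^ 2 * y3 ^ 2)) (hY0 : 0 < Ym)
    (hY : 2 * (x1 * y1) * Ym ≤ 9 / 2 * (x2 * x3 * (y2 * y3)))
    (hs : S ≤ E * Ym) :
    x1 ^ 3 * x2 * (y1 ^ 3 * y2) ≤ x3 * y3 := by
  have h2 : E * Ym ≤ x2 ^ 2 * y2 ^ 2 * (x3 ^ 2 * y3 ^ 2) * Ym :=
    mul_le_mul_of_nonneg_right hE hY0.le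
  have h4 := mul_le_mul_of_nonneg_left (hS.trans (hs.trans h2))
    (show (0 : ℝ) ≤ 2 * (x1 * y1) by positivity)
  have h5 := mul_le_mul_of_nonneg_left hY
    (show (0 : ℝ) ≤ x2 ^ 2 * y2 ^ 2 * (x3 ^ 2 * y3 ^ 2) by positivity)
  have h6 : 2 * (x1 * y1) * (x2 ^ 2 * y2 ^ 2 * (x3 ^ 2 * y3 ^ 2) * Ym) =
      x2 ^ 2 * y2 ^ 2 * (x3 ^ 2 * y3 ^ 2) * (2 * (x1 * y1) * Ym) := by ring
  rw [h6] at h4
  have h7 := h4.trans h5
  have e1 : 2 * (x1 * y1) * (2 * (x1 * x2 * y1 * y2) * (2 * (x2 * x3 * y2 * y3)) *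
      (2 * (x1 * x2 * y2 * y3) * (2 * (x2 * x3 * y1 * y2)))) =
      (x1 ^ 3 * x2 * (y1 ^ 3 * y2)) * (x2 ^ 3 * x3 ^ 2 * (y2 ^ 3 * y3 ^ 2)) * 32 := by ring
  have e2 : x2 ^ 2 * y2 ^ 2 * (x3 ^ 2 * y3 ^ 2) * (9 / 2 * (x2 * x3 * (y2 * y3))) =
      (x3 * y3) * (x2 ^ 3 * x3 ^ 2 * (y2 ^ 3 * y3 ^ 2)) * (9 / 2) := by ring
  rw [e1, e2] at h7
  have hP : 0 < x2 ^ 3 * x3 ^ 2 * (y2 ^ 3 * y3 ^ 2) := by positivity
  have h0 : 0 ≤ x3 * y3 * (x2 ^ 3 * x3 ^ 2 * (y2 ^ 3 * y3 ^ 2)) := by positivity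
  have h8 : (x1 ^ 3 * x2 * (y1 ^ 3 * y2)) * (x2 ^ 3 * x3 ^ 2 * (y2 ^ 3 * y3 ^ 2)) ≤
      (x3 * y3) * (x2 ^ 3 * x3 ^ 2 * (y2 ^ 3 * y3 ^ 2)) := by linarith
  exact le_of_mul_le_mul_right h8 hP

/-- Real part. -/
lemma fin_bound {x1 x2 x3 y1 y2 y3 r11 r12 r13 r21 r22 r23 r31 r32 r33 : ℝ}
    (hx1 : 0 < x1) (hx2 : 0 < x2) (hx3 : 0 < x3) (hy1 : 0 < y1) (hy2 : 0 < y2) (hy3 : 0 < y3)
    (hx1' : 1 ≤ x1 ^ 2) (hy1' : 1 ≤ y1 ^ 2)
    (hx12 : x1 ^ 2 ≤ x2 ^ 2) (hx23 : x2 ^ 2 ≤ x3 ^ 2) (hy12 : y1 ^ 2 ≤ y2 ^ 2)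
    (hy23 : y2 ^ 2 ≤ y3 ^ 2)
    (p11 : 0 < r11) (p12 : 0 < r12) (p13 : 0 < r13) (p21 : 0 < r21) (p22 : 0 < r22)
    (p23 : 0 < r23) (p31 : 0 < r31) (p32 : 0 < r32) (p33 : 0 < r33)
    (e11 : r11 ^ 2 = x1 ^ 2 * y1 ^ 2 + 1) (e12 : r12 ^ 2 = x1 ^ 2 * y2 ^ 2 + 1)
    (e13 : r13 ^ 2 = x1 ^ 2 * y3 ^ 2 + 1)
    (e21 : r21 ^ 2 = x2 ^ 2 * y1 ^ 2 + 1) (e22 : r22 ^ 2 = x2 ^ 2 * y2 ^ 2 + 1)
    (e23 : r23 ^ 2 = x2 ^ 2 * y3 ^ 2 + 1)
    (e31 : r31 ^ 2 = x3 ^ 2 * y1 ^ 2 + 1) (e32 : r32 ^ 2 = x3 ^ 2 * y2 ^ 2 + 1)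
    (e33 : r33 ^ 2 = x3 ^ 2 * y3 ^ 2 + 1)
    (k1 : 0 < r11 * r33 - r13 * r31) (k2 : 0 < r11 * r32 - r12 * r31)
    (k3 : 0 < r12 * r33 - r13 * r32)
    (hs : (r11 * r22 + r12 * r21) * (r22 * r33 + r23 * r32) *
        ((r12 * r23 + r13 * r22) * (r21 * r32 + r22 * r31)) ≤
      (x2 ^ 2 - x1 ^ 2) * (y2 ^ 2 - y1 ^ 2) * ((x3 ^ 2 - x2 ^ 2) * (y3 ^ 2 - y2 ^ 2)) *
        (r22 * (r11 * r33 - r13 * r31) + r23 * (r11 * r32 - r12 * r31) +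
          r21 * (r12 * r33 - r13 * r32))) :
    x1 ^ 3 * x2 * (y1 ^ 3 * y2) ≤ x3 * y3 := by
  have hx2' : 1 ≤ x2 ^ 2 := hx1'.trans hx12
  have hy2' : 1 ≤ y2 ^ 2 := hy1'.trans hy12
  have hy3' : 1 ≤ y3 ^ 2 := hy2'.trans hy23
  have u22 := upper hx2.le hy2.le p22.le e22 (one_le_mul_of_one_le_of_one_le hx2' hy2')
  have u23 := upper hx2.le hy3.le p23.le e23 (one_le_mul_of_one_le_of_one_le hx2' hy3')
  have u21 := upper hx2.le hy1.le p21.le e21 (one_le_mul_of_one_le_of_one_le hx2' hy1')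
  have hy12' : y1 ≤ y2 := (pow_le_pow_iff_left₀ hy1.le hy2.le two_ne_zero).1 hy12
  have hx13 : x1 ^ 2 ≤ x3 ^ 2 := hx12.trans hx23
  have hy13 : y1 ^ 2 ≤ y3 ^ 2 := hy12.trans hy23
  have s1 := prod_ge hx1.le hx2.le hy1.le hy2.le (lower hx1.le hy1.le p11.le e11)
    (lower hx2.le hy2.le p22.le e22) (lower hx1.le hy2.le p12.le e12)
    (lower hx2.le hy1.le p21.le e21)
  have s2 := prod_ge hx2.le hx3.le hy2.le hy3.le (lower hx2.le hy2.le p22.le e22)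
    (lower hx3.le hy3.le p33.le e33) (lower hx2.le hy3.le p23.le e23)
    (lower hx3.le hy2.le p32.le e32)
  have s3 := prod_ge hx1.le hx2.le hy2.le hy3.le (lower hx1.le hy2.le p12.le e12)
    (lower hx2.le hy3.le p23.le e23) (lower hx1.le hy3.le p13.le e13)
    (lower hx2.le hy2.le p22.le e22)
  have s4 := prod_ge hx2.le hx3.le hy1.le hy2.le (lower hx2.le hy1.le p21.le e21)
    (lower hx3.le hy2.le p32.le e32) (lower hx2.le hy2.le p22.le e22)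
    (lower hx3.le hy1.le p31.le e31)
  have sL := mm (by positivity) (by positivity) (mm (by positivity) (by positivity) s1 s2)
      (mm (by positivity) (by positivity) s3 s4)
  have t1 := minor_le hx1 hx3 hy1 hy3 hx13 hy13 p11.le p33.le p13.le p31.le e11 e33 e13 e31 k1
  have t2 := minor_le hx1 hx3 hy1 hy2 hx13 hy12 p11.le p32.le p12.le p31.le e11 e32 e12 e31 k2
  have t3 := minor_le hx1 hx3 hy2 hy3 hx13 hy23 p12.le p33.le p13.le p32.le e12 e33 e13 e32 k3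
  have t3' : 2 * (x1 * y1) * (r12 * r33 - r13 * r32) ≤ x3 * y3 :=
    le_trans (mul_le_mul_of_nonneg_right
      (mul_le_mul_of_nonneg_left (mul_le_mul_of_nonneg_left hy12' hx1.le) zero_le_two) k3.le) t3
  have u21' : r21 ≤ 3 / 2 * (x2 * y2) := u21.trans
    (mul_le_mul_of_nonneg_left (mul_le_mul_of_nonneg_left hy12' hx2.le) (by norm_num))
  have h1 : r22 * (2 * (x1 * y1) * (r11 * r33 - r13 * r31)) ≤
      3 / 2 * (x2 * y2) * (x3 * y3) := mm p22.le (by positivity) u22 t1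
  have h2 : r23 * (2 * (x1 * y1) * (r11 * r32 - r12 * r31)) ≤
      3 / 2 * (x2 * y3) * (x3 * y2) := mm p23.le (by positivity) u23 t2
  have h3 : r21 * (2 * (x1 * y1) * (r12 * r33 - r13 * r32)) ≤
      3 / 2 * (x2 * y2) * (x3 * y3) := mm p21.le (by positivity) u21' t3'
  have hY : 2 * (x1 * y1) * (r22 * (r11 * r33 - r13 * r31) + r23 * (r11 * r32 - r12 * r31) +
      r21 * (r12 * r33 - r13 * r32)) ≤ 9 / 2 * (x2 * x3 * (y2 * y3)) := by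
    calc 2 * (x1 * y1) * (r22 * (r11 * r33 - r13 * r31) + r23 * (r11 * r32 - r12 * r31) +
      r21 * (r12 * r33 - r13 * r32)) = r22 * (2 * (x1 * y1) * (r11 * r33 - r13 * r31)) +
        r23 * (2 * (x1 * y1) * (r11 * r32 - r12 * r31)) +
        r21 * (2 * (x1 * y1) * (r12 * r33 - r13 * r32)) := by ring
      _ ≤ 3 / 2 * (x2 * y2) * (x3 * y3) + 3 / 2 * (x2 * y3) * (x3 * y2) +
        3 / 2 * (x2 * y2) * (x3 * y3) := add_le_add (add_le_add h1 h2) h3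
      _ = _ := by ring
  exact assemble hx1 hx2 hx3 hy1 hy2 hy3 sL (E_le hx12 hx23 hy12 hy23)
    (add_pos (add_pos (mul_pos p22 k1) (mul_pos p23 k2)) (mul_pos p21 k3)) hY hs

theorem row : GapStmt := by
  intro a1 a2 a3 b1 b2 b3 ha ha12 ha23 hb hb12 hb23 h11 h12 h13 h21 h22 h23 h31 h32 h33
  obtain ⟨r11, e11⟩ := h11
  obtain ⟨r12, e12⟩ := h12
  obtain ⟨r13, e13⟩ := h13
  obtain ⟨r21, e21⟩ := h21
  obtain ⟨r22, e22⟩ := h22
  obtain ⟨r23, e23⟩ := h23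
  obtain ⟨r31, e31⟩ := h31
  obtain ⟨r32, e32⟩ := h32
  obtain ⟨r33, e33⟩ := h33
  have pos : ∀ {a b r : ℕ}, a * b + 1 = r * r → 0 < r := by
    intro a b r h
    rcases Nat.eq_zero_or_pos r with h0 | h0
    · rw [h0] at h; omega
    · exact h0
  have cz : ∀ {a b r : ℕ}, a * b + 1 = r * r → (r : ℤ) ^ 2 = (a : ℤ) * (b : ℤ) + 1 := by
    intro a b r h
    have h' : ((a * b + 1 : ℕ) : ℤ) = ((r * r : ℕ) : ℤ) := by rw [h]
    push_cast at h'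
    rw [sq, ← h']
  have cr : ∀ {a b r : ℕ}, a * b + 1 = r * r → (r : ℝ) ^ 2 = √(a : ℝ) ^ 2 * √(b : ℝ) ^ 2 + 1 := by
    intro a b r h
    have h' : ((a * b + 1 : ℕ) : ℝ) = ((r * r : ℕ) : ℝ) := by rw [h]
    push_cast at h'
    rw [Real.sq_sqrt (Nat.cast_nonneg a), Real.sq_sqrt (Nat.cast_nonneg b), sq, ← h']
  have st := star (a1 := a1) (a2 := a2) (a3 := a3) (b1 := b1) (b2 := b2) (b3 := b3)
    (by exact_mod_cast ha12) (by exact_mod_cast ha23) (by exact_mod_cast hb12)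
    (by exact_mod_cast hb23)
    (by exact_mod_cast pos e11) (by exact_mod_cast pos e12) (by exact_mod_cast pos e13)
    (by exact_mod_cast pos e21) (by exact_mod_cast pos e22) (by exact_mod_cast pos e23)
    (by exact_mod_cast pos e31) (by exact_mod_cast pos e32) (by exact_mod_cast pos e33)
    (cz e11) (cz e12) (cz e13) (cz e21) (cz e22) (cz e23) (cz e31) (cz e32) (cz e33)
  obtain ⟨s0, s1, s2, s3⟩ := st
  have s0' : ((r11 : ℝ) * r22 + r12 * r21) * (r22 * r33 + r23 * r32) *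
        ((r12 * r23 + r13 * r22) * (r21 * r32 + r22 * r31)) ≤
      ((a2 : ℝ) - a1) * (b2 - b1) * ((a3 - a2) * (b3 - b2)) *
        (r22 * (r11 * r33 - r13 * r31) + r23 * (r11 * r32 - r12 * r31) +
          r21 * (r12 * r33 - r13 * r32)) := by exact_mod_cast s0
  have s1' : (0 : ℝ) < (r11 : ℝ) * r33 - r13 * r31 := by exact_mod_cast s1
  have s2' : (0 : ℝ) < (r11 : ℝ) * r32 - r12 * r31 := by exact_mod_cast s2
  have s3' : (0 : ℝ) < (r12 : ℝ) * r33 - r13 * r32 := by exact_mod_cast s3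
  have sp : ∀ {a : ℕ}, 0 < a → 0 < √(a : ℝ) := fun h => Real.sqrt_pos.2 (by exact_mod_cast h)
  have sq' : ∀ a : ℕ, √(a : ℝ) ^ 2 = (a : ℝ) := fun a => Real.sq_sqrt (Nat.cast_nonneg a)
  have rp : ∀ {r : ℕ}, 0 < r → (0 : ℝ) < (r : ℝ) := fun h => by exact_mod_cast h
  have fb := fin_bound (sp ha) (sp (ha.trans ha12)) (sp (ha.trans (ha12.trans ha23))) (sp hb)
    (sp (hb.trans hb12)) (sp (hb.trans (hb12.trans hb23)))
    (by rw [sq']; exact_mod_cast ha) (by rw [sq']; exact_mod_cast hb)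
    (by rw [sq', sq']; exact_mod_cast ha12.le) (by rw [sq', sq']; exact_mod_cast ha23.le)
    (by rw [sq', sq']; exact_mod_cast hb12.le) (by rw [sq', sq']; exact_mod_cast hb23.le)
    (rp (pos e11)) (rp (pos e12)) (rp (pos e13)) (rp (pos e21)) (rp (pos e22)) (rp (pos e23))
    (rp (pos e31)) (rp (pos e32)) (rp (pos e33))
    (cr e11) (cr e12) (cr e13) (cr e21) (cr e22) (cr e23) (cr e31) (cr e32) (cr e33)
    s1' s2' s3' (by rw [sq', sq', sq', sq', sq', sq']; exact s0')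
  have fb2 := pow_le_pow_left₀ (by positivity) fb 2
  have e1 : (√(a1 : ℝ) ^ 3 * √(a2 : ℝ) * (√(b1 : ℝ) ^ 3 * √(b2 : ℝ))) ^ 2 =
      (a2 : ℝ) * b2 * (a1 * b1) ^ 3 := by
    have h : (√(a1 : ℝ) ^ 3 * √(a2 : ℝ) * (√(b1 : ℝ) ^ 3 * √(b2 : ℝ))) ^ 2 =
      √(a2 : ℝ) ^ 2 * √(b2 : ℝ) ^ 2 * (√(a1 : ℝ) ^ 2 * √(b1 : ℝ) ^ 2) ^ 3 := by ring
    rw [h, sq', sq', sq', sq']
  have e2 : (√(a3 : ℝ) * √(b3 : ℝ)) ^ 2 = (a3 : ℝ) * b3 := by
    rw [mul_pow, sq', sq']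
  rw [e1, e2] at fb2
  exact_mod_cast fb2

end Pool.Agent.Helper83.KM.GAP
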