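import Pool.Agent.Helper83.KM.Stm

/-!
# Row GRAPH: no Diophantine graph contains `K_{13,13}`
-/

namespace Pool.Agent.Helper83.KM.GRAPH

open Finset

theorem row (hsets : SetsStmt) : GraphStmt := by
  intro V G hG hc
  obtain ⟨f, hpos, hinj, hadj⟩ := hG
  obtain ⟨c⟩ := hc
  have hcinj : Function.Injective c := c.injective
  have hl : Function.Injective (fun i : Fin 13 => f (c (Sum.inl i))) := by
    intro i j hij
    exact Sum.inl_injective (hcinj (hinj hij))
  have hr : Function.Injective (fun i : Fin 13 => f (c (Sum.inr i))) := by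
    intro i j hij
    exact Sum.inr_injective (hcinj (hinj hij))
  have h := hsets (univ.image (fun i : Fin 13 => f (c (Sum.inl i))))
    (univ.image (fun i : Fin 13 => f (c (Sum.inr i)))) ?_ ?_ ?_
  · rw [card_image_of_injective _ hl, card_image_of_injective _ hr, card_univ,
      Fintype.card_fin] at h
    omega
  · intro a ha
    obtain ⟨i, _, rfl⟩ := mem_image.mp ha
    exact hpos _
  · intro a ha
    obtain ⟨i, _, rfl⟩ := mem_image.mp ha
    exact hpos _
  · intro a ha b hb
    obtain ⟨i, _, rfl⟩ := mem_image.mp ha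
    obtain ⟨j, _, rfl⟩ := mem_image.mp hb
    have had : G.Adj (c (Sum.inl i)) (c (Sum.inr j)) := by
      apply c.toHom.map_adj
      simp [completeBipartiteGraph]
    exact (hadj _ _ had.ne).mp had

end Pool.Agent.Helper83.KM.GRAPH
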