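import Pool.Agent.Helper83.KM.Stm

/-!
Row INTEG: the integrals of `1 / (w ^ 2 + G) ^ (h + 1)` over the line.
-/

set_option autoImplicit false

namespace Pool.Agent.Helper83.KM.INTEG

open MeasureTheory Real Filter Topology

theorem base_eq (G : ℝ) (hG : 0 < G) (w : ℝ) :
    1 / (w ^ 2 + G) ^ (0 + 1) = G⁻¹ * (1 + ((√G)⁻¹ * w) ^ 2)⁻¹ := by
  have h1 : √G ^ 2 = G := Real.sq_sqrt hG.le
  have h2 : (0 : ℝ) < w ^ 2 + G := by positivity
  have h3 : 1 + ((√G)⁻¹ * w) ^ 2 = (w ^ 2 + G) / G := by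
    rw [mul_pow, inv_pow, h1]
    field_simp
    ring
  rw [h3, zero_add, pow_one]
  field_simp

theorem base_integrable (G : ℝ) (hG : 0 < G) :
    Integrable (fun w : ℝ => 1 / (w ^ 2 + G) ^ (0 + 1)) := by
  have hs : (√G)⁻¹ ≠ 0 := inv_ne_zero (Real.sqrt_pos.2 hG).ne'
  have h1 : Integrable (fun w : ℝ => G⁻¹ * (1 + ((√G)⁻¹ * w) ^ 2)⁻¹) :=
    (integrable_inv_one_add_sq.comp_mul_left' hs).const_mul G⁻¹
  have h2 : (fun w : ℝ => 1 / (w ^ 2 + G) ^ (0 + 1)) =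
      fun w : ℝ => G⁻¹ * (1 + ((√G)⁻¹ * w) ^ 2)⁻¹ := by
    funext w
    exact base_eq G hG w
  rw [h2]
  exact h1

theorem base_integral (G : ℝ) (hG : 0 < G) :
    ∫ w : ℝ, 1 / (w ^ 2 + G) ^ (0 + 1) = π / √G := by
  have hs : 0 < √G := Real.sqrt_pos.2 hG
  have h2 : (fun w : ℝ => 1 / (w ^ 2 + G) ^ (0 + 1)) =
      fun w : ℝ => G⁻¹ * (1 + ((√G)⁻¹ * w) ^ 2)⁻¹ := by
    funext w
    exact base_eq G hG w
  have h3 : ∫ w : ℝ, (fun x : ℝ => (1 + x ^ 2)⁻¹) ((√G)⁻¹ * w) =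
      |((√G)⁻¹)⁻¹| • ∫ x : ℝ, (1 + x ^ 2)⁻¹ :=
    Measure.integral_comp_mul_left (fun x : ℝ => (1 + x ^ 2)⁻¹) (√G)⁻¹
  rw [h2, integral_const_mul]
  have h4 : ∫ w : ℝ, (1 + ((√G)⁻¹ * w) ^ 2)⁻¹ = √G * π := by
    rw [show (fun w : ℝ => (1 + ((√G)⁻¹ * w) ^ 2)⁻¹) =
      fun w : ℝ => (fun x : ℝ => (1 + x ^ 2)⁻¹) ((√G)⁻¹ * w) from rfl, h3,
      integral_univ_inv_one_add_sq, inv_inv, abs_of_pos hs, smul_eq_mul]
  rw [h4]
  have h5 : √G * √G = G := Real.mul_self_sqrt hG.le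
  rw [div_eq_mul_inv]
  have h6 : G⁻¹ * (√G * π) = π * (√G * G⁻¹) := by ring
  rw [h6]
  congr 1
  have h7 : √G * G⁻¹ = √G * (√G * √G)⁻¹ := by rw [h5]
  rw [h7]
  field_simp

theorem integrable (G : ℝ) (hG : 0 < G) (h : ℕ) :
    Integrable (fun w : ℝ => 1 / (w ^ 2 + G) ^ (h + 1)) := by
  have h0 : Integrable (fun w : ℝ => (1 / G ^ h) * (1 / (w ^ 2 + G) ^ (0 + 1))) :=
    (base_integrable G hG).const_mul _
  refine h0.mono' ?_ ?_
  · apply Continuous.aestronglyMeasurable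
    apply Continuous.div continuous_const (by fun_prop)
    intro w
    positivity
  · refine ae_of_all _ fun w => ?_
    have h2 : (0 : ℝ) < w ^ 2 + G := by positivity
    rw [Real.norm_of_nonneg (by positivity), zero_add, pow_one, pow_succ, one_div_mul_one_div]
    apply one_div_le_one_div_of_le (by positivity)
    apply mul_le_mul_of_nonneg_right _ h2.le
    apply pow_le_pow_left₀ hG.le
    nlinarith [sq_nonneg w]

/-- The primitive. -/
theorem deriv (G : ℝ) (hG : 0 < G) (h : ℕ) (w : ℝ) :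
    HasDerivAt (fun w : ℝ => w / (w ^ 2 + G) ^ (h + 1))
      (2 * (h + 1) * G * (1 / (w ^ 2 + G) ^ (h + 1 + 1)) -
        (2 * h + 1) * (1 / (w ^ 2 + G) ^ (h + 1))) w := by
  have h2 : (0 : ℝ) < w ^ 2 + G := by positivity
  have h3 : HasDerivAt (fun w : ℝ => w ^ 2 + G) (2 * w) w := by
    have := (hasDerivAt_pow 2 w).add_const G
    simpa using this
  have h4 := h3.pow (h + 1)
  have h5 := (hasDerivAt_id w).div h4 (by
    show (w ^ 2 + G) ^ (h + 1) ≠ 0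
    positivity)
  refine h5.congr_deriv ?_
  simp only [id, Nat.add_sub_cancel, Pi.pow_apply]
  push_cast
  have h6 : (w ^ 2 + G) ≠ 0 := h2.ne'
  field_simp
  ring

theorem tendsto_cobounded (G : ℝ) (hG : 0 < G) (h : ℕ) (l : Filter ℝ)
    (hl : Tendsto (fun w : ℝ => |w|) l atTop) :
    Tendsto (fun w : ℝ => w / (w ^ 2 + G) ^ (h + 1)) l (𝓝 0) := by
  have h1 : Tendsto (fun w : ℝ => (1 / G ^ h) * |w|⁻¹) l (𝓝 0) := by
    have := (tendsto_inv_atTop_zero.comp hl).const_mul (1 / G ^ h)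
    simpa using this
  apply squeeze_zero_norm' _ h1
  filter_upwards [hl.eventually_gt_atTop 0] with w hw
  have h2 : (0 : ℝ) < w ^ 2 + G := by positivity
  rw [norm_div, Real.norm_eq_abs, Real.norm_eq_abs, abs_of_pos (pow_pos h2 _),
    div_le_iff₀ (pow_pos h2 _)]
  have h3 : G ^ h ≤ (w ^ 2 + G) ^ h := by
    apply pow_le_pow_left₀ hG.le
    nlinarith [sq_nonneg w]
  have h4 : |w| * |w| ≤ w ^ 2 + G := by
    rw [abs_mul_abs_self]
    nlinarith
  have h5 : 1 / G ^ h * |w|⁻¹ * (w ^ 2 + G) ^ (h + 1) =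
      ((w ^ 2 + G) ^ h / G ^ h) * ((w ^ 2 + G) / |w|) := by
    rw [pow_succ]
    field_simp
  rw [h5]
  have h6 : 1 ≤ (w ^ 2 + G) ^ h / G ^ h := by
    rw [one_le_div (pow_pos hG _)]
    exact h3
  have h7 : |w| ≤ (w ^ 2 + G) / |w| := by
    rw [le_div_iff₀ hw]
    exact h4
  calc |w| ≤ (w ^ 2 + G) / |w| := h7
    _ = 1 * ((w ^ 2 + G) / |w|) := (one_mul _).symm
    _ ≤ _ := mul_le_mul_of_nonneg_right h6 (by positivity)

theorem step (G : ℝ) (hG : 0 < G) (h : ℕ) :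
    2 * (h + 1) * G * (∫ w : ℝ, 1 / (w ^ 2 + G) ^ (h + 1 + 1)) =
      (2 * h + 1) * ∫ w : ℝ, 1 / (w ^ 2 + G) ^ (h + 1) := by
  have hi1 : Integrable (fun w : ℝ => 2 * ((h : ℝ) + 1) * G * (1 / (w ^ 2 + G) ^ (h + 1 + 1))) :=
    (integrable G hG (h + 1)).const_mul _
  have hi2 : Integrable (fun w : ℝ => (2 * (h : ℝ) + 1) * (1 / (w ^ 2 + G) ^ (h + 1))) :=
    (integrable G hG h).const_mul _
  have h1 := integral_of_hasDerivAt_of_tendsto (deriv G hG h) (hi1.sub hi2)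
    (tendsto_cobounded G hG h atBot tendsto_abs_atBot_atTop)
    (tendsto_cobounded G hG h atTop tendsto_abs_atTop_atTop)
  rw [integral_sub hi1 hi2, integral_const_mul, integral_const_mul] at h1
  linarith

theorem central (h : ℕ) :
    2 * ((h : ℝ) + 1) * (((2 * (h + 1)).choose (h + 1) : ℝ) / 4 ^ (h + 1)) =
      (2 * h + 1) * (((2 * h).choose h : ℝ) / 4 ^ h) := by
  have h1 := Nat.succ_mul_centralBinom_succ h
  unfold Nat.centralBinom at h1
  have h2 : ((h : ℝ) + 1) * ((2 * (h + 1)).choose (h + 1) : ℝ) =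
      2 * (2 * h + 1) * ((2 * h).choose h : ℝ) := by
    exact_mod_cast h1
  rw [pow_succ]
  field_simp
  linarith

theorem row : IntegStmt := by
  intro h G hG
  refine ⟨integrable G hG h, ?_⟩
  have hs : 0 < √G := Real.sqrt_pos.2 hG
  induction h with
  | zero =>
    rw [base_integral G hG]
    simp
  | succ h ih =>
    have h1 := step G hG h
    rw [ih] at h1
    have h2 := central h
    have h3 : (2 * ((h : ℝ) + 1) * G) ≠ 0 := by positivity
    apply mul_left_cancel₀ h3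
    rw [h1]
    have h4 : 2 * ((h : ℝ) + 1) * G *
        (π * (((2 * (h + 1)).choose (h + 1) : ℝ) / 4 ^ (h + 1)) / (G ^ (h + 1) * √G)) =
        (2 * ((h : ℝ) + 1) * (((2 * (h + 1)).choose (h + 1) : ℝ) / 4 ^ (h + 1))) *
          (π / (G ^ h * √G)) := by
      rw [pow_succ G h]
      field_simp
    rw [h4, h2]
    ring

end Pool.Agent.Helper83.KM.INTEG
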