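import Mathlib
import Pool.Agent.Helper83.KM.Stm

namespace Pool.Agent.Helper83.KM.INV

open Finset PowerSeries

theorem coeff_invPS (k n : ℕ) (δ : ℝ) :
    coeff n (invPS k δ) = (-1 : ℝ) ^ n * ((k + n).choose n : ℝ) / δ ^ (k + 1 + n) := by
  simp only [invPS, coeff_mk]

theorem coeff_zero_mul (A : PowerSeries ℝ) (δ : ℝ) :
    coeff 0 (A * (X + C δ)) = coeff 0 A * δ := by
  rw [mul_add, map_add, coeff_zero_mul_X, zero_add, coeff_mul_C]

theorem coeff_succ_mul (A : PowerSeries ℝ) (δ : ℝ) (n : ℕ) :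
    coeff (n + 1) (A * (X + C δ)) = coeff n A + coeff (n + 1) A * δ := by
  rw [mul_add, map_add, coeff_succ_mul_X, coeff_mul_C]

theorem base {δ : ℝ} (hδ : δ ≠ 0) : invPS 0 δ * (X + C δ) = 1 := by
  ext n
  cases n with
  | zero =>
      rw [coeff_zero_mul, coeff_invPS, coeff_one]
      simp [hδ]
  | succ n =>
      rw [coeff_succ_mul, coeff_invPS, coeff_invPS, coeff_one, if_neg (Nat.succ_ne_zero n)]
      have e1 : (0 + n).choose n = 1 := by simp
      have e2 : (0 + (n + 1)).choose (n + 1) = 1 := by simp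
      rw [e1, e2]
      have e3 : δ ^ (0 + 1 + (n + 1)) = δ ^ (0 + 1 + n) * δ := by
        rw [← pow_succ]; ring_nf
      have h0 : δ ^ (0 + 1 + n) ≠ 0 := pow_ne_zero _ hδ
      rw [e3]
      field_simp
      ring

theorem step (k : ℕ) {δ : ℝ} (hδ : δ ≠ 0) :
    invPS (k + 1) δ * (X + C δ) = invPS k δ := by
  ext n
  cases n with
  | zero =>
      rw [coeff_zero_mul, coeff_invPS, coeff_invPS]
      have h0 : δ ^ (k + 1 + 0) ≠ 0 := pow_ne_zero _ hδ
      have e3 : δ ^ (k + 1 + 1 + 0) = δ ^ (k + 1 + 0) * δ := by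
        rw [← pow_succ]
      rw [e3]
      simp only [Nat.choose_zero_right, Nat.cast_one, pow_zero]
      field_simp
  | succ n =>
      rw [coeff_succ_mul, coeff_invPS, coeff_invPS, coeff_invPS]
      have hp : ((k + 1 + (n + 1)).choose (n + 1) : ℝ) =
          ((k + 1 + n).choose n : ℝ) + ((k + (n + 1)).choose (n + 1) : ℝ) := by
        have h := Nat.choose_succ_succ (k + 1 + n) n
        have e1 : k + 1 + (n + 1) = (k + 1 + n).succ := by omega
        have e2 : k + (n + 1) = k + 1 + n := by omega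
        have e3 : n + 1 = n.succ := rfl
        rw [e1, e2, e3, h]
        push_cast
        ring
      rw [hp]
      have h0 : δ ^ (k + 1 + (n + 1)) ≠ 0 := pow_ne_zero _ hδ
      have e3 : δ ^ (k + 1 + 1 + (n + 1)) = δ ^ (k + 1 + (n + 1)) * δ := by
        rw [← pow_succ]; ring_nf
      have e4 : δ ^ (k + 1 + 1 + n) = δ ^ (k + 1 + (n + 1)) := by
        ring_nf
      rw [e3, e4]
      field_simp
      ring

theorem row : InvStmt := by
  intro k δ hδ
  induction k with
  | zero =>
      rw [zero_add, pow_one]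
      exact base hδ
  | succ k ih =>
      rw [pow_succ', ← mul_assoc, step k hδ]
      exact ih

end Pool.Agent.Helper83.KM.INV
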