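import Pool.Agent.Helper83.KM.Stm

set_option autoImplicit false

namespace Pool.Agent.Helper83.KM.LB

open Finset MeasureTheory Real Pool.Agent.Helper83.KM

/-- the integrand as a power -/
theorem base_eq (k : ℕ) (G₁ G₂ G₃ w : ℝ) :
    w ^ (2 * k + 2) / ((w ^ 2 + G₁) ^ (k + 1) * (w ^ 2 + G₂) ^ (k + 1) * (w ^ 2 + G₃) ^ (k + 1)) =
      (w ^ 2 / ((w ^ 2 + G₁) * (w ^ 2 + G₂) * (w ^ 2 + G₃))) ^ (k + 1) := by
  have : 2 * k + 2 = 2 * (k + 1) := by ring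
  rw [this, pow_mul, div_pow, mul_pow, mul_pow]

theorem base_le {m G₁ G₂ G₃ t : ℝ} (hm : 0 < m) (h1 : m ≤ G₁) (h2 : m ≤ G₂) (h3 : m ≤ G₃)
    (ht : 0 ≤ t) : t / ((t + G₁) * (t + G₂) * (t + G₃)) ≤ 1 / (m * (t + m)) ∧
      t / ((t + G₁) * (t + G₂) * (t + G₃)) ≤ 1 / m ^ 2 := by
  have hp : 0 < t + m := by linarith
  have e1 : (t + m) * (t + m) * (t + m) ≤ (t + G₁) * (t + G₂) * (t + G₃) := by
    apply mul_le_mul (mul_le_mul (by linarith) (by linarith) hp.le (by linarith)) (by linarith)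
      hp.le (mul_nonneg (by linarith) (by linarith))
  have hpos : 0 < (t + G₁) * (t + G₂) * (t + G₃) := lt_of_lt_of_le (by positivity) e1
  constructor
  · rw [div_le_div_iff₀ hpos (by positivity)]
    have e2 : t * (m * (t + m)) ≤ (t + m) * (t + m) * (t + m) := by
      have : t * m ≤ (t + m) * (t + m) := mul_le_mul (by linarith) (by linarith) hm.le hp.le
      calc t * (m * (t + m)) = (t * m) * (t + m) := by ring
        _ ≤ ((t + m) * (t + m)) * (t + m) := mul_le_mul_of_nonneg_right this hp.le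
    linarith
  · rw [div_le_div_iff₀ hpos (by positivity)]
    have e2 : t * m ^ 2 ≤ (t + m) * (t + m) * (t + m) := by
      have e3 : m ^ 2 ≤ (t + m) * (t + m) := by
        rw [sq]; exact mul_le_mul (by linarith) (by linarith) hm.le hp.le
      calc t * m ^ 2 ≤ (t + m) * ((t + m) * (t + m)) :=
            mul_le_mul (by linarith) e3 (by positivity) hp.le
        _ = (t + m) * (t + m) * (t + m) := by ring
    linarith

theorem cube {N t : ℝ} (hN : 0 < N) (h1 : N / 4 ≤ t) (h2 : t ≤ N) :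
    (t + 4 / 3 * N) ^ 3 ≤ 16 * N ^ 2 * t := by
  have e1 : 16 * N ^ 2 * t - (t + 4 / 3 * N) ^ 3 = (t - N / 4) * (N - t) * (t + 21 / 4 * N) +
      N ^ 2 * (209 / 48 * t - 457 / 432 * N) := by ring
  have e2 : 0 ≤ (t - N / 4) * (N - t) * (t + 21 / 4 * N) :=
    mul_nonneg (mul_nonneg (by linarith) (by linarith)) (by linarith)
  have e3 : 0 ≤ N ^ 2 * (209 / 48 * t - 457 / 432 * N) :=
    mul_nonneg (by positivity) (by linarith)
  linarith

theorem integ (k : ℕ) {G₁ G₂ G₃ : ℝ} (h1 : 0 < G₁) (h2 : 0 < G₂) (h3 : 0 < G₃) :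
    Integrable (fun w : ℝ => w ^ (2 * k + 2) /
      ((w ^ 2 + G₁) ^ (k + 1) * (w ^ 2 + G₂) ^ (k + 1) * (w ^ 2 + G₃) ^ (k + 1))) := by
  set m : ℝ := min G₁ (min G₂ G₃) with hm
  have hm0 : 0 < m := lt_min h1 (lt_min h2 h3)
  have m1 : m ≤ G₁ := min_le_left _ _
  have m2 : m ≤ G₂ := (min_le_right _ _).trans (min_le_left _ _)
  have m3 : m ≤ G₃ := (min_le_right _ _).trans (min_le_right _ _)
  have hbd : Integrable (fun w : ℝ => (1 / m ^ 2) ^ k * (1 / m * (1 + 1 / m)) * (1 + w ^ 2)⁻¹) :=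
    integrable_inv_one_add_sq.const_mul _
  refine hbd.mono' ?_ ?_
  · apply Continuous.aestronglyMeasurable
    apply Continuous.div
    · fun_prop
    · fun_prop
    · intro w
      have : 0 ≤ w ^ 2 := sq_nonneg w
      positivity
  · refine Filter.Eventually.of_forall fun w => ?_
    have hw : 0 ≤ w ^ 2 := sq_nonneg w
    rw [base_eq]
    have hb0 : 0 ≤ w ^ 2 / ((w ^ 2 + G₁) * (w ^ 2 + G₂) * (w ^ 2 + G₃)) := by positivity
    rw [Real.norm_of_nonneg (pow_nonneg hb0 _), pow_succ]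
    obtain ⟨b1, b2⟩ := base_le hm0 m1 m2 m3 hw
    have b3 : 1 / (m * (w ^ 2 + m)) ≤ 1 / m * (1 + 1 / m) * (1 + w ^ 2)⁻¹ := by
      have e1 : 1 / m * (1 + 1 / m) * (1 + w ^ 2)⁻¹ - 1 / (m * (w ^ 2 + m)) =
          (m ^ 2 + w ^ 2) / (m ^ 2 * (1 + w ^ 2) * (w ^ 2 + m)) := by
        field_simp
        ring
      have e2 : 0 ≤ (m ^ 2 + w ^ 2) / (m ^ 2 * (1 + w ^ 2) * (w ^ 2 + m)) := by positivity
      linarith
    calc (w ^ 2 / ((w ^ 2 + G₁) * (w ^ 2 + G₂) * (w ^ 2 + G₃))) ^ k *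
          (w ^ 2 / ((w ^ 2 + G₁) * (w ^ 2 + G₂) * (w ^ 2 + G₃)))
        ≤ (1 / m ^ 2) ^ k * (1 / m * (1 + 1 / m) * (1 + w ^ 2)⁻¹) :=
          mul_le_mul (pow_le_pow_left₀ hb0 b2 k) (b1.trans b3) hb0 (by positivity)
      _ = (1 / m ^ 2) ^ k * (1 / m * (1 + 1 / m)) * (1 + w ^ 2)⁻¹ := by ring

theorem row : LbStmt := by
  intro k N G₁ G₂ G₃ hN h1 h2 h3 h1' h2' h3'
  have hint := integ k h1 h2 h3
  have hs : 0 < √N := Real.sqrt_pos.2 hN
  have hss : √N ^ 2 = N := Real.sq_sqrt hN.le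
  have hnn : ∀ w : ℝ, 0 ≤ w ^ (2 * k + 2) /
      ((w ^ 2 + G₁) ^ (k + 1) * (w ^ 2 + G₂) ^ (k + 1) * (w ^ 2 + G₃) ^ (k + 1)) := by
    intro w
    have hw : 0 ≤ w ^ 2 := sq_nonneg w
    rw [base_eq]
    positivity
  have hlow : ∀ w ∈ Set.Icc (√N / 2) √N, (1 / (16 * N ^ 2)) ^ (k + 1) ≤ w ^ (2 * k + 2) /
      ((w ^ 2 + G₁) ^ (k + 1) * (w ^ 2 + G₂) ^ (k + 1) * (w ^ 2 + G₃) ^ (k + 1)) := by
    intro w hw
    have hw0 : 0 < w := lt_of_lt_of_le (by positivity) hw.1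
    have t1 : N / 4 ≤ w ^ 2 := by
      have := mul_self_le_mul_self (by positivity : (0 : ℝ) ≤ √N / 2) hw.1
      nlinarith
    have t2 : w ^ 2 ≤ N := by
      have := mul_self_le_mul_self hw0.le hw.2
      nlinarith
    rw [base_eq]
    apply pow_le_pow_left₀ (by positivity)
    have hpos : 0 < (w ^ 2 + G₁) * (w ^ 2 + G₂) * (w ^ 2 + G₃) := by positivity
    rw [div_le_div_iff₀ (by positivity) hpos, one_mul]
    have e1 : (w ^ 2 + G₁) * (w ^ 2 + G₂) * (w ^ 2 + G₃) ≤ (w ^ 2 + 4 / 3 * N) ^ 3 := by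
      have hq : 0 ≤ w ^ 2 + 4 / 3 * N := by positivity
      calc (w ^ 2 + G₁) * (w ^ 2 + G₂) * (w ^ 2 + G₃) ≤
            (w ^ 2 + 4 / 3 * N) * (w ^ 2 + 4 / 3 * N) * (w ^ 2 + 4 / 3 * N) := by
            apply mul_le_mul (mul_le_mul (by linarith) (by linarith) (by positivity) hq)
              (by linarith) (by positivity) (by positivity)
        _ = (w ^ 2 + 4 / 3 * N) ^ 3 := by ring
    have e2 := cube hN t1 t2
    calc (w ^ 2 + G₁) * (w ^ 2 + G₂) * (w ^ 2 + G₃) ≤ 16 * N ^ 2 * w ^ 2 := e1.trans e2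
      _ = w ^ 2 * (16 * N ^ 2) := by ring
  have h4 := setIntegral_ge_of_const_le (μ := volume) (s := Set.Icc (√N / 2) √N)
    measurableSet_Icc (by rw [Real.volume_Icc]; exact ENNReal.ofReal_ne_top) hlow
    hint.integrableOn
  have h5 := setIntegral_le_integral (s := Set.Icc (√N / 2) √N) hint
    (Filter.Eventually.of_forall hnn)
  rw [Real.volume_real_Icc_of_le (by linarith)] at h4
  rw [smul_eq_mul] at h4
  unfold J
  calc √N / 2 * (1 / (16 * N ^ 2)) ^ (k + 1) = (√N - √N / 2) * (1 / (16 * N ^ 2)) ^ (k + 1) := by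
        ring
    _ ≤ _ := h4.trans h5

end Pool.Agent.Helper83.KM.LB
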