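import Mathlib
import Pool.Agent.Helper83.KM.Stm

namespace Pool.Agent.Helper83.KM.PADE

lemma sq_id {al a B b r s : ℕ} (e1 : a * B + 1 = r * r) (e2 : a * b + 1 = s * s) :
    (al * (r * s)) ^ 2 = (al * a * B + al) * (al * a * b + al) := by
  have h : (al * (r * s)) ^ 2 = al ^ 2 * ((r * r) * (s * s)) := by ring
  rw [h, ← e1, ← e2]
  ring

lemma main_bounds {a1 p q B a : ℕ} (haa : a1 + p + q = a) (ha : 1 ≤ a1) (hp : 1 ≤ p)
    (hq : 1 ≤ q) (hB : a ^ 65 ≤ B) :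
    4 * (a1 * (a1 + p) * a * (p * q * (p + q))) ≤ a ^ 6 ∧
    2 * a ^ 66 ≤ a1 * (a1 + p) * a * B ∧
    a1 * (a1 + p) * a ≤ a ^ 3 ∧
    (a1 + p) * a ≤ a ^ 2 := by
  have hA : a1 * (a1 + p) * a ≤ a ^ 3 := by
    calc a1 * (a1 + p) * a ≤ a * a * a :=
          Nat.mul_le_mul (Nat.mul_le_mul (by omega) (by omega)) le_rfl
      _ = _ := by ring
  refine ⟨?_, ?_, hA, ?_⟩
  · have h1 : 4 * (p * q) ≤ (p + q) ^ 2 := by
      zify
      nlinarith [sq_nonneg ((p : ℤ) - q)]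
    have h2 : p + q ≤ a := by omega
    calc 4 * (a1 * (a1 + p) * a * (p * q * (p + q)))
        = a1 * (a1 + p) * a * (4 * (p * q) * (p + q)) := by ring
      _ ≤ a ^ 3 * ((p + q) ^ 2 * (p + q)) :=
          Nat.mul_le_mul hA (Nat.mul_le_mul h1 le_rfl)
      _ ≤ a ^ 3 * (a ^ 2 * a) :=
          Nat.mul_le_mul le_rfl (Nat.mul_le_mul (Nat.pow_le_pow_left h2 2) h2)
      _ = _ := by ring
  · have h1 : 2 ≤ a1 * (a1 + p) := by
      calc 2 = 1 * 2 := rfl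
        _ ≤ a1 * (a1 + p) := Nat.mul_le_mul ha (by omega)
    calc 2 * a ^ 66 = 2 * a * a ^ 65 := by ring
      _ ≤ _ := Nat.mul_le_mul (Nat.mul_le_mul h1 le_rfl) hB
  · rw [sq]
    exact Nat.mul_le_mul (by omega) le_rfl

lemma arith {a al D N : ℕ} (ha : 3 ≤ a) (hal : al ≤ a ^ 2) (hD : 4 * D ≤ a ^ 6)
    (hN : 2 * a ^ 66 ≤ N) :
    3 * al ≤ N ∧ 64 * D ^ 4 ≤ N ∧ 1024 * D ^ 4 ≤ N ∧ D ^ 2 * al ≤ N ∧
      4 * 1024 ^ 6 * al * D ^ 18 < N ^ 2 := by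
  have hmono : ∀ {i : ℕ}, i ≤ 66 → a ^ i ≤ N := fun {i} hi => by
    have h1 : a ^ i ≤ a ^ 66 := Nat.pow_le_pow_right (by omega) hi
    omega
  have h1024 : 1024 * D ^ 4 ≤ N := by
    calc 1024 * D ^ 4 = 4 * (4 * D) ^ 4 := by ring
      _ ≤ a ^ 2 * (a ^ 6) ^ 4 := by
          refine Nat.mul_le_mul ?_ (Nat.pow_le_pow_left hD 4)
          nlinarith
      _ = a ^ 26 := by ring
      _ ≤ N := hmono (by norm_num)
  refine ⟨?_, ?_, h1024, ?_, ?_⟩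
  · calc 3 * al ≤ a * a ^ 2 := Nat.mul_le_mul ha hal
      _ = a ^ 3 := by ring
      _ ≤ N := hmono (by norm_num)
  · exact le_trans (Nat.mul_le_mul (by norm_num) le_rfl) h1024
  · have hD1 : D ≤ a ^ 6 := by omega
    calc D ^ 2 * al ≤ (a ^ 6) ^ 2 * a ^ 2 := Nat.mul_le_mul (Nat.pow_le_pow_left hD1 2) hal
      _ = a ^ 14 := by ring
      _ ≤ N := hmono (by norm_num)
  · have h3 : 2 ^ 24 < a ^ 22 := lt_of_lt_of_le (by norm_num) (Nat.pow_le_pow_left ha 22)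
    have hpos : 0 < 4 * a ^ 110 := by positivity
    calc 4 * 1024 ^ 6 * al * D ^ 18 = 2 ^ 26 * al * (4 * D) ^ 18 := by ring
      _ ≤ 2 ^ 26 * a ^ 2 * (a ^ 6) ^ 18 :=
          Nat.mul_le_mul (Nat.mul_le_mul le_rfl hal) (Nat.pow_le_pow_left hD 18)
      _ = 2 ^ 24 * (4 * a ^ 110) := by ring
      _ < a ^ 22 * (4 * a ^ 110) := Nat.mul_lt_mul_of_pos_right h3 hpos
      _ = (2 * a ^ 66) ^ 2 := by ring
      _ ≤ N ^ 2 := Nat.pow_le_pow_left hN 2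

lemma last {A al a B b : ℕ} (hApos : 0 < A) (h3 : 3 ≤ a) (hal : al ≤ a ^ 2) (hA : A ≤ a ^ 3)
    (hB : a ^ 65 ≤ B) (hc : A * b ≤ 1024 ^ 5 * al * (A * B) ^ 14) : b ≤ B ^ 16 := by
  have h5 : b ≤ 1024 ^ 5 * al * A ^ 13 * B ^ 14 := by
    have h6 : A * b ≤ A * (1024 ^ 5 * al * A ^ 13 * B ^ 14) := by
      refine hc.trans (le_of_eq ?_)
      rw [mul_pow]
      ring
    exact Nat.le_of_mul_le_mul_left h6 hApos
  refine h5.trans ?_
  have h7 : 1024 ^ 5 ≤ a ^ 32 := le_trans (by norm_num) (Nat.pow_le_pow_left h3 32)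
  have h8 : 1024 ^ 5 * al * A ^ 13 ≤ B ^ 2 := by
    calc 1024 ^ 5 * al * A ^ 13 ≤ a ^ 32 * a ^ 2 * (a ^ 3) ^ 13 :=
          Nat.mul_le_mul (Nat.mul_le_mul h7 hal) (Nat.pow_le_pow_left hA 13)
      _ = a ^ 73 := by ring
      _ ≤ a ^ 130 := Nat.pow_le_pow_right (by omega) (by norm_num)
      _ = (a ^ 65) ^ 2 := by ring
      _ ≤ B ^ 2 := Nat.pow_le_pow_left hB 2
  calc 1024 ^ 5 * al * A ^ 13 * B ^ 14 ≤ B ^ 2 * B ^ 14 := Nat.mul_le_mul h8 le_rfl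
    _ = B ^ 16 := by ring

lemma dvals {a1 p q a : ℕ} (haa : a1 + p + q = a) :
    ((a1 + p) * a - a1 * a) * ((a1 + p) * a - a1 * (a1 + p)) * (a1 * a - a1 * (a1 + p)) =
      a1 * (a1 + p) * a * (p * q * (p + q)) := by
  subst haa
  have d1 : (a1 + p) * (a1 + p + q) - a1 * (a1 + p + q) = p * (a1 + p + q) :=
    Nat.sub_eq_of_eq_add (by ring)
  have d2 : (a1 + p) * (a1 + p + q) - a1 * (a1 + p) = (a1 + p) * (p + q) :=
    Nat.sub_eq_of_eq_add (by ring)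
  have d3 : a1 * (a1 + p + q) - a1 * (a1 + p) = a1 * q :=
    Nat.sub_eq_of_eq_add (by ring)
  rw [d1, d2, d3]
  ring

theorem row (h1 : DichStmt) (h2 : ChainStmt) : PadeStmt := by
  intro a1 a2 a B b ha ha12 ha23 hB hb i1 i2 i3 j1 j2 j3
  obtain ⟨r1, e1⟩ := i1
  obtain ⟨r2, e2⟩ := i2
  obtain ⟨r3, e3⟩ := i3
  obtain ⟨s1, f1⟩ := j1
  obtain ⟨s2, f2⟩ := j2
  obtain ⟨s3, f3⟩ := j3
  obtain ⟨p, rfl⟩ := Nat.exists_eq_add_of_le ha12.le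
  obtain ⟨q, haa⟩ := Nat.exists_eq_add_of_le ha23.le
  have hp : 1 ≤ p := by omega
  have hq : 1 ≤ q := by omega
  obtain ⟨m1, m2, m3, m4⟩ := main_bounds haa.symm ha hp hq hB
  have hD := dvals haa.symm
  have h3 : 3 ≤ a := by omega
  have hapos : 0 < a := by omega
  have hApos : 0 < a1 * (a1 + p) * a := by positivity
  have hDpos : 0 < a1 * (a1 + p) * a * (p * q * (p + q)) := by positivity
  obtain ⟨n1, n2, n3, n4, n5⟩ := arith h3 m4 m1 m2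
  have hd : ∀ k, a1 * (a1 + p) * a * b ≤
      1024 ^ (k + 1) * ((a1 + p) * a) * (a1 * (a1 + p) * a * B) ^ (3 * k + 2) ∨
      (a1 * (a1 + p) * a * B) ^ (4 * k + 3) ≤
        4 * (a1 * (a1 + p) * a * (p * q * (p + q))) ^ (4 * k + 2) *
        (a1 * (a1 + p) * a * b) := by
    intro k
    have h := h1 k ((a1 + p) * a) (a1 * a) (a1 * (a1 + p))
      (a1 * (a1 + p) * a * B) (a1 * (a1 + p) * a * b)
      ((a1 + p) * a * (r1 * s1)) (a1 * a * (r2 * s2))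
      (a1 * (a1 + p) * (r3 * s3)) (by positivity)
      (Nat.mul_lt_mul_of_pos_left ha23 ha) (Nat.mul_lt_mul_of_pos_right ha12 hapos)
      (Nat.mul_pos hApos hb) n1 (by rw [hD]; exact n2) (by rw [hD]; exact n4)
      (by rw [sq_id e1 f1]; ring) (by rw [sq_id e2 f2]; ring) (sq_id e3 f3)
    rw [hD] at h
    exact h
  exact last hApos h3 m4 m3 hB
    (h2 ((a1 + p) * a) (a1 * (a1 + p) * a * B) (a1 * (a1 + p) * a * b) _ (by positivity)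
      hDpos n3 n5 hd)

end Pool.Agent.Helper83.KM.PADE
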