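import Pool.Agent.Helper83.KM.Stm

/-!
# Row PF: the partial fraction expansion
-/

namespace Pool.Agent.Helper83.KM.PF

open Finset Polynomial

/-- The numerator polynomial in the local variable. -/
noncomputable def tau (k : ℕ) (G δ₁ δ₂ : ℝ) : ℝ[X] :=
  ∑ h ∈ range (k + 1), C (dco k G δ₁ δ₂ h) * X ^ (k - h)

lemma tau_coeff (k : ℕ) (G δ₁ δ₂ : ℝ) {n : ℕ} (hn : n < k + 1) :
    (tau k G δ₁ δ₂).coeff n = PowerSeries.coeff n (tser k G δ₁ δ₂) := by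
  unfold tau
  rw [finsetSum_coeff, Finset.sum_eq_single (k - n)]
  · rw [coeff_C_mul_X_pow, if_pos (by omega)]
    unfold dco
    rw [show k - (k - n) = n by omega]
  · intro h hh hne
    rw [coeff_C_mul_X_pow, if_neg]
    rw [mem_range] at hh
    omega
  · intro h
    exfalso
    apply h
    rw [mem_range]
    omega

lemma tau_natDegree (k : ℕ) (G δ₁ δ₂ : ℝ) : (tau k G δ₁ δ₂).natDegree ≤ k := by
  unfold tau
  apply natDegree_sum_le_of_forall_le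
  intro h _
  refine (natDegree_C_mul_X_pow_le _ _).trans ?_
  omega

lemma tser_sub (k : ℕ) (G δ₁ δ₂ : ℝ) :
    (PowerSeries.X : PowerSeries ℝ) ^ (k + 1) ∣
      tser k G δ₁ δ₂ - ((tau k G δ₁ δ₂ : ℝ[X]) : PowerSeries ℝ) := by
  rw [PowerSeries.X_pow_dvd_iff]
  intro m hm
  rw [map_sub, Polynomial.coeff_coe, tau_coeff k G δ₁ δ₂ hm, sub_self]

/-- The polynomial which must vanish to order `k + 1` at the origin. -/
noncomputable def loc (k : ℕ) (G δ₁ δ₂ : ℝ) : ℝ[X] :=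
  (X - C G) ^ (k + 1) - tau k G δ₁ δ₂ * ((X + C δ₁) ^ (k + 1) * (X + C δ₂) ^ (k + 1))

lemma loc_dvd (hinv : InvStmt) (k : ℕ) (G : ℝ) {δ₁ δ₂ : ℝ} (h1 : δ₁ ≠ 0) (h2 : δ₂ ≠ 0) :
    (X : ℝ[X]) ^ (k + 1) ∣ loc k G δ₁ δ₂ := by
  obtain ⟨R, hR⟩ := tser_sub k G δ₁ δ₂
  have e1 := hinv k h1
  have e2 := hinv k h2
  have hcoe : ((loc k G δ₁ δ₂ : ℝ[X]) : PowerSeries ℝ) =
      (PowerSeries.X - PowerSeries.C G) ^ (k + 1) -
        ((tau k G δ₁ δ₂ : ℝ[X]) : PowerSeries ℝ) *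
          ((PowerSeries.X + PowerSeries.C δ₁) ^ (k + 1) *
            (PowerSeries.X + PowerSeries.C δ₂) ^ (k + 1)) := by
    unfold loc
    simp only [Polynomial.coe_sub, Polynomial.coe_mul, Polynomial.coe_pow, Polynomial.coe_X,
      Polynomial.coe_C, Polynomial.coe_add]
  have hmain : ((loc k G δ₁ δ₂ : ℝ[X]) : PowerSeries ℝ) =
      PowerSeries.X ^ (k + 1) * (R * ((PowerSeries.X + PowerSeries.C δ₁) ^ (k + 1) *
            (PowerSeries.X + PowerSeries.C δ₂) ^ (k + 1))) := by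
    have ht : tser k G δ₁ δ₂ * ((PowerSeries.X + PowerSeries.C δ₁) ^ (k + 1) *
            (PowerSeries.X + PowerSeries.C δ₂) ^ (k + 1)) =
        (PowerSeries.X - PowerSeries.C G) ^ (k + 1) := by
      unfold tser
      calc (PowerSeries.X - PowerSeries.C G) ^ (k + 1) * (invPS k δ₁ * invPS k δ₂) *
            ((PowerSeries.X + PowerSeries.C δ₁) ^ (k + 1) *
            (PowerSeries.X + PowerSeries.C δ₂) ^ (k + 1))
          = (PowerSeries.X - PowerSeries.C G) ^ (k + 1) *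
            (invPS k δ₁ * (PowerSeries.X + PowerSeries.C δ₁) ^ (k + 1)) *
            (invPS k δ₂ * (PowerSeries.X + PowerSeries.C δ₂) ^ (k + 1)) := by ring
        _ = (PowerSeries.X - PowerSeries.C G) ^ (k + 1) := by rw [e1, e2, mul_one, mul_one]
    rw [hcoe, ← ht, ← sub_mul, hR]
    ring
  rw [Polynomial.X_pow_dvd_iff]
  intro d hd
  have hdvd : (PowerSeries.X : PowerSeries ℝ) ^ (k + 1) ∣
      ((loc k G δ₁ δ₂ : ℝ[X]) : PowerSeries ℝ) := ⟨_, hmain⟩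
  rw [PowerSeries.X_pow_dvd_iff] at hdvd
  have h := hdvd d hd
  rwa [Polynomial.coeff_coe] at h

/-- The shifted numerator. -/
noncomputable def T (k : ℕ) (G δ₁ δ₂ : ℝ) : ℝ[X] := (tau k G δ₁ δ₂).comp (X + C G)

lemma T_natDegree (k : ℕ) (G δ₁ δ₂ : ℝ) : (T k G δ₁ δ₂).natDegree ≤ k := by
  unfold T
  rw [natDegree_comp, natDegree_X_add_C, mul_one]
  exact tau_natDegree k G δ₁ δ₂

lemma T_eval (k : ℕ) (G δ₁ δ₂ t : ℝ) : (T k G δ₁ δ₂).eval t =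
    ∑ h ∈ range (k + 1), dco k G δ₁ δ₂ h * (t + G) ^ (k - h) := by
  unfold T tau
  rw [eval_comp, eval_finsetSum]
  simp

lemma T_div (k : ℕ) (G δ₁ δ₂ t : ℝ) (ht : t + G ≠ 0) :
    (T k G δ₁ δ₂).eval t / (t + G) ^ (k + 1) =
      ∑ h ∈ range (k + 1), dco k G δ₁ δ₂ h / (t + G) ^ (h + 1) := by
  rw [T_eval, Finset.sum_div]
  apply Finset.sum_congr rfl
  intro h hh
  rw [mem_range] at hh
  have e : (t + G) ^ (k + 1) = (t + G) ^ (k - h) * (t + G) ^ (h + 1) := by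
    rw [← pow_add]
    congr 1
    omega
  rw [e]
  have h0 : (t + G) ^ (k - h) ≠ 0 := pow_ne_zero _ ht
  have h1 : (t + G) ^ (h + 1) ≠ 0 := pow_ne_zero _ ht
  field_simp

lemma T_dvd (hinv : InvStmt) (k : ℕ) {G G' G'' : ℝ} (h1 : G ≠ G') (h2 : G ≠ G'') :
    (X + C G) ^ (k + 1) ∣ X ^ (k + 1) - T k G (G' - G) (G'' - G) *
      ((X + C G') ^ (k + 1) * (X + C G'') ^ (k + 1)) := by
  obtain ⟨Q, hQ⟩ := loc_dvd hinv k G (sub_ne_zero.mpr (Ne.symm h1)) (sub_ne_zero.mpr (Ne.symm h2))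
  refine ⟨Q.comp (X + C G), ?_⟩
  have e := congrArg (fun p : ℝ[X] => p.comp (X + C G)) hQ
  simp only [loc, sub_comp, mul_comp, pow_comp, X_comp, C_comp, add_comp] at e
  have e1 : (X + C G : ℝ[X]) - C G = X := by ring
  have e2 : (X + C G : ℝ[X]) + C (G' - G) = X + C G' := by
    rw [C_sub]
    ring
  have e3 : (X + C G : ℝ[X]) + C (G'' - G) = X + C G'' := by
    rw [C_sub]
    ring
  rw [e1, e2, e3] at e
  exact e

lemma cop {G G' : ℝ} (h : G ≠ G') (k : ℕ) :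
    IsCoprime ((X + C G : ℝ[X]) ^ (k + 1)) ((X + C G') ^ (k + 1)) := by
  apply IsCoprime.pow
  have h0 : G - G' ≠ 0 := sub_ne_zero.mpr h
  refine ⟨C ((G - G')⁻¹), - C ((G - G')⁻¹), ?_⟩
  have : C ((G - G')⁻¹) * (X + C G) + -C ((G - G')⁻¹) * (X + C G') =
      C ((G - G')⁻¹) * (C G - C G') := by ring
  rw [this, ← C_sub, ← C_mul, inv_mul_cancel₀ h0, C_1]

theorem poly_id (hinv : InvStmt) (k : ℕ) {G₁ G₂ G₃ : ℝ} (h12 : G₁ ≠ G₂) (h13 : G₁ ≠ G₃)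
    (h23 : G₂ ≠ G₃) :
    (X : ℝ[X]) ^ (k + 1) =
      T k G₁ (G₂ - G₁) (G₃ - G₁) * ((X + C G₂) ^ (k + 1) * (X + C G₃) ^ (k + 1)) +
      T k G₂ (G₁ - G₂) (G₃ - G₂) * ((X + C G₁) ^ (k + 1) * (X + C G₃) ^ (k + 1)) +
      T k G₃ (G₁ - G₃) (G₂ - G₃) * ((X + C G₁) ^ (k + 1) * (X + C G₂) ^ (k + 1)) := by
  set p₁ : ℝ[X] := (X + C G₁) ^ (k + 1) with hp1
  set p₂ : ℝ[X] := (X + C G₂) ^ (k + 1) with hp2
  set p₃ : ℝ[X] := (X + C G₃) ^ (k + 1) with hp3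
  set T₁ := T k G₁ (G₂ - G₁) (G₃ - G₁) with hT1
  set T₂ := T k G₂ (G₁ - G₂) (G₃ - G₂) with hT2
  set T₃ := T k G₃ (G₁ - G₃) (G₂ - G₃) with hT3
  have d1 : p₁ ∣ X ^ (k + 1) - T₁ * (p₂ * p₃) := T_dvd hinv k h12 h13
  have d2 : p₂ ∣ X ^ (k + 1) - T₂ * (p₁ * p₃) := T_dvd hinv k (Ne.symm h12) h23
  have d3 : p₃ ∣ X ^ (k + 1) - T₃ * (p₁ * p₂) := T_dvd hinv k (Ne.symm h13) (Ne.symm h23)
  set E : ℝ[X] := X ^ (k + 1) - (T₁ * (p₂ * p₃) + T₂ * (p₁ * p₃) + T₃ * (p₁ * p₂)) with hE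
  have c1 : p₁ ∣ E := by
    have : E = (X ^ (k + 1) - T₁ * (p₂ * p₃)) - p₁ * (T₂ * p₃ + T₃ * p₂) := by
      rw [hE]
      ring
    rw [this]
    exact dvd_sub d1 (dvd_mul_right _ _)
  have c2 : p₂ ∣ E := by
    have : E = (X ^ (k + 1) - T₂ * (p₁ * p₃)) - p₂ * (T₁ * p₃ + T₃ * p₁) := by
      rw [hE]
      ring
    rw [this]
    exact dvd_sub d2 (dvd_mul_right _ _)
  have c3 : p₃ ∣ E := by
    have : E = (X ^ (k + 1) - T₃ * (p₁ * p₂)) - p₃ * (T₁ * p₂ + T₂ * p₁) := by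
      rw [hE]
      ring
    rw [this]
    exact dvd_sub d3 (dvd_mul_right _ _)
  have c12 : p₁ * p₂ ∣ E := (cop h12 k).mul_dvd c1 c2
  have c123 : p₁ * p₂ * p₃ ∣ E :=
    (IsCoprime.mul_left (cop h13 k) (cop h23 k)).mul_dvd c12 c3
  have n1 : p₁.natDegree = k + 1 := by
    rw [hp1, natDegree_pow, natDegree_X_add_C, mul_one]
  have n2 : p₂.natDegree = k + 1 := by
    rw [hp2, natDegree_pow, natDegree_X_add_C, mul_one]
  have n3 : p₃.natDegree = k + 1 := by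
    rw [hp3, natDegree_pow, natDegree_X_add_C, mul_one]
  have m1 : p₁.Monic := (monic_X_add_C G₁).pow (k + 1)
  have m2 : p₂.Monic := (monic_X_add_C G₂).pow (k + 1)
  have m3 : p₃.Monic := (monic_X_add_C G₃).pow (k + 1)
  have nd : ∀ (S p q : ℝ[X]), S.natDegree ≤ k → p.natDegree = k + 1 → q.natDegree = k + 1 →
      (S * (p * q)).natDegree ≤ 3 * k + 2 := by
    intro S p q hS hp hq
    have a1 := natDegree_mul_le (p := S) (q := p * q)
    have a2 := natDegree_mul_le (p := p) (q := q)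
    omega
  have nE : E.natDegree ≤ 3 * k + 2 := by
    rw [hE]
    refine (natDegree_sub_le _ _).trans (max_le ?_ ?_)
    · rw [natDegree_X_pow]
      omega
    · refine (natDegree_add_le _ _).trans (max_le ((natDegree_add_le _ _).trans (max_le ?_ ?_)) ?_)
      · exact nd _ _ _ (T_natDegree _ _ _ _) n2 n3
      · exact nd _ _ _ (T_natDegree _ _ _ _) n1 n3
      · exact nd _ _ _ (T_natDegree _ _ _ _) n1 n2
  have hE0 : E = 0 := by
    by_contra hne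
    have hle := natDegree_le_of_dvd c123 hne
    have hm : (p₁ * p₂ * p₃).natDegree = 3 * (k + 1) := by
      rw [(m1.mul m2).natDegree_mul m3, m1.natDegree_mul m2, n1, n2, n3]
      ring
    rw [hm] at hle
    omega
  have := sub_eq_zero.mp (hE ▸ hE0)
  exact this

theorem row (hinv : InvStmt) : PfStmt := by
  intro k G₁ G₂ G₃ h12 h13 h23 t h1 h2 h3
  have e := congrArg (fun p : ℝ[X] => p.eval t) (poly_id hinv k h12 h13 h23)
  simp only [eval_add, eval_mul, eval_pow, eval_X, eval_C] at e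
  rw [← T_div k G₁ _ _ t h1, ← T_div k G₂ _ _ t h2, ← T_div k G₃ _ _ t h3, e]
  have q1 : (t + G₁) ^ (k + 1) ≠ 0 := pow_ne_zero _ h1
  have q2 : (t + G₂) ^ (k + 1) ≠ 0 := pow_ne_zero _ h2
  have q3 : (t + G₃) ^ (k + 1) ≠ 0 := pow_ne_zero _ h3
  field_simp

end Pool.Agent.Helper83.KM.PF
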