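import Pool.Agent.Helper83.KM.Stm

namespace Pool.Agent.Helper83.KM.SEQ

/-- one step of the growth: `a * z ≥ y * x ^ 3` -/
theorem step {a x y z : ℕ} {i j k : ℕ} (ha : 0 < a) (h : y * x ^ 3 ≤ a * z) (hx : a ^ i ≤ x)
    (hy : a ^ j ≤ y) (hk : k + 1 = j + 3 * i) : a ^ k ≤ z := by
  have h1 : a ^ (k + 1) ≤ a * z := by
    calc a ^ (k + 1) = a ^ j * (a ^ i) ^ 3 := by rw [hk, pow_add, ← pow_mul, Nat.mul_comm 3 i]
      _ ≤ y * x ^ 3 := Nat.mul_le_mul hy (Nat.pow_le_pow_left hx 3)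
      _ ≤ a * z := h
  rw [pow_succ, Nat.mul_comm] at h1
  exact Nat.le_of_mul_le_mul_left h1 ha

/-- Row SEQ -/
theorem row (hg : GapStmt) (hp : PadeStmt) : SeqStmt := by
  intro a₁ a₂ a₃ ha ha12 ha23 b hb hb0 h1 h2 h3
  have ha3 : 3 ≤ a₃ := by omega
  have hpos : ∀ i, i ≤ 10 → 0 < b i := by
    intro i
    induction i with
    | zero => intro _; omega
    | succ n ih =>
      intro hn
      have := hb n (by omega)
      have := ih (by omega)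
      omega
  have g : ∀ i, i ≤ 8 → b (i + 1) * b i ^ 3 ≤ a₃ * b (i + 2) := by
    intro i hi
    have h := hg a₁ a₂ a₃ (b i) (b (i + 1)) (b (i + 2)) ha ha12 ha23 (hpos i (by omega))
      (hb i (by omega)) (hb (i + 1) (by omega)) (h1 i (by omega)) (h1 (i + 1) (by omega))
      (h1 (i + 2) (by omega)) (h2 i (by omega)) (h2 (i + 1) (by omega)) (h2 (i + 2) (by omega))
      (h3 i (by omega)) (h3 (i + 1) (by omega)) (h3 (i + 2) (by omega))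
    refine le_trans ?_ h
    apply Nat.mul_le_mul
    · exact Nat.le_mul_of_pos_left _ (by omega)
    · exact Nat.pow_le_pow_left (Nat.le_mul_of_pos_left _ ha) 3
  have ha0 : 0 < a₃ := by omega
  have b0 : a₃ ^ 1 ≤ b 0 := by rw [pow_one]; omega
  have b1 : a₃ ^ 1 ≤ b 1 := by
    rw [pow_one]
    have := hb 0 (by omega)
    simp only [Nat.zero_add] at this
    omega
  have b2 : a₃ ^ 3 ≤ b 2 := step ha0 (g 0 (by omega)) b0 b1 (by norm_num)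
  have b3 : a₃ ^ 5 ≤ b 3 := step ha0 (g 1 (by omega)) b1 b2 (by norm_num)
  have b4 : a₃ ^ 13 ≤ b 4 := step ha0 (g 2 (by omega)) b2 b3 (by norm_num)
  have b5 : a₃ ^ 27 ≤ b 5 := step ha0 (g 3 (by omega)) b3 b4 (by norm_num)
  have b6 : a₃ ^ 65 ≤ b 6 := step ha0 (g 4 (by omega)) b4 b5 (by norm_num)
  have g6 := g 6 (by omega)
  have g7 := g 7 (by omega)
  have g8 := g 8 (by omega)
  simp only [Nat.reduceAdd] at g6 g7 g8
  have h67 : b 6 ≤ b 7 := (hb 6 (by omega)).le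
  obtain ⟨B, hB⟩ : ∃ B, B = b 6 := ⟨_, rfl⟩
  rw [← hB] at b6 g6 h67
  have hBpos : 0 < B := by rw [hB]; exact hpos 6 (by omega)
  have k8 : B ^ 4 ≤ a₃ * b 8 := by
    calc B ^ 4 = B * B ^ 3 := by ring
      _ ≤ b 7 * B ^ 3 := Nat.mul_le_mul_right _ h67
      _ ≤ a₃ * b 8 := g6
  have k9 : B ^ 7 ≤ a₃ ^ 2 * b 9 := by
    calc B ^ 7 = B ^ 4 * B ^ 3 := by ring
      _ ≤ (a₃ * b 8) * b 7 ^ 3 := Nat.mul_le_mul k8 (Nat.pow_le_pow_left h67 3)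
      _ = a₃ * (b 8 * b 7 ^ 3) := by ring
      _ ≤ a₃ * (a₃ * b 9) := Nat.mul_le_mul_left _ g7
      _ = a₃ ^ 2 * b 9 := by ring
  have k10 : B ^ 19 ≤ a₃ ^ 6 * b 10 := by
    calc B ^ 19 = B ^ 7 * (B ^ 4) ^ 3 := by ring
      _ ≤ (a₃ ^ 2 * b 9) * (a₃ * b 8) ^ 3 := Nat.mul_le_mul k9 (Nat.pow_le_pow_left k8 3)
      _ = a₃ ^ 5 * (b 9 * b 8 ^ 3) := by ring
      _ ≤ a₃ ^ 5 * (a₃ * b 10) := Nat.mul_le_mul_left _ g8
      _ = a₃ ^ 6 * b 10 := by ring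
  have hpade : b 10 ≤ B ^ 16 := by
    rw [hB] at b6 ⊢
    exact hp a₁ a₂ a₃ (b 6) (b 10) ha ha12 ha23 b6 (hpos 10 (by omega)) (h1 6 (by omega))
      (h2 6 (by omega)) (h3 6 (by omega)) (h1 10 (by omega)) (h2 10 (by omega))
      (h3 10 (by omega))
  have k11 : B ^ 16 * B ^ 3 ≤ B ^ 16 * a₃ ^ 6 := by
    calc B ^ 16 * B ^ 3 = B ^ 19 := by ring
      _ ≤ a₃ ^ 6 * b 10 := k10
      _ ≤ a₃ ^ 6 * B ^ 16 := Nat.mul_le_mul_left _ hpade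
      _ = B ^ 16 * a₃ ^ 6 := by ring
  have k12 : B ^ 3 ≤ a₃ ^ 6 := Nat.le_of_mul_le_mul_left k11 (pow_pos hBpos 16)
  have k13 : a₃ ^ 195 ≤ a₃ ^ 6 := by
    calc a₃ ^ 195 = (a₃ ^ 65) ^ 3 := by rw [← pow_mul]
      _ ≤ B ^ 3 := Nat.pow_le_pow_left b6 3
      _ ≤ a₃ ^ 6 := k12
  have k14 : a₃ ^ 6 < a₃ ^ 195 := Nat.pow_lt_pow_right (by omega) (by norm_num)
  omega

end Pool.Agent.Helper83.KM.SEQ
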