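import Pool.Agent.Helper83.KM.Stm

/-!
Row SER of the proof that no Diophantine graph contains `K_{13,13}`: the coefficient of `√G` in
the linear form, multiplied by `4 ^ k D ^ (2 k + 1)`, is an integer of controlled size.
-/

namespace Pool.Agent.Helper83.KM.SER

open Finset

/-- The integer `D ^ (2 k + 1) u_n`. -/
def U (k : ℕ) (d₁ d₂ e : ℤ) (n : ℕ) : ℤ :=
  ∑ p ∈ antidiagonal n, (-1) ^ n * (((k + p.1).choose p.1 : ℕ) : ℤ) *
    (((k + p.2).choose p.2 : ℕ) : ℤ) * (d₁ ^ (k - p.1) * d₂ ^ (k - p.2) * e ^ (2 * k + 1))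

theorem choose_conv (k n : ℕ) :
    ∑ p ∈ antidiagonal n, (k + p.1).choose p.1 * (k + p.2).choose p.2 =
      (2 * k + 1 + n).choose n := by
  have h1 := PowerSeries.mk_one_pow_eq_mk_choose_add (S := ℤ) k
  have h2 := PowerSeries.mk_one_pow_eq_mk_choose_add (S := ℤ) (2 * k + 1)
  have h3 : (PowerSeries.mk 1 : PowerSeries ℤ) ^ (2 * k + 1 + 1) =
      (PowerSeries.mk 1 : PowerSeries ℤ) ^ (k + 1) * (PowerSeries.mk 1) ^ (k + 1) := by
    rw [← pow_add]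
    ring_nf
  rw [h2, h1] at h3
  have h4 := congrArg (PowerSeries.coeff n) h3
  rw [PowerSeries.coeff_mul] at h4
  simp only [PowerSeries.coeff_mk] at h4
  have h5 : ((∑ p ∈ antidiagonal n, (k + p.1).choose p.1 * (k + p.2).choose p.2 : ℕ) : ℤ) =
      (((2 * k + 1 + n).choose n : ℕ) : ℤ) := by
    have e1 : (2 * k + 1 + n).choose n = (2 * k + 1 + n).choose (2 * k + 1) := by
      rw [Nat.choose_symm_add]
    rw [e1, h4]
    push_cast
    refine Finset.sum_congr rfl fun p _ => ?_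
    have e2 : (k + p.1).choose p.1 = (k + p.1).choose k := by
      rw [Nat.choose_symm_add]
    have e3 : (k + p.2).choose p.2 = (k + p.2).choose k := by
      rw [Nat.choose_symm_add]
    rw [e2, e3]
  exact_mod_cast h5

theorem coeff_inv (k m : ℕ) (δ : ℝ) :
    PowerSeries.coeff m (invPS k δ) = (-1 : ℝ) ^ m * ((k + m).choose m : ℝ) / δ ^ (k + 1 + m) := by
  rw [invPS, PowerSeries.coeff_mk]

theorem U_eq (k : ℕ) (d₁ d₂ e : ℤ) (h1 : d₁ ≠ 0) (h2 : d₂ ≠ 0) (n : ℕ) (hn : n ≤ k) :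
    (U k d₁ d₂ e n : ℝ) = ((d₁ * d₂ * e : ℤ) : ℝ) ^ (2 * k + 1) *
      PowerSeries.coeff n (invPS k (d₁ : ℝ) * invPS k (d₂ : ℝ)) := by
  rw [PowerSeries.coeff_mul, U]
  push_cast
  rw [Finset.mul_sum]
  refine Finset.sum_congr rfl fun p hp => ?_
  rw [Finset.HasAntidiagonal.mem_antidiagonal] at hp
  rw [coeff_inv, coeff_inv]
  have c1 : (d₁ : ℝ) ≠ 0 := by exact_mod_cast h1
  have c2 : (d₂ : ℝ) ≠ 0 := by exact_mod_cast h2
  have e1 : (d₁ : ℝ) ^ (2 * k + 1) = (d₁ : ℝ) ^ (k - p.1) * (d₁ : ℝ) ^ (k + 1 + p.1) := by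
    rw [← pow_add]
    have : k - p.1 + (k + 1 + p.1) = 2 * k + 1 := by omega
    rw [this]
  have e2 : (d₂ : ℝ) ^ (2 * k + 1) = (d₂ : ℝ) ^ (k - p.2) * (d₂ : ℝ) ^ (k + 1 + p.2) := by
    rw [← pow_add]
    have : k - p.2 + (k + 1 + p.2) = 2 * k + 1 := by omega
    rw [this]
  have e3 : (-1 : ℝ) ^ n = (-1) ^ p.1 * (-1) ^ p.2 := by rw [← pow_add, hp]
  rw [mul_pow, mul_pow, e1, e2, e3]
  have c3 : (d₁ : ℝ) ^ (k + 1 + p.1) ≠ 0 := pow_ne_zero _ c1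
  have c4 : (d₂ : ℝ) ^ (k + 1 + p.2) ≠ 0 := pow_ne_zero _ c2
  field_simp

theorem one_le_abs_of_ne {x : ℤ} (hx : x ≠ 0) : (1 : ℤ) ≤ |x| := Int.one_le_abs hx

theorem U_le (k : ℕ) (d₁ d₂ e : ℤ) (h1 : d₁ ≠ 0) (h2 : d₂ ≠ 0) (n : ℕ)
    (hn : n ≤ k) :
    |U k d₁ d₂ e n| ≤ |d₁ * d₂ * e| ^ (2 * k + 1) * 2 ^ (3 * k + 1) := by
  have b : ∀ p ∈ antidiagonal n,
      |(-1 : ℤ) ^ n * (((k + p.1).choose p.1 : ℕ) : ℤ) * (((k + p.2).choose p.2 : ℕ) : ℤ) *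
        (d₁ ^ (k - p.1) * d₂ ^ (k - p.2) * e ^ (2 * k + 1))| ≤
      (((k + p.1).choose p.1 * (k + p.2).choose p.2 : ℕ) : ℤ) *
        |d₁ * d₂ * e| ^ (2 * k + 1) := by
    intro p _
    have g1 : |d₁| ^ (k - p.1) ≤ |d₁| ^ (2 * k + 1) :=
      pow_le_pow_right₀ (one_le_abs_of_ne h1) (by omega)
    have g2 : |d₂| ^ (k - p.2) ≤ |d₂| ^ (2 * k + 1) :=
      pow_le_pow_right₀ (one_le_abs_of_ne h2) (by omega)
    rw [abs_mul, abs_mul, abs_mul, abs_pow, abs_neg, abs_one, one_pow, one_mul, Nat.abs_cast,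
      Nat.abs_cast, Nat.cast_mul]
    refine mul_le_mul_of_nonneg_left ?_ (by positivity)
    rw [abs_mul, abs_mul, abs_mul, abs_mul, abs_pow, abs_pow, abs_pow, mul_pow, mul_pow]
    gcongr
  calc |U k d₁ d₂ e n| ≤ ∑ p ∈ antidiagonal n,
        |(-1 : ℤ) ^ n * (((k + p.1).choose p.1 : ℕ) : ℤ) * (((k + p.2).choose p.2 : ℕ) : ℤ) *
          (d₁ ^ (k - p.1) * d₂ ^ (k - p.2) * e ^ (2 * k + 1))| := Finset.abs_sum_le_sum_abs _ _
    _ ≤ ∑ p ∈ antidiagonal n, (((k + p.1).choose p.1 * (k + p.2).choose p.2 : ℕ) : ℤ) *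
        |d₁ * d₂ * e| ^ (2 * k + 1) := Finset.sum_le_sum b
    _ = (((2 * k + 1 + n).choose n : ℕ) : ℤ) * |d₁ * d₂ * e| ^ (2 * k + 1) := by
        rw [← Finset.sum_mul, ← choose_conv]
        push_cast
        rfl
    _ ≤ |d₁ * d₂ * e| ^ (2 * k + 1) * 2 ^ (3 * k + 1) := by
        rw [mul_comm]
        refine mul_le_mul_of_nonneg_left ?_ (by positivity)
        have q1 : (2 * k + 1 + n).choose n ≤ 2 ^ (2 * k + 1 + n) := Nat.choose_le_two_pow _ _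
        have q2 : 2 ^ (2 * k + 1 + n) ≤ 2 ^ (3 * k + 1) :=
          Nat.pow_le_pow_right (by norm_num) (by omega)
        exact_mod_cast q1.trans q2

theorem coeff_sub_pow (k m : ℕ) (G : ℝ) :
    PowerSeries.coeff m ((PowerSeries.X - PowerSeries.C G) ^ (k + 1)) =
      (-G) ^ (k + 1 - m) * ((k + 1).choose m : ℝ) := by
  have h : ((PowerSeries.X - PowerSeries.C G) ^ (k + 1) : PowerSeries ℝ) =
      (((Polynomial.X - Polynomial.C G) ^ (k + 1) : Polynomial ℝ) : PowerSeries ℝ) := by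
    simp
  rw [h, Polynomial.coeff_coe, sub_eq_add_neg, ← Polynomial.C_neg, Polynomial.coeff_X_add_C_pow]

theorem dco_eq (k : ℕ) (G δ₁ δ₂ : ℝ) (hG : G ≠ 0) (h : ℕ) (hh : h ≤ k) :
    dco k G δ₁ δ₂ h / G ^ (h + 1) = ∑ p ∈ antidiagonal (k - h),
      ((k + 1).choose p.1 : ℝ) * (-1) ^ (k + 1 - p.1) * G ^ p.2 *
        PowerSeries.coeff p.2 (invPS k δ₁ * invPS k δ₂) := by
  rw [dco, tser, PowerSeries.coeff_mul, Finset.sum_div]
  refine Finset.sum_congr rfl fun p hp => ?_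
  rw [Finset.HasAntidiagonal.mem_antidiagonal] at hp
  rw [coeff_sub_pow, neg_pow]
  have e1 : G ^ (k + 1 - p.1) = G ^ p.2 * G ^ (h + 1) := by
    rw [← pow_add]
    have : p.2 + (h + 1) = k + 1 - p.1 := by omega
    rw [this]
  rw [e1]
  have c : G ^ (h + 1) ≠ 0 := pow_ne_zero _ hG
  field_simp

/-- The integer of the row. -/
def Pint (k : ℕ) (G d₁ d₂ e : ℤ) : ℤ :=
  ∑ h ∈ range (k + 1), 4 ^ (k - h) * (((2 * h).choose h : ℕ) : ℤ) *
    ∑ p ∈ antidiagonal (k - h),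
      (((k + 1).choose p.1 : ℕ) : ℤ) * (-1) ^ (k + 1 - p.1) * G ^ p.2 * U k d₁ d₂ e p.2

theorem Pint_eq (k : ℕ) (G d₁ d₂ e : ℤ) (hG : 0 < G) (h1 : d₁ ≠ 0) (h2 : d₂ ≠ 0) :
    (Pint k G d₁ d₂ e : ℝ) =
      4 ^ k * ((d₁ * d₂ * e : ℤ) : ℝ) ^ (2 * k + 1) * qsum k G d₁ d₂ := by
  have cG : (G : ℝ) ≠ 0 := by exact_mod_cast hG.ne'
  rw [Pint, qsum, Finset.mul_sum, Int.cast_sum]
  refine Finset.sum_congr rfl fun h hh => ?_
  rw [Finset.mem_range] at hh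
  have hk : h ≤ k := by omega
  have e0 : dco k (G : ℝ) (d₁ : ℝ) (d₂ : ℝ) h * (((2 * h).choose h : ℝ) / 4 ^ h) /
      (G : ℝ) ^ (h + 1) =
      (dco k (G : ℝ) (d₁ : ℝ) (d₂ : ℝ) h / (G : ℝ) ^ (h + 1)) *
        (((2 * h).choose h : ℝ) / 4 ^ h) := by ring
  rw [e0, dco_eq k _ _ _ cG h hk]
  have e4 : (4 : ℝ) ^ k = 4 ^ (k - h) * 4 ^ h := by
    rw [← pow_add]
    have : k - h + h = k := by omega
    rw [this]
  have e5 : ((∑ p ∈ antidiagonal (k - h),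
      (((k + 1).choose p.1 : ℕ) : ℤ) * (-1) ^ (k + 1 - p.1) * G ^ p.2 *
        U k d₁ d₂ e p.2 : ℤ) : ℝ) =
      ((d₁ * d₂ * e : ℤ) : ℝ) ^ (2 * k + 1) * ∑ p ∈ antidiagonal (k - h),
      ((k + 1).choose p.1 : ℝ) * (-1) ^ (k + 1 - p.1) * (G : ℝ) ^ p.2 *
        PowerSeries.coeff p.2 (invPS k (d₁ : ℝ) * invPS k (d₂ : ℝ)) := by
    rw [Int.cast_sum, Finset.mul_sum]
    refine Finset.sum_congr rfl fun p hp => ?_
    rw [Finset.HasAntidiagonal.mem_antidiagonal] at hp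
    rw [Int.cast_mul, U_eq k d₁ d₂ e h1 h2 p.2 (by omega)]
    push_cast
    ring
  rw [Int.cast_mul, e5, e4]
  push_cast
  have c4 : (4 : ℝ) ^ h ≠ 0 := pow_ne_zero _ (by norm_num)
  field_simp

theorem sum_choose_le (k n : ℕ) (hn : n ≤ k) :
    ∑ p ∈ antidiagonal n, (k + 1).choose p.1 ≤ 2 ^ (k + 1) := by
  rw [Finset.Nat.sum_antidiagonal_eq_sum_range_succ (fun i _ => (k + 1).choose i) n]
  calc ∑ i ∈ range n.succ, (k + 1).choose i ≤ ∑ i ∈ range (k + 1 + 1), (k + 1).choose i := by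
        refine Finset.sum_le_sum_of_subset ?_
        intro i hi
        rw [Finset.mem_range] at hi ⊢
        omega
    _ = 2 ^ (k + 1) := Nat.sum_range_choose (k + 1)

theorem Pint_le (k : ℕ) (G d₁ d₂ e : ℤ) (hG : 0 < G) (h1 : d₁ ≠ 0) (h2 : d₂ ≠ 0) :
    |Pint k G d₁ d₂ e| ≤ 4 * (k + 1) * |d₁ * d₂ * e| *
      (64 * (d₁ * d₂ * e) ^ 2 * G) ^ k := by
  have inner : ∀ h ∈ range (k + 1),
      |(4 : ℤ) ^ (k - h) * (((2 * h).choose h : ℕ) : ℤ) * ∑ p ∈ antidiagonal (k - h),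
        (((k + 1).choose p.1 : ℕ) : ℤ) * (-1) ^ (k + 1 - p.1) * G ^ p.2 * U k d₁ d₂ e p.2| ≤
      4 ^ k * (2 ^ (k + 1) * (G ^ k * (|d₁ * d₂ * e| ^ (2 * k + 1) * 2 ^ (3 * k + 1)))) := by
    intro h hh
    rw [Finset.mem_range] at hh
    have hk : h ≤ k := by omega
    have a1 : (((2 * h).choose h : ℕ) : ℤ) ≤ 4 ^ h := by
      have q := Nat.choose_le_two_pow (2 * h) h
      rw [pow_mul] at q
      exact_mod_cast q
    have a2 : |∑ p ∈ antidiagonal (k - h),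
        (((k + 1).choose p.1 : ℕ) : ℤ) * (-1) ^ (k + 1 - p.1) * G ^ p.2 * U k d₁ d₂ e p.2| ≤
        2 ^ (k + 1) * (G ^ k * (|d₁ * d₂ * e| ^ (2 * k + 1) * 2 ^ (3 * k + 1))) := by
      calc _ ≤ ∑ p ∈ antidiagonal (k - h), |(((k + 1).choose p.1 : ℕ) : ℤ) *
            (-1) ^ (k + 1 - p.1) * G ^ p.2 * U k d₁ d₂ e p.2| := Finset.abs_sum_le_sum_abs _ _
        _ ≤ ∑ p ∈ antidiagonal (k - h), (((k + 1).choose p.1 : ℕ) : ℤ) *
            (G ^ k * (|d₁ * d₂ * e| ^ (2 * k + 1) * 2 ^ (3 * k + 1))) := by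
            refine Finset.sum_le_sum fun p hp => ?_
            rw [Finset.HasAntidiagonal.mem_antidiagonal] at hp
            have b1 := U_le k d₁ d₂ e h1 h2 p.2 (by omega)
            have b2 : G ^ p.2 ≤ G ^ k := pow_le_pow_right₀ (by omega) (by omega)
            rw [abs_mul, abs_mul, abs_mul, abs_pow, abs_neg, abs_one, one_pow, mul_one,
              Nat.abs_cast, abs_of_pos (pow_pos hG p.2), mul_assoc]
            refine mul_le_mul_of_nonneg_left ?_ (by positivity)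
            exact mul_le_mul b2 b1 (abs_nonneg _) (pow_pos hG k).le
        _ = ((∑ p ∈ antidiagonal (k - h), (k + 1).choose p.1 : ℕ) : ℤ) *
            (G ^ k * (|d₁ * d₂ * e| ^ (2 * k + 1) * 2 ^ (3 * k + 1))) := by
            rw [← Finset.sum_mul]
            push_cast
            rfl
        _ ≤ 2 ^ (k + 1) * (G ^ k * (|d₁ * d₂ * e| ^ (2 * k + 1) * 2 ^ (3 * k + 1))) := by
            have b3 := sum_choose_le k (k - h) (by omega)
            refine mul_le_mul_of_nonneg_right ?_ (by positivity)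
            exact_mod_cast b3
    rw [abs_mul, abs_mul, abs_pow, Nat.abs_cast]
    have a3 : |(4 : ℤ)| ^ (k - h) * (((2 * h).choose h : ℕ) : ℤ) ≤ 4 ^ k := by
      calc |(4 : ℤ)| ^ (k - h) * (((2 * h).choose h : ℕ) : ℤ) ≤ 4 ^ (k - h) * 4 ^ h := by
            rw [abs_of_pos (by norm_num : (0 : ℤ) < 4)]
            exact mul_le_mul_of_nonneg_left a1 (by positivity)
        _ = 4 ^ k := by
            rw [← pow_add]
            have : k - h + h = k := by omega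
            rw [this]
    exact mul_le_mul a3 a2 (abs_nonneg _) (by positivity)
  calc |Pint k G d₁ d₂ e| ≤ ∑ h ∈ range (k + 1),
        |(4 : ℤ) ^ (k - h) * (((2 * h).choose h : ℕ) : ℤ) * ∑ p ∈ antidiagonal (k - h),
          (((k + 1).choose p.1 : ℕ) : ℤ) * (-1) ^ (k + 1 - p.1) * G ^ p.2 *
            U k d₁ d₂ e p.2| := Finset.abs_sum_le_sum_abs _ _
    _ ≤ ∑ _h ∈ range (k + 1),
        4 ^ k * (2 ^ (k + 1) * (G ^ k * (|d₁ * d₂ * e| ^ (2 * k + 1) * 2 ^ (3 * k + 1)))) :=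
        Finset.sum_le_sum inner
    _ = 4 * (k + 1) * |d₁ * d₂ * e| * (64 * (d₁ * d₂ * e) ^ 2 * G) ^ k := by
        rw [Finset.sum_const, Finset.card_range, nsmul_eq_mul, mul_pow, mul_pow, ← sq_abs]
        have f1 : |d₁ * d₂ * e| ^ (2 * k + 1) = |d₁ * d₂ * e| * (|d₁ * d₂ * e| ^ 2) ^ k := by
          rw [← pow_mul, pow_succ]
          ring
        have f2 : (2 : ℤ) ^ (3 * k + 1) = 2 * 8 ^ k := by
          rw [pow_succ, pow_mul]
          norm_num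
          ring
        have f3 : (64 : ℤ) ^ k = 4 ^ k * 2 ^ k * 8 ^ k := by
          rw [← mul_pow, ← mul_pow]
          norm_num
        rw [f1, f2, f3]
        push_cast
        ring

/-- Row SER. -/
theorem row : SerStmt := by
  intro k G δ₁ δ₂ e hG h1 h2 _
  refine ⟨Pint k G δ₁ δ₂ e, Pint_eq k G δ₁ δ₂ e hG h1 h2, ?_⟩
  have h := Pint_le k G δ₁ δ₂ e hG h1 h2
  have h' : ((|Pint k G δ₁ δ₂ e| : ℤ) : ℝ) ≤ ((4 * (k + 1) * |δ₁ * δ₂ * e| *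
      (64 * (δ₁ * δ₂ * e) ^ 2 * G) ^ k : ℤ) : ℝ) := by exact_mod_cast h
  push_cast at h' ⊢
  exact h'

end Pool.Agent.Helper83.KM.SER
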