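import Pool.Agent.Helper83.KM.Stm

namespace Pool.Agent.Helper83.KM.SETS

/-- the core: two increasing lists of 13 numbers -/
theorem core (hs : SeqStmt) (a b : Fin 13 → ℕ) (ha : StrictMono a) (hb : StrictMono b)
    (ha0 : 0 < a 0) (hlt : a 2 < b 2) (h : ∀ i j, IsSquare (a i * b j + 1)) : False := by
  refine hs (a 0) (a 1) (a 2) ha0 (ha (by decide)) (ha (by decide))
    (fun i => b ⟨min (2 + i) 12, by omega⟩) ?_ ?_ ?_ ?_ ?_
  · intro i hi
    apply hb
    rw [Fin.mk_lt_mk]
    omega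
  · exact hlt
  · intro i _; exact h _ _
  · intro i _; exact h _ _
  · intro i _; exact h _ _

theorem not_sq {a : ℕ} (ha : 0 < a) : ¬ IsSquare (a * a + 1) := by
  rintro ⟨r, hr⟩
  have h1 : a < r := by
    by_contra h
    have h2 : r * r ≤ a * a := Nat.mul_le_mul (by omega) (by omega)
    omega
  have h3 : (a + 1) * (a + 1) ≤ r * r := Nat.mul_le_mul h1 h1
  have h4 : (a + 1) * (a + 1) = a * a + 2 * a + 1 := by ring
  omega

/-- Row SETS -/
theorem row (hs : SeqStmt) : SetsStmt := by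
  intro A B hA hB h
  by_contra hc
  rw [not_or, not_le, not_le] at hc
  obtain ⟨A', hA', cA⟩ := Finset.exists_subset_card_eq (show 13 ≤ A.card by omega)
  obtain ⟨B', hB', cB⟩ := Finset.exists_subset_card_eq (show 13 ≤ B.card by omega)
  have ma : ∀ i, A'.orderEmbOfFin cA i ∈ A := fun i => hA' (Finset.orderEmbOfFin_mem A' cA i)
  have mb : ∀ i, B'.orderEmbOfFin cB i ∈ B := fun i => hB' (Finset.orderEmbOfFin_mem B' cB i)
  rcases lt_trichotomy (A'.orderEmbOfFin cA 2) (B'.orderEmbOfFin cB 2) with h1 | h1 | h1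
  · exact core hs _ _ (A'.orderEmbOfFin cA).strictMono (B'.orderEmbOfFin cB).strictMono
      (hA _ (ma 0)) h1 (fun i j => h _ (ma i) _ (mb j))
  · have h2 := h _ (ma 2) _ (mb 2)
    rw [h1] at h2
    exact not_sq (hB _ (mb 2)) h2
  · exact core hs _ _ (B'.orderEmbOfFin cB).strictMono (A'.orderEmbOfFin cA).strictMono
      (hB _ (mb 0)) h1 (fun i j => by rw [Nat.mul_comm]; exact h _ (ma j) _ (mb i))

end Pool.Agent.Helper83.KM.SETS
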