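import Mathlib
import Pool.Agent.Helper83.KM.Stm2

namespace Pool.Agent.Helper83.KM

namespace Triple

theorem row (hSeq : SeqStmt) : TripleStmt := by
  intro a₁ a₂ a₃ ha ha12 ha23 S hS
  by_contra hcard
  obtain ⟨T, hTS, hT⟩ := Finset.exists_subset_card_eq (show 11 ≤ S.card by omega)
  let f := T.orderEmbOfFin hT
  have hf : ∀ i, (f i) ∈ S := fun i => hTS (T.orderEmbOfFin_mem hT i)
  refine hSeq a₁ a₂ a₃ ha ha12 ha23 (fun i => if h : i < 11 then f ⟨i, h⟩ else 0) ?_ ?_ ?_ ?_ ?_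
  · intro i hi
    have h1 : i < 11 := by omega
    have h2 : i + 1 < 11 := by omega
    simp only [h1, h2, dite_true]
    apply f.strictMono
    simp [Fin.lt_def]
  · simpa using (hS _ (hf ⟨0, by norm_num⟩)).1
  · intro i hi
    simp only [hi, dite_true]
    exact (hS _ (hf ⟨i, hi⟩)).2.1
  · intro i hi
    simp only [hi, dite_true]
    exact (hS _ (hf ⟨i, hi⟩)).2.2.1
  · intro i hi
    simp only [hi, dite_true]
    exact (hS _ (hf ⟨i, hi⟩)).2.2.2

end Triple

end Pool.Agent.Helper83.KM
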