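import Pool.Agent.Helper83.KM.Stm

set_option autoImplicit false

namespace Pool.Agent.Helper83.KM.UB

open Finset MeasureTheory Real

theorem base1 (t N : ℝ) (ht : 0 ≤ t) (hN : 0 < N) : t / (t + N) ^ 3 ≤ 4 / (27 * N ^ 2) := by
  rw [div_le_div_iff₀ (by positivity) (by positivity)]
  nlinarith [mul_nonneg (sq_nonneg (2 * t - N)) (by linarith : (0 : ℝ) ≤ t + 4 * N)]

theorem base2 (t N : ℝ) (ht : 0 ≤ t) (hN : 0 < N) :
    t / (t + N) ^ 3 ≤ 1 / N * (1 / (t + N)) := by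
  have h0 : 0 < t + N := by linarith
  have e : 1 / N * (1 / (t + N)) = 1 / (N * (t + N)) := by
    rw [div_mul_div_comm, one_mul]
  rw [e, div_le_div_iff₀ (by positivity) (by positivity)]
  have h1 : t * N ≤ (t + N) ^ 2 := by nlinarith [sq_nonneg t, sq_nonneg N, mul_nonneg ht hN.le]
  have h3 := mul_le_mul_of_nonneg_right h1 h0.le
  nlinarith [h3]

theorem base0 (t N G₁ G₂ G₃ : ℝ) (ht : 0 ≤ t) (hN : 0 < N) (h1 : N ≤ G₁) (h2 : N ≤ G₂)
    (h3 : N ≤ G₃) : t / ((t + G₁) * (t + G₂) * (t + G₃)) ≤ t / (t + N) ^ 3 := by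
  have h0 : 0 < t + N := by linarith
  have e : (t + N) ^ 3 = (t + N) * (t + N) * (t + N) := by ring
  apply div_le_div_of_nonneg_left ht (by positivity)
  rw [e]
  have g1 : 0 ≤ t + G₁ := by linarith
  have g2 : 0 ≤ t + G₂ := by linarith
  have g12 : 0 ≤ (t + G₁) * (t + G₂) := mul_nonneg g1 g2
  gcongr

theorem int0 (N : ℝ) (hN : 0 < N) :
    Integrable (fun w : ℝ => 1 / (w ^ 2 + N)) ∧ ∫ w : ℝ, 1 / (w ^ 2 + N) = π / √N := by
  have hs : 0 < √N := Real.sqrt_pos.2 hN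
  have e : (fun w : ℝ => 1 / (w ^ 2 + N)) = fun w : ℝ => N⁻¹ * (1 + ((√N)⁻¹ * w) ^ 2)⁻¹ := by
    funext w
    have h2 : (√N) ^ 2 = N := Real.sq_sqrt hN.le
    have h3 : (1 : ℝ) + ((√N)⁻¹ * w) ^ 2 = (w ^ 2 + N) / N := by
      rw [mul_pow, inv_pow, h2]
      field_simp
      ring
    rw [h3, inv_div, one_div]
    have h4 : w ^ 2 + N ≠ 0 := by positivity
    field_simp
  constructor
  · rw [e]
    exact (integrable_inv_one_add_sq.comp_mul_left' (inv_ne_zero hs.ne')).const_mul _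
  · rw [e, integral_const_mul,
      MeasureTheory.Measure.integral_comp_mul_left (fun x : ℝ => (1 + x ^ 2)⁻¹) ((√N)⁻¹),
      integral_univ_inv_one_add_sq, inv_inv, abs_of_pos hs, smul_eq_mul]
    have h2 : (√N) * (√N) = N := Real.mul_self_sqrt hN.le
    field_simp
    nlinarith [h2]

theorem pt (k : ℕ) (N G₁ G₂ G₃ w : ℝ) (hN : 0 < N) (h1 : N ≤ G₁) (h2 : N ≤ G₂) (h3 : N ≤ G₃) :
    w ^ (2 * k + 2) /
      ((w ^ 2 + G₁) ^ (k + 1) * (w ^ 2 + G₂) ^ (k + 1) * (w ^ 2 + G₃) ^ (k + 1)) ≤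
    (4 / (27 * N ^ 2)) ^ k * (1 / N) * (1 / (w ^ 2 + N)) := by
  have ht : 0 ≤ w ^ 2 := sq_nonneg w
  have g1 : 0 < w ^ 2 + G₁ := by linarith
  have g2 : 0 < w ^ 2 + G₂ := by linarith
  have g3 : 0 < w ^ 2 + G₃ := by linarith
  set b : ℝ := w ^ 2 / ((w ^ 2 + G₁) * (w ^ 2 + G₂) * (w ^ 2 + G₃)) with hb
  have hb0 : 0 ≤ b := by positivity
  have e : w ^ (2 * k + 2) /
      ((w ^ 2 + G₁) ^ (k + 1) * (w ^ 2 + G₂) ^ (k + 1) * (w ^ 2 + G₃) ^ (k + 1)) =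
      b ^ k * b := by
    rw [← pow_succ, hb, div_pow, ← pow_mul, mul_pow, mul_pow]
    ring_nf
  rw [e]
  have hbN := base0 (w ^ 2) N G₁ G₂ G₃ ht hN h1 h2 h3
  have hb1 : b ≤ 4 / (27 * N ^ 2) := hbN.trans (base1 (w ^ 2) N ht hN)
  have hb2 : b ≤ 1 / N * (1 / (w ^ 2 + N)) := hbN.trans (base2 (w ^ 2) N ht hN)
  rw [mul_assoc]
  exact mul_le_mul (pow_le_pow_left₀ hb0 hb1 k) hb2 hb0 (by positivity)

theorem row : UbStmt := by
  intro k N G₁ G₂ G₃ hN h1 h2 h3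
  have hs : 0 < √N := Real.sqrt_pos.2 hN
  obtain ⟨hi, hv⟩ := int0 N hN
  unfold J
  have h := integral_mono_of_nonneg (μ := volume)
    (f := fun w : ℝ => w ^ (2 * k + 2) /
      ((w ^ 2 + G₁) ^ (k + 1) * (w ^ 2 + G₂) ^ (k + 1) * (w ^ 2 + G₃) ^ (k + 1)))
    (g := fun w : ℝ => (4 / (27 * N ^ 2)) ^ k * (1 / N) * (1 / (w ^ 2 + N)))
    (Filter.Eventually.of_forall (fun w => by
      have g1 : 0 < w ^ 2 + G₁ := by nlinarith [sq_nonneg w]
      have g2 : 0 < w ^ 2 + G₂ := by nlinarith [sq_nonneg w]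
      have g3 : 0 < w ^ 2 + G₃ := by nlinarith [sq_nonneg w]
      have g0 : 0 ≤ w ^ (2 * k + 2) := by
        have : w ^ (2 * k + 2) = (w ^ (k + 1)) ^ 2 := by rw [← pow_mul]; ring_nf
        rw [this]; exact sq_nonneg _
      show (0 : ℝ) ≤ _
      positivity))
    (hi.const_mul _)
    (Filter.Eventually.of_forall (fun w => pt k N G₁ G₂ G₃ w hN h1 h2 h3))
  refine h.trans (le_of_eq ?_)
  rw [integral_const_mul, hv]
  field_simp

end Pool.Agent.Helper83.KM.UB
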