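import Pool.Agent.Helper56.DioDefs
import Pool.Agent.Helper83.KM.Stm
import Pool.Agent.Helper83.KM.Stm2
import Pool.Agent.Helper83.KM.RowGAP
import Pool.Agent.Helper83.KM.RowINV
import Pool.Agent.Helper83.KM.RowPF
import Pool.Agent.Helper83.KM.RowINTEG
import Pool.Agent.Helper83.KM.RowSER
import Pool.Agent.Helper83.KM.RowFORM
import Pool.Agent.Helper83.KM.RowUB
import Pool.Agent.Helper83.KM.RowLB
import Pool.Agent.Helper83.KM.RowDICHA
import Pool.Agent.Helper83.KM.RowDich
import Pool.Agent.Helper83.KM.RowCHAIN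
import Pool.Agent.Helper83.KM.RowPADE
import Pool.Agent.Helper83.KM.RowSEQ
import Pool.Agent.Helper83.KM.RowSETS
import Pool.Agent.Helper83.KM.RowGRAPH
import Pool.Agent.Helper83.KM.RowTriple
import Pool.Agent.Helper83.KM.RowEdge
import Pool.Agent.Helper83.KM.RowDioEdge

/-!
# Assembly: complete bipartite subgraphs of Diophantine graphs
-/

namespace Pool.Agent.Helper83.KM.Main

theorem pade : PadeStmt :=
  PADE.row (Dich.row (FORM.row (PF.row INV.row) INTEG.row SER.row) UB.row LB.row DICHA.row)
    CHAIN.row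

theorem seq : SeqStmt := SEQ.row GAP.row pade

theorem triple : TripleStmt := Triple.row seq

theorem sets : SetsStmt := SETS.row seq

theorem graph : GraphStmt := GRAPH.row sets

theorem edge : DioEdge.DioEdgeStmt := DioEdge.row triple Edge.row

end Pool.Agent.Helper83.KM.Main
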