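import Pool.Agent.Helper75.KM.StmtsC

/-!
# FIN: the maximal inequality from the patches
-/

set_option autoImplicit false

namespace Pool.Agent.Helper75.KM

open Pool.Agent.Helper8.Kak Pool.Agent.Helper89.KakGeo
open MeasureTheory
open scoped ENNReal

/-- the part of the sphere over a direction cell -/
def fin_S {m : ℕ} (N : ℕ) (i : Fin (m + 1)) (u : Fin m → ℤ) :
    Set (Metric.sphere (0 : EE (m + 1)) 1) := {w | (w : EE (m + 1)) ∈ patch N i u}

lemma fin_meas {m : ℕ} (N : ℕ) (i : Fin (m + 1)) (u : Fin m → ℤ) :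
    MeasurableSet (fin_S N i u) := by
  have hc : ∀ j : Fin (m + 1), Measurable (fun ω : EE (m + 1) => ω j) := by
    intro j
    have : Continuous (fun ω : EE (m + 1) => ω j) := by fun_prop
    exact this.measurable
  have h : MeasurableSet (patch (m := m) N i u) := by
    have h1 : MeasurableSet {ω : EE (m + 1) | ‖ω‖ = 1} :=
      measurableSet_eq_fun continuous_norm.measurable measurable_const
    have h2 : MeasurableSet {ω : EE (m + 1) | ∀ j, |ω j| ≤ |ω i|} := by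
      rw [Set.ofPred_forall]
      refine MeasurableSet.iInter fun j => ?_
      exact measurableSet_le ((continuous_abs.measurable).comp (hc j))
        ((continuous_abs.measurable).comp (hc i))
    have h3 : MeasurableSet {ω : EE (m + 1) | ∀ k, ⌊slope ω i k * 2 ^ N⌋ = u k} := by
      rw [Set.ofPred_forall]
      refine MeasurableSet.iInter fun k => ?_
      have hm : Measurable (fun ω : EE (m + 1) => slope ω i k * 2 ^ N) := by
        have hd : Measurable (fun ω : EE (m + 1) => ω (i.succAbove k) / ω i) :=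
          Measurable.div (hc _) (hc _)
        exact Measurable.mul_const hd _
      exact measurableSet_eq_fun (Int.measurable_floor.comp hm) measurable_const
    exact h1.inter (h2.inter h3)
  exact measurable_subtype_coe h

lemma fin_cover {m : ℕ} (N : ℕ) (w : Metric.sphere (0 : EE (m + 1)) 1) :
    ∃ i : Fin (m + 1), ∃ u ∈ Fintype.piFinset (fun _ : Fin m => Finset.Icc (-(2 : ℤ) ^ N) (2 ^ N)),
      w ∈ fin_S N i u := by
  obtain ⟨i, hi⟩ := Finite.exists_max (fun j : Fin (m + 1) => |(w : EE (m + 1)) j|)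
  refine ⟨i, fun k => ⌊slope (w : EE (m + 1)) i k * 2 ^ N⌋, ?_, ?_⟩
  · rw [Fintype.mem_piFinset]
    intro k
    have h1 : |slope (w : EE (m + 1)) i k| ≤ 1 := by
      unfold slope
      rw [abs_div]
      exact div_le_one_of_le₀ (hi _) (abs_nonneg _)
    have h2 := abs_le.1 h1
    have h3 : (0 : ℝ) < 2 ^ N := by positivity
    rw [Finset.mem_Icc]
    constructor
    · apply Int.le_floor.2
      push_cast
      nlinarith
    · have : (⌊slope (w : EE (m + 1)) i k * 2 ^ N⌋ : ℝ) ≤ 2 ^ N := by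
        refine (Int.floor_le _).trans ?_
        nlinarith
      exact_mod_cast this
  · refine ⟨?_, hi, fun k => rfl⟩
    have := w.2
    rw [Metric.mem_sphere, dist_zero_right] at this
    exact this

/-- the integral over the sphere is at most the sum over the patches -/
lemma fin_sum {m : ℕ} (N : ℕ) (μ : Measure (Metric.sphere (0 : EE (m + 1)) 1))
    (g : Metric.sphere (0 : EE (m + 1)) 1 → ℝ≥0∞) :
    ∫⁻ w, g w ∂μ ≤ ∑ i : Fin (m + 1),
      ∑ u ∈ Fintype.piFinset (fun _ : Fin m => Finset.Icc (-(2 : ℤ) ^ N) (2 ^ N)),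
        ∫⁻ w in fin_S N i u, g w ∂μ := by
  have h1 : (⋃ x : Fin (m + 1) ×
      (Fintype.piFinset (fun _ : Fin m => Finset.Icc (-(2 : ℤ) ^ N) (2 ^ N))),
      fin_S N x.1 (x.2 : Fin m → ℤ)) = Set.univ := by
    refine Set.eq_univ_of_forall fun w => ?_
    obtain ⟨i, u, hu, hw⟩ := fin_cover N w
    exact Set.mem_iUnion.2 ⟨(i, ⟨u, hu⟩), hw⟩
  calc ∫⁻ w, g w ∂μ = ∫⁻ w in ⋃ x : Fin (m + 1) ×
      (Fintype.piFinset (fun _ : Fin m => Finset.Icc (-(2 : ℤ) ^ N) (2 ^ N))),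
      fin_S N x.1 (x.2 : Fin m → ℤ), g w ∂μ := by rw [h1, Measure.restrict_univ]
    _ ≤ ∑' x : Fin (m + 1) ×
      (Fintype.piFinset (fun _ : Fin m => Finset.Icc (-(2 : ℤ) ^ N) (2 ^ N))),
        ∫⁻ w in fin_S N x.1 (x.2 : Fin m → ℤ), g w ∂μ := lintegral_iUnion_le _ _
    _ = _ := by
      rw [tsum_fintype, Fintype.sum_prod_type]
      refine Finset.sum_congr rfl fun i _ => ?_
      exact Finset.sum_coe_sort (Fintype.piFinset
        (fun _ : Fin m => Finset.Icc (-(2 : ℤ) ^ N) (2 ^ N)))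
        (fun u => ∫⁻ w in fin_S N i u, g w ∂μ)

theorem st_FIN (h1 : ST_PAT) (h2 : ST_SIG) : ST_FIN := by
  intro m α hα hSE ε hε
  have hα0 : 0 < α := lt_of_lt_of_le one_pos hα
  set q : ℝ := (m : ℝ) + α with hq
  have hq0 : 0 < q := by positivity
  have hlog : 0 < Real.log 2 := Real.log_pos one_lt_two
  obtain ⟨C1, hC1, H1⟩ := h1 m α hα hSE (ε * q * Real.log 2) (by positivity)
  obtain ⟨C2, hC2, H2⟩ := h2 m
  set s : ℝ := (m : ℝ) * (α - 1) / q with hs
  have hs0 : 0 ≤ s := by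
    apply div_nonneg _ hq0.le
    apply mul_nonneg (Nat.cast_nonneg _) (by linarith)
  refine ⟨((m + 1 : ℕ) * (C1 * C2)) ^ (1 / q) * 2 ^ (s + ε), ?_⟩
  intro δ hδ0 hδ1 f hf
  obtain ⟨n, hn1, hn2⟩ := exists_nat_pow_near_of_lt_one hδ0 hδ1.le
    (by norm_num : (0 : ℝ) < 1 / 2) (by norm_num)
  set N : ℕ := n + 1 with hN
  have hN1 : (1 / 2 : ℝ) ^ N ≤ δ := hn1.le
  have hN2 : δ ≤ 2 * (1 / 2 : ℝ) ^ N := by
    rw [hN, pow_succ]
    linarith
  have HP := fun i => H1 N δ hδ0 hδ1 hN1 hN2 f hf i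
  set I : ℝ≥0∞ := ∫⁻ y, f y ^ (1 + (m : ℝ) / α) with hI
  have hd : (1 : ℝ) / (1 + (m : ℝ) / α) = α / q := by
    rw [hq]
    field_simp
    ring
  set R : ℝ := C1 * Real.exp (ε * q * Real.log 2 * N) * (2 : ℝ) ^ ((N : ℝ) * m * α) with hR
  have hR0 : 0 < R := by positivity
  set σ : Measure (Metric.sphere (0 : EE (m + 1)) 1) :=
    (volume : Measure (EE (m + 1))).toSphere with hσ
  -- the bound for one patch
  have hp : ∀ (i : Fin (m + 1)) (u : Fin m → ℤ),
      ∫⁻ w in fin_S N i u, kak δ f w ^ q ∂σ ≤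
        ENNReal.ofReal (C2 * ((1 / 2) ^ N) ^ m) * (⨆ ω ∈ patch N i u, kak δ f ω) ^ q := by
    intro i u
    calc ∫⁻ w in fin_S N i u, kak δ f w ^ q ∂σ
        ≤ ∫⁻ w in fin_S N i u, (⨆ ω ∈ patch N i u, kak δ f ω) ^ q ∂σ := by
          refine setLIntegral_mono' (fin_meas N i u) fun w hw => ?_
          refine ENNReal.rpow_le_rpow ?_ hq0.le
          exact le_iSup₂ (f := fun (ω : EE (m + 1)) (_ : ω ∈ patch N i u) => kak δ f ω)
            (w : EE (m + 1)) hw
      _ = (⨆ ω ∈ patch N i u, kak δ f ω) ^ q * σ (fin_S N i u) := by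
          rw [setLIntegral_const]
      _ ≤ (⨆ ω ∈ patch N i u, kak δ f ω) ^ q * ENNReal.ofReal (C2 * ((1 / 2) ^ N) ^ m) := by
          gcongr
          exact H2 N i u
      _ = _ := mul_comm _ _
  have htot : ∫⁻ w, kak δ f w ^ q ∂σ ≤
      ENNReal.ofReal ((m + 1 : ℕ) * (C2 * ((1 / 2) ^ N) ^ m * R)) * I ^ α := by
    calc ∫⁻ w, kak δ f w ^ q ∂σ ≤ ∑ i : Fin (m + 1),
          ∑ u ∈ Fintype.piFinset (fun _ : Fin m => Finset.Icc (-(2 : ℤ) ^ N) (2 ^ N)),
          ∫⁻ w in fin_S N i u, kak δ f w ^ q ∂σ := fin_sum N σ _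
      _ ≤ ∑ i : Fin (m + 1),
          ∑ u ∈ Fintype.piFinset (fun _ : Fin m => Finset.Icc (-(2 : ℤ) ^ N) (2 ^ N)),
          ENNReal.ofReal (C2 * ((1 / 2) ^ N) ^ m) * (⨆ ω ∈ patch N i u, kak δ f ω) ^ q :=
          Finset.sum_le_sum fun i _ => Finset.sum_le_sum fun u _ => hp i u
      _ = ∑ i : Fin (m + 1), ENNReal.ofReal (C2 * ((1 / 2) ^ N) ^ m) *
          ∑ u ∈ Fintype.piFinset (fun _ : Fin m => Finset.Icc (-(2 : ℤ) ^ N) (2 ^ N)),
          (⨆ ω ∈ patch N i u, kak δ f ω) ^ q := by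
          refine Finset.sum_congr rfl fun i _ => ?_
          rw [Finset.mul_sum]
      _ ≤ ∑ _i : Fin (m + 1), ENNReal.ofReal (C2 * ((1 / 2) ^ N) ^ m) *
          (ENNReal.ofReal R * I ^ α) := by
          refine Finset.sum_le_sum fun i _ => ?_
          gcongr
          exact HP i
      _ = ENNReal.ofReal ((m + 1 : ℕ) * (C2 * ((1 / 2) ^ N) ^ m * R)) * I ^ α := by
          have w1 : ENNReal.ofReal ((m + 1 : ℕ) * (C2 * ((1 / 2) ^ N) ^ m * R)) =
              ((m + 1 : ℕ) : ℝ≥0∞) * (ENNReal.ofReal (C2 * ((1 / 2) ^ N) ^ m) *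
                ENNReal.ofReal R) := by
            rw [ENNReal.ofReal_mul (Nat.cast_nonneg _),
              ENNReal.ofReal_mul (p := C2 * ((1 / 2) ^ N) ^ m) (by positivity),
              ENNReal.ofReal_natCast]
          rw [Finset.sum_const, Finset.card_univ, Fintype.card_fin, nsmul_eq_mul, w1]
          ring
  have h3 : (∫⁻ w, kak δ f w ^ q ∂σ) ^ (1 / q) ≤
      ENNReal.ofReal (((m + 1 : ℕ) * (C2 * ((1 / 2) ^ N) ^ m * R)) ^ (1 / q)) * I ^ (α / q) := by
    refine (ENNReal.rpow_le_rpow htot (by positivity)).trans ?_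
    rw [ENNReal.mul_rpow_of_nonneg _ _ (by positivity), ← ENNReal.rpow_mul,
      ENNReal.ofReal_rpow_of_nonneg (by positivity) (by positivity)]
    rw [mul_one_div]
  rw [hd]
  refine h3.trans ?_
  gcongr
  -- real inequality
  have hM : (2 : ℝ) ^ N ≤ 2 / δ := by
    rw [le_div_iff₀ hδ0]
    have h4 : (2 : ℝ) ^ N * (1 / 2) ^ N = 1 := by
      rw [← mul_pow]; norm_num
    have h5 : (0 : ℝ) < 2 ^ N := by positivity
    nlinarith
  have e1 : ((m + 1 : ℕ) * (C2 * ((1 / 2) ^ N) ^ m * R)) =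
      ((m + 1 : ℕ) * (C1 * C2)) * (((2 : ℝ) ^ N) ^ (ε * q) * ((2 : ℝ) ^ N) ^ (m * (α - 1))) := by
    rw [hR]
    have a1 : Real.exp (ε * q * Real.log 2 * N) = ((2 : ℝ) ^ N) ^ (ε * q) := by
      rw [← Real.rpow_natCast, ← Real.rpow_mul (by norm_num), Real.rpow_def_of_pos (by norm_num)]
      congr 1
      ring
    have a2 : ((1 / 2 : ℝ) ^ N) ^ m * (2 : ℝ) ^ ((N : ℝ) * m * α) =
        ((2 : ℝ) ^ N) ^ (m * (α - 1)) := by
      rw [← Real.rpow_natCast 2 N, ← Real.rpow_mul (by norm_num), one_div, inv_pow, inv_pow,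
        ← pow_mul, ← Real.rpow_natCast 2 (N * m), ← Real.rpow_neg (by norm_num),
        ← Real.rpow_add (by norm_num)]
      congr 1
      push_cast
      ring
    rw [a1, ← a2]
    ring
  rw [e1, Real.mul_rpow (by positivity) (by positivity), ← Real.rpow_add (by positivity),
    ← Real.rpow_mul (by positivity)]
  have e2 : (ε * q + m * (α - 1)) * (1 / q) = s + ε := by
    rw [hs]
    field_simp
    ring
  rw [e2]
  have e3 : ((2 : ℝ) ^ N) ^ (s + ε) ≤ (2 / δ) ^ (s + ε) :=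
    Real.rpow_le_rpow (by positivity) hM (by positivity)
  have e4 : (2 / δ) ^ (s + ε) = 2 ^ (s + ε) * δ ^ (-s - ε) := by
    rw [Real.div_rpow (by norm_num) hδ0.le, show -s - ε = -(s + ε) by ring,
      Real.rpow_neg hδ0.le]
    rfl
  rw [mul_assoc, ← e4]
  exact mul_le_mul_of_nonneg_left e3 (by positivity)

end Pool.Agent.Helper75.KM
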