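import Pool.Agent.Helper83.KM.Stm4

/-! Project KM, row AUX: auxiliary polynomials (helper46). -/

set_option autoImplicit false

namespace Pool.Agent.Helper83.KM.R4Aux

open Finset

theorem sumA (c m : ℕ) :
    2 * ∑ i ∈ range m, (c + 5 * (m - i)) = 2 * (m * c) + 5 * (m * (m + 1)) := by
  induction m with
  | zero => simp
  | succ m ih =>
    rw [sum_range_succ']
    have h : ∑ i ∈ range m, (c + 5 * (m + 1 - (i + 1))) = ∑ i ∈ range m, (c + 5 * (m - i)) :=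
      sum_congr rfl fun i _ => by rw [Nat.add_sub_add_right]
    rw [h, mul_add, ih, Nat.sub_zero]
    ring

theorem sumB (M m : ℕ) : ∑ k ∈ range m, (4 * M - 4 * k) ≤ 2 * (M * (M + 1)) := by
  induction M generalizing m with
  | zero => simp
  | succ M ih =>
    cases m with
    | zero => simp
    | succ m =>
      rw [sum_range_succ']
      have h : ∑ k ∈ range m, (4 * (M + 1) - 4 * (k + 1)) = ∑ k ∈ range m, (4 * M - 4 * k) :=
        sum_congr rfl fun k _ => by omega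
      rw [h, mul_zero, Nat.sub_zero]
      have h2 := ih m
      nlinarith

/-- exponents -/
def pe (n i : ℕ) : ℕ := 4 * (i - n)

/-- exponents -/
def qe (n i : ℕ) : ℕ := 5 * (n - i)

/-- exponents -/
def ee (C n i : ℕ) : ℕ := 4 * (n + C) + qe n i - pe n i

theorem sum_ee (C n Q : ℕ) (hn : n = 4 * C + 4) :
    ∑ i ∈ range (n + Q), ee C n i + 1 ≤ 12 * n ^ 2 := by
  rw [sum_range_add]
  have h1 : ∑ i ∈ range n, ee C n i = ∑ i ∈ range n, (4 * (n + C) + 5 * (n - i)) := by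
    refine sum_congr rfl fun i hi => ?_
    have := mem_range.1 hi
    unfold ee pe qe
    omega
  have h2 : ∑ k ∈ range Q, ee C n (n + k) = ∑ k ∈ range Q, (4 * (n + C) - 4 * k) := by
    refine sum_congr rfl fun i hi => ?_
    unfold ee pe qe
    omega
  rw [h1, h2]
  have h3 := sumA (4 * (n + C)) n
  have h4 := sumB (n + C) Q
  subst hn
  nlinarith

theorem conv (t : ℝ) (γ : ℕ → ℝ) {n Q l : ℕ} (hl : l < n) :
    ∑ i ∈ range (n + Q), t ^ i * (if l ≤ i ∧ i < l + Q then γ (i - l) else 0) =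
      t ^ l * ∑ q ∈ range Q, γ q * t ^ q := by
  have h1 : ∑ i ∈ Ico l (l + Q), t ^ i * γ (i - l) = t ^ l * ∑ q ∈ range Q, γ q * t ^ q := by
    rw [sum_Ico_eq_sum_range, Nat.add_sub_cancel_left, mul_sum]
    refine sum_congr rfl fun q _ => ?_
    rw [Nat.add_sub_cancel_left, pow_add]
    ring
  rw [← h1]
  symm
  have h2 : ∑ i ∈ Ico l (l + Q), t ^ i * γ (i - l) =
      ∑ i ∈ Ico l (l + Q), t ^ i * (if l ≤ i ∧ i < l + Q then γ (i - l) else 0) := by
    refine sum_congr rfl fun i hi => ?_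
    rw [if_pos (mem_Ico.1 hi)]
  rw [h2]
  refine sum_subset ?_ ?_
  · intro i hi
    have := mem_Ico.1 hi
    exact mem_range.2 (by omega)
  · intro i _ hi
    rw [if_neg (fun h => hi (mem_Ico.2 h)), mul_zero]

/-- the polynomial with the coefficients `v l` of `X ^ (n - 1 - l)` -/
noncomputable def pol (n : ℕ) (v : Fin n → ℤ) : Polynomial ℤ :=
  ∑ l : Fin n, Polynomial.C (v l) * Polynomial.X ^ (n - 1 - (l : ℕ))

theorem pol_deg {n : ℕ} (hn : 0 < n) (v : Fin n → ℤ) : (pol n v).natDegree < n := by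
  have h : (pol n v).natDegree ≤ n - 1 := by
    unfold pol
    refine Polynomial.natDegree_sum_le_of_forall_le _ _ fun l _ => ?_
    refine (Polynomial.natDegree_C_mul_X_pow_le _ _).trans (by omega)
  omega

theorem pol_zero {n : ℕ} {v : Fin n → ℤ} (h : pol n v = 0) (l : Fin n) : v l = 0 := by
  have h1 := congrArg (fun P : Polynomial ℤ => P.coeff (n - 1 - (l : ℕ))) h
  unfold pol at h1
  simp only [Polynomial.finsetSum_coeff, Polynomial.coeff_zero] at h1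
  rw [sum_eq_single l] at h1
  · simpa using h1
  · intro i _ hi
    rw [Polynomial.coeff_C_mul, Polynomial.coeff_X_pow, if_neg, mul_zero]
    intro h2
    have := i.2
    have := l.2
    exact hi (Fin.ext (by omega))
  · intro h2
    exact absurd (mem_univ l) h2

theorem pol_eval {n : ℕ} (v : Fin n → ℤ) (b : ℕ) (hb : 0 < b) :
    (((pol n v).eval (b : ℤ) : ℤ) : ℝ) = (b : ℝ) ^ (n - 1) * ∑ l : Fin n, (v l : ℝ) *
      (1 / (b : ℝ)) ^ (l : ℕ) := by
  have hb0 : (b : ℝ) ≠ 0 := by exact_mod_cast hb.ne'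
  unfold pol
  rw [Polynomial.eval_finsetSum]
  push_cast
  rw [mul_sum]
  refine sum_congr rfl fun l _ => ?_
  rw [Polynomial.eval_mul, Polynomial.eval_C, Polynomial.eval_pow, Polynomial.eval_X]
  push_cast
  have h1 : (b : ℝ) ^ (n - 1) = (b : ℝ) ^ (n - 1 - (l : ℕ)) * (b : ℝ) ^ (l : ℕ) := by
    rw [← pow_add]
    congr 1
    have := l.2
    omega
  rw [h1, one_div, inv_pow]
  field_simp

/-- the main estimate -/
theorem est {n Q C : ℕ} (hn : 0 < n) (hQ : Q = 2 * n + C + 1) {K W : ℝ} {Y : ℕ} (hK : 1 ≤ K)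
    (hW : 1 ≤ W) (hWY : W ^ 4 = Y) (hY : 12 * n * K ≤ Y) (a : Fin 3 → ℕ) (ha : ∀ j, 1 ≤ a j)
    (haC : ∀ j, a j ≤ Y ^ C) (γ : Fin 3 → ℕ → ℝ)
    (hγ : ∀ j (t : ℝ), 0 ≤ t → t ≤ 1 →
      |√(a j + t) - ∑ q ∈ range Q, γ j q * t ^ q| ≤ K * √(a j) * t ^ Q)
    (v : Fin 3 × Fin n → ℤ) (hv : ∀ j, |v j| ≤ ((Y ^ n : ℕ) : ℤ))
    (hη : ∀ i : Fin (n + Q), |∑ j : Fin 3 × Fin n, (if (j.2 : ℕ) ≤ i ∧ (i : ℕ) < j.2 + Q then
      γ j.1 (i - j.2) else 0) * (v j : ℝ)| ≤ W ^ (pe n i) / (4 * (n + Q : ℕ) * W ^ (qe n i)))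
    (b : ℕ) (hYb : Y ≤ b) (hbY : b ^ 4 ≤ Y ^ 5) :
    |∑ j : Fin 3, (((pol n fun l => v (j, l)).eval (b : ℤ) : ℤ) : ℝ) * √(a j * b + 1)| < 1 := by
  have hW0 : 0 < W := by linarith
  have hY0 : (0 : ℝ) < Y := by rw [← hWY]; positivity
  have hYn : 0 < Y := by exact_mod_cast hY0
  have hbn : 0 < b := lt_of_lt_of_le hYn hYb
  have hb0 : (0 : ℝ) < b := by exact_mod_cast hbn
  have hb1 : (1 : ℝ) ≤ b := by exact_mod_cast hbn
  have hYbR : (Y : ℝ) ≤ b := by exact_mod_cast hYb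
  have hWb : W ^ 4 ≤ b := by rw [hWY]; exact hYbR
  have hbW : (b : ℝ) ≤ W ^ 5 := by
    have h1 : (b : ℝ) ^ 4 ≤ (W ^ 5) ^ 4 := by
      have h2 : (b : ℝ) ^ 4 ≤ (Y : ℝ) ^ 5 := by exact_mod_cast hbY
      refine h2.trans (le_of_eq ?_)
      rw [← hWY]
      ring
    exact (pow_le_pow_iff_left₀ hb0.le (by positivity) (by norm_num)).1 h1
  set t : ℝ := 1 / (b : ℝ) with ht
  have ht0 : 0 < t := by positivity
  have ht1 : t ≤ 1 := by
    rw [ht, div_le_one hb0]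
    exact hb1
  have htb : t * b = 1 := by rw [ht]; field_simp
  set φ : Fin (n + Q) → Fin 3 × Fin n → ℝ := fun i j =>
    if (j.2 : ℕ) ≤ i ∧ (i : ℕ) < j.2 + Q then γ j.1 (i - j.2) else 0 with hφ
  -- the identity
  have hsq : ∀ j, √((a j : ℝ) * b + 1) = √b * √(a j + t) := by
    intro j
    rw [← Real.sqrt_mul hb0.le]
    congr 1
    rw [mul_add, mul_comm (b : ℝ) t, htb]
    ring
  have hF : ∑ j : Fin 3, (((pol n fun l => v (j, l)).eval (b : ℤ) : ℤ) : ℝ) * √(a j * b + 1) =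
      √b * (b : ℝ) ^ (n - 1) * ∑ j : Fin 3 × Fin n, (v j : ℝ) * t ^ (j.2 : ℕ) *
        √(a j.1 + t) := by
    rw [Fintype.sum_prod_type, mul_sum]
    refine sum_congr rfl fun j _ => ?_
    have h1 : ∑ l : Fin n, (v (j, l) : ℝ) * t ^ (l : ℕ) * √(a j + t) =
        (∑ l : Fin n, (v (j, l) : ℝ) * t ^ (l : ℕ)) * √(a j + t) := by rw [sum_mul]
    rw [pol_eval _ b hbn, hsq]
    show _ = √b * (b : ℝ) ^ (n - 1) * ∑ l : Fin n, (v (j, l) : ℝ) * t ^ (l : ℕ) * √(a j + t)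
    rw [h1]
    ring
  have hM : ∑ j : Fin 3 × Fin n, (v j : ℝ) * t ^ (j.2 : ℕ) * √(a j.1 + t) =
      ∑ i : Fin (n + Q), t ^ (i : ℕ) * ∑ j : Fin 3 × Fin n, φ i j * (v j : ℝ) +
      ∑ j : Fin 3 × Fin n, (v j : ℝ) * t ^ (j.2 : ℕ) *
        (√(a j.1 + t) - ∑ q ∈ range Q, γ j.1 q * t ^ q) := by
    have h1 : ∑ i : Fin (n + Q), t ^ (i : ℕ) * ∑ j : Fin 3 × Fin n, φ i j * (v j : ℝ) =
        ∑ j : Fin 3 × Fin n, (v j : ℝ) * (t ^ (j.2 : ℕ) * ∑ q ∈ range Q, γ j.1 q * t ^ q) := by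
      simp only [mul_sum]
      rw [sum_comm]
      refine sum_congr rfl fun j _ => ?_
      rw [← mul_sum, ← mul_sum, ← conv t (γ j.1) (Q := Q) j.2.2, mul_sum,
        ← Fin.sum_univ_eq_sum_range (fun i => (v j : ℝ) *
          (t ^ i * (if (j.2 : ℕ) ≤ i ∧ i < j.2 + Q then γ j.1 (i - j.2) else 0))) (n + Q)]
      refine sum_congr rfl fun i _ => ?_
      simp only [hφ]
      ring
    rw [h1, ← sum_add_distrib]
    refine sum_congr rfl fun j _ => ?_
    ring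
  -- the factor
  have hbf : √b * (b : ℝ) ^ (n - 1) ≤ (b : ℝ) ^ n := by
    have h1 : √(b : ℝ) ≤ b := by
      rw [Real.sqrt_le_left hb0.le]
      nlinarith
    calc √b * (b : ℝ) ^ (n - 1) ≤ b * (b : ℝ) ^ (n - 1) :=
          mul_le_mul_of_nonneg_right h1 (by positivity)
      _ = (b : ℝ) ^ n := by
          rw [← pow_succ']
          congr 1
          omega
  have hI0 : (0 : ℝ) < ((n + Q : ℕ) : ℝ) := by exact_mod_cast (by omega : 0 < n + Q)
  -- the first part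
  have hA : (b : ℝ) ^ n * |∑ i : Fin (n + Q), t ^ (i : ℕ) * ∑ j : Fin 3 × Fin n,
      φ i j * (v j : ℝ)| ≤ 1 / 4 := by
    have h1 : ∀ i : Fin (n + Q), (b : ℝ) ^ n * (t ^ (i : ℕ) * |∑ j : Fin 3 × Fin n,
        φ i j * (v j : ℝ)|) ≤ 1 / (4 * (n + Q : ℕ)) := by
      intro i
      have h2 := hη i
      have h3 : (b : ℝ) ^ n * t ^ (i : ℕ) * W ^ (pe n i) ≤ W ^ (qe n i) := by
        have h4 : W ^ (pe n i) ≤ (b : ℝ) ^ ((i : ℕ) - n) := by
          unfold pe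
          rw [pow_mul]
          exact pow_le_pow_left₀ (by positivity) hWb _
        have h5 : (b : ℝ) ^ (n - (i : ℕ)) ≤ W ^ (qe n i) := by
          unfold qe
          rw [pow_mul]
          exact pow_le_pow_left₀ hb0.le hbW _
        have h6 : (b : ℝ) ^ n * (b : ℝ) ^ ((i : ℕ) - n) =
            (b : ℝ) ^ (i : ℕ) * (b : ℝ) ^ (n - (i : ℕ)) := by
          rw [← pow_add, ← pow_add]
          congr 1
          omega
        have h7 : t ^ (i : ℕ) * (b : ℝ) ^ (i : ℕ) = 1 := by rw [← mul_pow, htb, one_pow]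
        calc (b : ℝ) ^ n * t ^ (i : ℕ) * W ^ (pe n i)
            ≤ (b : ℝ) ^ n * t ^ (i : ℕ) * (b : ℝ) ^ ((i : ℕ) - n) :=
              mul_le_mul_of_nonneg_left h4 (by positivity)
          _ = t ^ (i : ℕ) * ((b : ℝ) ^ n * (b : ℝ) ^ ((i : ℕ) - n)) := by ring
          _ = t ^ (i : ℕ) * (b : ℝ) ^ (i : ℕ) * (b : ℝ) ^ (n - (i : ℕ)) := by rw [h6]; ring
          _ = (b : ℝ) ^ (n - (i : ℕ)) := by rw [h7, one_mul]
          _ ≤ _ := h5
      calc (b : ℝ) ^ n * (t ^ (i : ℕ) * |∑ j : Fin 3 × Fin n, φ i j * (v j : ℝ)|)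
          ≤ (b : ℝ) ^ n * (t ^ (i : ℕ) * (W ^ (pe n i) / (4 * (n + Q : ℕ) * W ^ (qe n i)))) :=
            mul_le_mul_of_nonneg_left (mul_le_mul_of_nonneg_left h2 (by positivity))
              (by positivity)
        _ = ((b : ℝ) ^ n * t ^ (i : ℕ) * W ^ (pe n i)) / W ^ (qe n i) *
              (1 / (4 * (n + Q : ℕ))) := by
            field_simp
        _ ≤ 1 * (1 / (4 * (n + Q : ℕ))) := by
            refine mul_le_mul_of_nonneg_right ?_ (by positivity)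
            rw [div_le_one (by positivity)]
            exact h3
        _ = 1 / (4 * (n + Q : ℕ)) := one_mul _
    calc (b : ℝ) ^ n * |∑ i : Fin (n + Q), t ^ (i : ℕ) * ∑ j : Fin 3 × Fin n,
          φ i j * (v j : ℝ)|
        ≤ (b : ℝ) ^ n * ∑ i : Fin (n + Q), |t ^ (i : ℕ) * ∑ j : Fin 3 × Fin n,
          φ i j * (v j : ℝ)| :=
          mul_le_mul_of_nonneg_left (abs_sum_le_sum_abs _ _) (by positivity)
      _ = ∑ i : Fin (n + Q), (b : ℝ) ^ n * (t ^ (i : ℕ) * |∑ j : Fin 3 × Fin n,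
          φ i j * (v j : ℝ)|) := by
          rw [mul_sum]
          refine sum_congr rfl fun i _ => ?_
          rw [abs_mul, abs_of_nonneg (by positivity : 0 ≤ t ^ (i : ℕ))]
      _ ≤ ∑ _i : Fin (n + Q), 1 / (4 * ((n + Q : ℕ) : ℝ)) := sum_le_sum fun i _ => h1 i
      _ = 1 / 4 := by
          rw [sum_const, card_univ, Fintype.card_fin, nsmul_eq_mul]
          field_simp
  -- the second part
  have hsa : ∀ j, √(a j : ℝ) ≤ (Y : ℝ) ^ C := by
    intro j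
    have h1 : (1 : ℝ) ≤ a j := by exact_mod_cast ha j
    have h2 : √(a j : ℝ) ≤ a j := by
      rw [Real.sqrt_le_left (by linarith)]
      nlinarith
    have h3 : (a j : ℝ) ≤ (Y : ℝ) ^ C := by exact_mod_cast haC j
    linarith
  have hB : (b : ℝ) ^ n * |∑ j : Fin 3 × Fin n, (v j : ℝ) * t ^ (j.2 : ℕ) *
      (√(a j.1 + t) - ∑ q ∈ range Q, γ j.1 q * t ^ q)| ≤ 1 / 4 := by
    have h1 : ∀ j : Fin 3 × Fin n, |(v j : ℝ) * t ^ (j.2 : ℕ) *
        (√(a j.1 + t) - ∑ q ∈ range Q, γ j.1 q * t ^ q)| ≤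
        (Y : ℝ) ^ n * (K * (Y : ℝ) ^ C * t ^ Q) := by
      intro j
      rw [abs_mul, abs_mul, abs_of_nonneg (by positivity : 0 ≤ t ^ (j.2 : ℕ))]
      have h2 : |(v j : ℝ)| ≤ (Y : ℝ) ^ n := by exact_mod_cast hv j
      have h3 : t ^ (j.2 : ℕ) ≤ 1 := pow_le_one₀ ht0.le ht1
      have h4 := hγ j.1 t ht0.le ht1
      have h5 : K * √(a j.1) * t ^ Q ≤ K * (Y : ℝ) ^ C * t ^ Q :=
        mul_le_mul_of_nonneg_right (mul_le_mul_of_nonneg_left (hsa j.1) (by linarith))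
          (by positivity)
      have h6 : |(v j : ℝ)| * t ^ (j.2 : ℕ) ≤ (Y : ℝ) ^ n * 1 :=
        mul_le_mul h2 h3 (by positivity) (by positivity)
      rw [mul_one] at h6
      exact mul_le_mul h6 (h4.trans h5) (abs_nonneg _) (by positivity)
    have h2 : |∑ j : Fin 3 × Fin n, (v j : ℝ) * t ^ (j.2 : ℕ) *
        (√(a j.1 + t) - ∑ q ∈ range Q, γ j.1 q * t ^ q)| ≤
        3 * n * ((Y : ℝ) ^ n * (K * (Y : ℝ) ^ C * t ^ Q)) := by
      refine (abs_sum_le_sum_abs _ _).trans ((sum_le_sum fun j _ => h1 j).trans (le_of_eq ?_))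
      rw [sum_const, card_univ, Fintype.card_prod, Fintype.card_fin, Fintype.card_fin,
        nsmul_eq_mul]
      push_cast
      ring
    have h3 : (b : ℝ) ^ n * t ^ Q * (Y : ℝ) ^ (n + C + 1) ≤ 1 := by
      have h4 : (Y : ℝ) ^ (n + C + 1) ≤ (b : ℝ) ^ (n + C + 1) :=
        pow_le_pow_left₀ hY0.le hYbR _
      have h5 : (b : ℝ) ^ n * (b : ℝ) ^ (n + C + 1) = (b : ℝ) ^ Q := by
        rw [← pow_add, hQ]
        congr 1
        ring
      calc (b : ℝ) ^ n * t ^ Q * (Y : ℝ) ^ (n + C + 1)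
          ≤ (b : ℝ) ^ n * t ^ Q * (b : ℝ) ^ (n + C + 1) :=
            mul_le_mul_of_nonneg_left h4 (by positivity)
        _ = t ^ Q * ((b : ℝ) ^ n * (b : ℝ) ^ (n + C + 1)) := by ring
        _ = 1 := by rw [h5, ← mul_pow, htb, one_pow]
    calc (b : ℝ) ^ n * |∑ j : Fin 3 × Fin n, (v j : ℝ) * t ^ (j.2 : ℕ) *
          (√(a j.1 + t) - ∑ q ∈ range Q, γ j.1 q * t ^ q)|
        ≤ (b : ℝ) ^ n * (3 * n * ((Y : ℝ) ^ n * (K * (Y : ℝ) ^ C * t ^ Q))) :=
          mul_le_mul_of_nonneg_left h2 (by positivity)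
      _ = (b : ℝ) ^ n * t ^ Q * (Y : ℝ) ^ (n + C + 1) * (3 * n * K / Y) := by
          rw [pow_succ, pow_add]
          field_simp
      _ ≤ 1 * (3 * n * K / Y) := mul_le_mul_of_nonneg_right h3 (by positivity)
      _ ≤ 1 / 4 := by
          rw [one_mul, div_le_iff₀ hY0]
          linarith
  -- conclusion
  rw [hF, hM, abs_mul, abs_of_nonneg (by positivity : 0 ≤ √b * (b : ℝ) ^ (n - 1))]
  have h9 := abs_add_le (∑ i : Fin (n + Q), t ^ (i : ℕ) * ∑ j : Fin 3 × Fin n,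
    φ i j * (v j : ℝ)) (∑ j : Fin 3 × Fin n, (v j : ℝ) * t ^ (j.2 : ℕ) *
      (√(a j.1 + t) - ∑ q ∈ range Q, γ j.1 q * t ^ q))
  calc _ ≤ (b : ℝ) ^ n * (|∑ i : Fin (n + Q), t ^ (i : ℕ) * ∑ j : Fin 3 × Fin n,
          φ i j * (v j : ℝ)| + |∑ j : Fin 3 × Fin n, (v j : ℝ) * t ^ (j.2 : ℕ) *
          (√(a j.1 + t) - ∑ q ∈ range Q, γ j.1 q * t ^ q)|) :=
        mul_le_mul hbf h9 (abs_nonneg _) (by positivity)
    _ ≤ 1 / 4 + 1 / 4 := by
        rw [mul_add]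
        exact add_le_add hA hB
    _ < 1 := by norm_num

/-- Row AUX -/
theorem row (hT : TayStmt) (hB : BoxStmt) : AuxStmt := by
  intro C
  obtain ⟨n, hn⟩ : ∃ n, n = 4 * C + 4 := ⟨_, rfl⟩
  obtain ⟨Q, hQ⟩ : ∃ Q, Q = 2 * n + C + 1 := ⟨_, rfl⟩
  have hn0 : 0 < n := by omega
  obtain ⟨K, hK1, hK⟩ := hT Q
  set L : ℝ := 12 * n * K * (n + Q : ℕ) + 1 with hL
  have hL1 : 1 ≤ L := by
    rw [hL]
    have : 0 ≤ 12 * (n : ℝ) * K * (n + Q : ℕ) := by positivity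
    linarith
  obtain ⟨Y₀, hY₀⟩ := exists_nat_ge (max ((L ^ (n + Q)) ^ 4) (max (12 * n * K) 1))
  refine ⟨n, Y₀, ?_⟩
  intro a₁ a₂ a₃ Y h1 h12 h23 h3C hY
  have hYR : (Y₀ : ℝ) ≤ Y := by exact_mod_cast hY
  have hYa : (L ^ (n + Q)) ^ 4 ≤ Y := ((le_max_left _ _).trans hY₀).trans hYR
  have hYb : 12 * n * K ≤ (Y : ℝ) :=
    (((le_max_left _ _).trans (le_max_right _ _)).trans hY₀).trans hYR
  have hYc : (1 : ℝ) ≤ Y := (((le_max_right _ _).trans (le_max_right _ _)).trans hY₀).trans hYR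
  set W : ℝ := √(√(Y : ℝ)) with hWd
  have hW1 : 1 ≤ W := by
    rw [hWd, Real.one_le_sqrt, Real.one_le_sqrt]
    exact hYc
  have hW0 : 0 < W := by linarith
  have hW4 : W ^ 4 = Y := by
    have e : W ^ 4 = (W ^ 2) ^ 2 := by ring
    rw [e, hWd, Real.sq_sqrt (Real.sqrt_nonneg _), Real.sq_sqrt (by linarith)]
  have hLW : L ^ (n + Q) ≤ W := by
    rw [← hW4] at hYa
    exact (pow_le_pow_iff_left₀ (by positivity) hW0.le (by norm_num)).1 hYa
  set a : Fin 3 → ℕ := ![a₁, a₂, a₃] with ha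
  have ha1 : ∀ j, 1 ≤ a j := by
    intro j
    fin_cases j
    · show 1 ≤ a₁
      omega
    · show 1 ≤ a₂
      omega
    · show 1 ≤ a₃
      omega
  have haC : ∀ j, a j ≤ Y ^ C := by
    intro j
    fin_cases j
    · show a₁ ≤ _
      omega
    · show a₂ ≤ _
      omega
    · show a₃ ≤ _
      omega
  have hg : ∀ j : Fin 3, ∃ γ : ℕ → ℝ, (∀ q, |γ q| ≤ K * √(a j : ℝ)) ∧
      ∀ t : ℝ, 0 ≤ t → t ≤ 1 →
        |√(a j + t) - ∑ q ∈ range Q, γ q * t ^ q| ≤ K * √(a j : ℝ) * t ^ Q :=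
    fun j => hK (a j) (by exact_mod_cast ha1 j)
  choose γ hγ1 hγ2 using hg
  set φ : Fin (n + Q) → Fin 3 × Fin n → ℝ := fun i j =>
    if (j.2 : ℕ) ≤ i ∧ (i : ℕ) < j.2 + Q then γ j.1 (i - j.2) else 0 with hφ
  set η : Fin (n + Q) → ℝ := fun i => W ^ (pe n i) / (4 * (n + Q : ℕ) * W ^ (qe n i)) with hη
  set R : ℝ := 3 * n * K * W ^ (4 * (n + C)) with hR
  have hI0 : (0 : ℝ) < ((n + Q : ℕ) : ℝ) := by exact_mod_cast (by omega : 0 < n + Q)
  have hn0R : (0 : ℝ) < n := by exact_mod_cast hn0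
  have hK0 : 0 < K := by linarith
  have hη0 : ∀ i, 0 < η i := by
    intro i
    simp only [hη]
    positivity
  have hH : ((Y ^ n : ℕ) : ℝ) = W ^ (4 * n) := by
    push_cast
    rw [← hW4, ← pow_mul]
  have hφ1 : ∀ i, (∑ j, |φ i j|) * ((Y ^ n : ℕ) : ℝ) ≤ R := by
    intro i
    have h2 : ∀ j : Fin 3 × Fin n, |φ i j| ≤ K * W ^ (4 * C) := by
      intro j
      have h3 : √(a j.1 : ℝ) ≤ W ^ (4 * C) := by
        have h4 : (1 : ℝ) ≤ a j.1 := by exact_mod_cast ha1 j.1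
        have h5 : √(a j.1 : ℝ) ≤ a j.1 := by
          rw [Real.sqrt_le_left (by linarith)]
          nlinarith
        have h6 : (a j.1 : ℝ) ≤ (Y : ℝ) ^ C := by exact_mod_cast haC j.1
        rw [pow_mul, hW4]
        linarith
      simp only [hφ]
      split_ifs
      · exact (hγ1 j.1 _).trans (mul_le_mul_of_nonneg_left h3 hK0.le)
      · rw [abs_zero]
        positivity
    have h3 : ∑ j, |φ i j| ≤ 3 * n * (K * W ^ (4 * C)) := by
      refine (sum_le_sum fun j _ => h2 j).trans (le_of_eq ?_)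
      rw [sum_const, card_univ, Fintype.card_prod, Fintype.card_fin, Fintype.card_fin,
        nsmul_eq_mul]
      push_cast
      ring
    rw [hH]
    calc (∑ j, |φ i j|) * W ^ (4 * n) ≤ 3 * n * (K * W ^ (4 * C)) * W ^ (4 * n) :=
          mul_le_mul_of_nonneg_right h3 (by positivity)
      _ = R := by
          rw [hR, mul_add, pow_add]
          ring
  have hcount : ∏ i, (R / η i + 1) <
      (((Y ^ n : ℕ) : ℝ) + 1) ^ Fintype.card (Fin 3 × Fin n) := by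
    have h2 : ∀ i, R / η i + 1 ≤ L * W ^ (ee C n i) := by
      intro i
      have h3 : W ^ (4 * (n + C) + qe n i) ≤ W ^ (ee C n i) * W ^ (pe n i) := by
        rw [← pow_add]
        refine pow_le_pow_right₀ hW1 ?_
        unfold ee
        omega
      have h4 : R / η i ≤ 12 * n * K * (n + Q : ℕ) * W ^ (ee C n i) := by
        simp only [hη]
        rw [div_div_eq_mul_div, div_le_iff₀ (by positivity), hR]
        calc 3 * (n : ℝ) * K * W ^ (4 * (n + C)) * (4 * (n + Q : ℕ) * W ^ (qe n i))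
            = 12 * n * K * (n + Q : ℕ) * W ^ (4 * (n + C) + qe n i) := by
              rw [pow_add]
              ring
          _ ≤ 12 * n * K * (n + Q : ℕ) * (W ^ (ee C n i) * W ^ (pe n i)) :=
              mul_le_mul_of_nonneg_left h3 (by positivity)
          _ = _ := by ring
      have h5 : 1 ≤ W ^ (ee C n i) := one_le_pow₀ hW1
      rw [hL, add_mul, one_mul]
      linarith
    have h3 : ∏ i, (R / η i + 1) ≤ ∏ i : Fin (n + Q), L * W ^ (ee C n i) := by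
      refine prod_le_prod (fun i _ => ?_) fun i _ => h2 i
      have := hη0 i
      positivity
    have h4 : ∏ i : Fin (n + Q), L * W ^ (ee C n i) =
        L ^ (n + Q) * W ^ (∑ i ∈ range (n + Q), ee C n i) := by
      rw [prod_mul_distrib, prod_const, card_univ, Fintype.card_fin, prod_pow_eq_pow_sum,
        Fin.sum_univ_eq_sum_range (fun i => ee C n i) (n + Q)]
    have h5 : L ^ (n + Q) * W ^ (∑ i ∈ range (n + Q), ee C n i) ≤ W ^ (12 * n ^ 2) := by
      calc L ^ (n + Q) * W ^ (∑ i ∈ range (n + Q), ee C n i)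
          ≤ W * W ^ (∑ i ∈ range (n + Q), ee C n i) :=
            mul_le_mul_of_nonneg_right hLW (by positivity)
        _ = W ^ (∑ i ∈ range (n + Q), ee C n i + 1) := by rw [pow_succ]; ring
        _ ≤ _ := pow_le_pow_right₀ hW1 (sum_ee C n Q hn)
    have h6 : W ^ (12 * n ^ 2) = ((Y ^ n : ℕ) : ℝ) ^ Fintype.card (Fin 3 × Fin n) := by
      rw [hH, Fintype.card_prod, Fintype.card_fin, Fintype.card_fin, ← pow_mul]
      congr 1
      ring
    have h7 : ((Y ^ n : ℕ) : ℝ) ^ Fintype.card (Fin 3 × Fin n) <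
        (((Y ^ n : ℕ) : ℝ) + 1) ^ Fintype.card (Fin 3 × Fin n) := by
      refine pow_lt_pow_left₀ (by linarith) (Nat.cast_nonneg _) ?_
      rw [Fintype.card_prod, Fintype.card_fin, Fintype.card_fin]
      omega
    rw [h4] at h3
    rw [h6] at h5
    exact lt_of_le_of_lt (h3.trans h5) h7
  obtain ⟨v, hv0, hvH, hvη⟩ := hB (Fin 3 × Fin n) (Fin (n + Q)) (Y ^ n) φ R η (by positivity) hη0
    hφ1 hcount
  refine ⟨pol n fun l => v (0, l), pol n fun l => v (1, l), pol n fun l => v (2, l),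
    pol_deg hn0 _, pol_deg hn0 _, pol_deg hn0 _, ?_, ?_⟩
  · rintro ⟨e0, e1, e2⟩
    apply hv0
    funext j
    obtain ⟨j, l⟩ := j
    fin_cases j
    · exact pol_zero e0 l
    · exact pol_zero e1 l
    · exact pol_zero e2 l
  · intro b hb hb'
    have key := est hn0 hQ hK1 hW1 hW4 hYb a ha1 haC γ hγ2 v hvH hvη b hb hb'
    rw [Fin.sum_univ_three] at key
    exact key

end Pool.Agent.Helper83.KM.R4Aux
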