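import Pool.Agent.Helper83.KM.Stm4

/-! Project KM, row BOX: the pigeonhole principle for real linear forms (helper46). -/

set_option autoImplicit false

namespace Pool.Agent.Helper83.KM.R4Box

open Finset

theorem row : BoxStmt := by
  intro ι κ _ _ H φ R η hR hη hφ hcard
  classical
  set N : κ → ℝ := fun i => H * ∑ j, max (-φ i j) 0 with hN
  set s : κ → (ι → Fin (H + 1)) → ℝ := fun i v => ∑ j, φ i j * ((v j : ℕ) : ℝ) + N i with hs
  have hv : ∀ (v : ι → Fin (H + 1)) j, ((v j : ℕ) : ℝ) ≤ H := by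
    intro v j
    exact_mod_cast Nat.lt_succ_iff.1 (v j).2
  have hs0 : ∀ i v, 0 ≤ s i v := by
    intro i v
    have h1 : 0 ≤ ∑ j, (φ i j * ((v j : ℕ) : ℝ) + H * max (-φ i j) 0) := by
      refine Finset.sum_nonneg fun j _ => ?_
      have h2 : (0 : ℝ) ≤ ((v j : ℕ) : ℝ) := Nat.cast_nonneg _
      have h3 := hv v j
      have h4 : -φ i j ≤ max (-φ i j) 0 := le_max_left _ _
      have h5 : 0 ≤ max (-φ i j) 0 := le_max_right _ _
      nlinarith [mul_le_mul_of_nonneg_left h3 h5, mul_le_mul_of_nonneg_right h4 h2]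
    rw [Finset.sum_add_distrib, ← Finset.mul_sum] at h1
    exact h1
  have hsR : ∀ i v, s i v ≤ R := by
    intro i v
    have h1 : ∑ j, (φ i j * ((v j : ℕ) : ℝ) + H * max (-φ i j) 0) ≤ ∑ j, |φ i j| * H := by
      refine Finset.sum_le_sum fun j _ => ?_
      have h2 : (0 : ℝ) ≤ ((v j : ℕ) : ℝ) := Nat.cast_nonneg _
      have h3 := hv v j
      rcases le_total 0 (φ i j) with h0 | h0
      · rw [abs_of_nonneg h0, max_eq_right (by linarith), mul_zero, add_zero]
        exact mul_le_mul_of_nonneg_left h3 h0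
      · rw [abs_of_nonpos h0, max_eq_left (by linarith)]
        nlinarith
    rw [Finset.sum_add_distrib, ← Finset.mul_sum, ← Finset.sum_mul] at h1
    exact h1.trans (hφ i)
  have hb : ∀ i v, ⌊s i v / η i⌋₊ < ⌊R / η i⌋₊ + 1 := by
    intro i v
    refine Nat.lt_succ_of_le (Nat.floor_le_floor ?_)
    exact div_le_div_of_nonneg_right (hsR i v) (hη i).le
  let F : (ι → Fin (H + 1)) → ((i : κ) → Fin (⌊R / η i⌋₊ + 1)) := fun v i =>
    ⟨⌊s i v / η i⌋₊, hb i v⟩
  have hc : Fintype.card ((i : κ) → Fin (⌊R / η i⌋₊ + 1)) <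
      Fintype.card (ι → Fin (H + 1)) := by
    rw [Fintype.card_pi, Fintype.card_fun, Fintype.card_fin]
    simp only [Fintype.card_fin]
    have h1 : ((∏ i, (⌊R / η i⌋₊ + 1) : ℕ) : ℝ) < (((H + 1) ^ Fintype.card ι : ℕ) : ℝ) := by
      push_cast
      refine lt_of_le_of_lt (Finset.prod_le_prod (fun i _ => by positivity) fun i _ => ?_) hcard
      have := Nat.floor_le (div_nonneg hR (hη i).le)
      linarith
    exact_mod_cast h1
  obtain ⟨a, b, hab, hF⟩ := Fintype.exists_ne_map_eq_of_card_lt F hc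
  refine ⟨fun j => ((a j : ℕ) : ℤ) - ((b j : ℕ) : ℤ), ?_, ?_, ?_⟩
  · intro h0
    apply hab
    funext j
    have h1 : ((a j : ℕ) : ℤ) - ((b j : ℕ) : ℤ) = 0 := congrFun h0 j
    exact Fin.ext (by omega)
  · intro j
    have h1 := (a j).2
    have h2 := (b j).2
    show |((a j : ℕ) : ℤ) - ((b j : ℕ) : ℤ)| ≤ (H : ℤ)
    rw [abs_le]
    constructor <;> omega
  · intro i
    have h1 : ⌊s i a / η i⌋₊ = ⌊s i b / η i⌋₊ := congrArg Fin.val (congrFun hF i)
    have ha := Nat.floor_le (div_nonneg (hs0 i a) (hη i).le)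
    have ha' := Nat.lt_floor_add_one (s i a / η i)
    have hb := Nat.floor_le (div_nonneg (hs0 i b) (hη i).le)
    have hb' := Nat.lt_floor_add_one (s i b / η i)
    rw [h1] at ha ha'
    have e : ∑ j, φ i j * (((((a j : ℕ) : ℤ) - ((b j : ℕ) : ℤ) : ℤ)) : ℝ) = s i a - s i b := by
      simp only [hs]
      rw [add_sub_add_right_eq_sub, ← Finset.sum_sub_distrib]
      refine Finset.sum_congr rfl fun j _ => ?_
      push_cast
      ring
    rw [e]
    have h2 : |(s i a - s i b) / η i| ≤ 1 := by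
      rw [sub_div, abs_le]
      constructor <;> linarith
    rw [abs_div, abs_of_pos (hη i), div_le_one (hη i)] at h2
    exact h2

end Pool.Agent.Helper83.KM.R4Box
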