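import Pool.Agent.Helper83.KM.Stm4

/-! Row CLUSTER of the K_{4,N} sheet (typed by helper28). -/

set_option autoImplicit false

namespace Pool.Agent.Helper83.KM.R4CLUSTER

open Finset Real Pool.Agent.Helper83.KM

theorem sq (a b r : ℕ) (h : a * b + 1 = r * r) : √((a : ℝ) * b + 1) = r := by
  have e : (a : ℝ) * b + 1 = (r : ℝ) ^ 2 := by
    rw [pow_two]
    exact_mod_cast h
  rw [e, sqrt_sq (Nat.cast_nonneg r)]

theorem row (hA : AuxStmt) (hN : NormStmt) : ClusterStmt := by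
  intro C
  obtain ⟨n, Y₀, H⟩ := hA C
  refine ⟨4 * n, Y₀, fun a₁ a₂ a₃ Y h1 h2 h3 h4 h5 S hS => ?_⟩
  obtain ⟨P, Q, R, hP, hQ, hR, hne, hF⟩ := H a₁ a₂ a₃ Y h1 h2 h3 h4 h5
  refine hN n a₁ a₂ a₃ h1 h2 h3 P Q R hP hQ hR hne S fun b hb => ?_
  obtain ⟨hb1, hb2, ⟨r, hr⟩, ⟨s, hs⟩, ⟨t, ht⟩⟩ := hS b hb
  refine ⟨r, s, t, ?_, ?_, ?_, ?_⟩
  · rw [pow_two]; exact_mod_cast hr.symm
  · rw [pow_two]; exact_mod_cast hs.symm
  · rw [pow_two]; exact_mod_cast ht.symm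
  · have h6 := hF b hb1 hb2
    rw [sq a₁ b r hr, sq a₂ b s hs, sq a₃ b t ht] at h6
    apply Int.abs_lt_one_iff.1
    have e : ((|Polynomial.eval (b : ℤ) P * (r : ℤ) + Polynomial.eval (b : ℤ) Q * (s : ℤ) +
        Polynomial.eval (b : ℤ) R * (t : ℤ)| : ℤ) : ℝ) =
        |((P.eval (b : ℤ) : ℤ) : ℝ) * r + ((Q.eval (b : ℤ) : ℤ) : ℝ) * s +
          ((R.eval (b : ℤ) : ℤ) : ℝ) * t| := by
      push_cast
      rfl
    rw [← e] at h6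
    exact_mod_cast h6

end Pool.Agent.Helper83.KM.R4CLUSTER
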