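import Pool.Agent.Helper83.KM.Stm4
import Pool.Agent.Helper83.KM.RowUB

/-!
Row GM: the gap principle for two common neighbours of `m + 1` integers.
-/

set_option autoImplicit false

namespace Pool.Agent.Helper83.KM.R4GM

open Finset MeasureTheory Real

/-- The Vandermonde product. -/
def vand {n : ℕ} (c : Fin n → ℤ) : ℤ := ∏ i, ∏ k ∈ Ioi i, (c k - c i)

theorem dvd_vand {n : ℕ} (c : Fin n → ℤ) (j : Fin n) :
    ∏ l ∈ univ.erase j, (c j - c l) ∣ vand c := by
  have h0 : (univ.erase j : Finset (Fin n)) = Iio j ∪ Ioi j := by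
    ext l
    simp only [mem_erase, mem_univ, and_true, mem_union, mem_Iio, mem_Ioi]
    exact ⟨lt_or_gt_of_ne, fun h => h.elim ne_of_lt ne_of_gt⟩
  have hd : Disjoint (Iio j) (Ioi j) := by
    rw [Finset.disjoint_left]
    intro l h1 h2
    rw [mem_Iio] at h1
    rw [mem_Ioi] at h2
    exact lt_asymm h1 h2
  rw [h0, prod_union hd, vand]
  have h1 : ∏ i ∈ insert j (Iio j), ∏ k ∈ Ioi i, (c k - c i) ∣
      ∏ i, ∏ k ∈ Ioi i, (c k - c i) := prod_dvd_prod_of_subset _ _ _ (subset_univ _)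
  refine dvd_trans ?_ h1
  rw [prod_insert (by rw [mem_Iio]; exact lt_irrefl j), mul_comm]
  refine mul_dvd_mul ?_ ?_
  · exact prod_dvd_prod_of_dvd _ _ (fun l _ => ⟨-1, by ring⟩)
  · refine prod_dvd_prod_of_dvd _ _ (fun i hi => ?_)
    rw [mem_Iio] at hi
    exact dvd_prod_of_mem (fun k => c k - c i) (mem_Ioi.mpr hi)

theorem vand_pos {n : ℕ} (c : Fin n → ℤ) (hc : StrictMono c) : 0 < vand c := by
  refine prod_pos (fun i _ => prod_pos (fun k hk => ?_))
  have := hc (mem_Ioi.mp hk)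
  linarith

theorem card_Ioi_succ (m : ℕ) (i : Fin m) : (Ioi i.succ : Finset (Fin (m + 1))).card = m - 1 - i := by
  rw [Fin.card_Ioi]
  simp only [Fin.val_succ]
  omega

theorem sum_card (m : ℕ) : (∑ i : Fin m, (m - 1 - (i : ℕ))) * 2 = m * (m - 1) := by
  rw [Fin.sum_univ_eq_sum_range (fun i => m - 1 - i) m, sum_range_reflect (fun i => i) m,
    sum_range_id_mul_two]

theorem vand_le (m : ℕ) (c : Fin (m + 1) → ℤ) (hc : StrictMono c) (h0 : 0 < c 0) :
    vand c ^ 2 ≤ c (Fin.last m) ^ (m * (m - 1)) * (∏ j, c j) ^ 2 := by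
  have hpos : ∀ j, 1 ≤ c j := by
    intro j
    have := hc.monotone (Fin.zero_le j)
    linarith
  have hle : ∀ j, c j ≤ c (Fin.last m) := fun j => hc.monotone (Fin.le_last j)
  have h1 : vand c ≤ c (Fin.last m) ^ (∑ i : Fin m, (m - 1 - (i : ℕ))) * ∏ j, c j := by
    rw [vand, Fin.prod_univ_succ, mul_comm]
    refine mul_le_mul ?_ ?_ ?_ ?_
    · rw [← prod_pow_eq_pow_sum]
      refine prod_le_prod (fun i _ => prod_nonneg fun k hk => ?_) (fun i _ => ?_)
      · have := hc (mem_Ioi.mp hk)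
        linarith
      · rw [← card_Ioi_succ m i, ← prod_const]
        refine prod_le_prod (fun k hk => ?_) (fun k _ => ?_)
        · have := hc (mem_Ioi.mp hk)
          linarith
        · have := hle k
          have := hpos i.succ
          linarith
    · calc ∏ k ∈ Ioi (0 : Fin (m + 1)), (c k - c 0) ≤ ∏ k ∈ Ioi (0 : Fin (m + 1)), c k := by
            refine prod_le_prod (fun k hk => ?_) (fun k _ => by linarith)
            have := hc (mem_Ioi.mp hk)
            linarith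
        _ ≤ ∏ j, c j := by
            rw [← prod_sdiff (subset_univ (Ioi (0 : Fin (m + 1))))]
            have h3 : 0 < ∏ k ∈ univ \ Ioi (0 : Fin (m + 1)), c k :=
              prod_pos fun k _ => by linarith [hpos k]
            have h4 : 0 ≤ ∏ k ∈ Ioi (0 : Fin (m + 1)), c k :=
              prod_nonneg fun k _ => by linarith [hpos k]
            exact le_mul_of_one_le_left h4 h3
    · exact prod_nonneg fun k hk => by
        have := hc (mem_Ioi.mp hk)
        linarith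
    · exact pow_nonneg (by linarith [hpos (Fin.last m)]) _
  have h2 := pow_le_pow_left₀ (vand_pos c hc).le h1 2
  rw [mul_pow, ← pow_mul, sum_card] at h2
  exact h2

/-- The kernel. -/
noncomputable def Phi (x y w c : ℝ) : ℝ :=
  (x * c + 1) * (y * c + 1) / ((x * c + 1) + w ^ 2 * (y * c + 1))

theorem Phi_int (x y c : ℝ) (hx : 0 < x) (hy : 0 < y) (hc : 0 < c) :
    Integrable (fun w => Phi x y w c) ∧
      ∫ w : ℝ, Phi x y w c = π * √((x * c + 1) * (y * c + 1)) := by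
  have hA : 0 < x * c + 1 := by positivity
  have hB : 0 < y * c + 1 := by positivity
  have e : (fun w : ℝ => Phi x y w c) =
      fun w : ℝ => (x * c + 1) * (1 / (w ^ 2 + (x * c + 1) / (y * c + 1))) := by
    funext w
    unfold Phi
    have h1 : (x * c + 1) + w ^ 2 * (y * c + 1) ≠ 0 := by positivity
    have h2 : w ^ 2 + (x * c + 1) / (y * c + 1) ≠ 0 := by positivity
    field_simp
    ring
  obtain ⟨h1, h2⟩ := UB.int0 ((x * c + 1) / (y * c + 1)) (by positivity)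
  rw [e]
  refine ⟨h1.const_mul _, ?_⟩
  rw [integral_const_mul, h2, Real.sqrt_div hA.le, Real.sqrt_mul hA.le]
  have h3 : 0 < √(x * c + 1) := Real.sqrt_pos.2 hA
  have h4 : 0 < √(y * c + 1) := Real.sqrt_pos.2 hB
  have h5 : √(x * c + 1) * √(x * c + 1) = x * c + 1 := Real.mul_self_sqrt hA.le
  field_simp
  linear_combination (-1 : ℝ) * h5

/-- The remainder. -/
noncomputable def gg (m : ℕ) (C : Fin (m + 1) → ℝ) (x y w : ℝ) : ℝ :=
  w ^ 2 * (y - x) ^ 2 * ((1 + w ^ 2) / (x + w ^ 2 * y)) ^ (m - 2) /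
    ((x + w ^ 2 * y) ^ 3 * ∏ j, (C j + (1 + w ^ 2) / (x + w ^ 2 * y)))

theorem ident (hL : LagStmt) (m : ℕ) (hm : 2 ≤ m) (C : Fin (m + 1) → ℝ)
    (hC : Function.Injective C) (hpos : ∀ j, 0 < C j) (x y w : ℝ) (hx : 0 < x) (hy : 0 < y) :
    ∑ j, C j ^ (m - 2) * Phi x y w (C j) / ∏ l ∈ univ.erase j, (C j - C l) =
      - gg m C x y w := by
  have hD : 0 < x + w ^ 2 * y := by positivity
  set τ : ℝ := (1 + w ^ 2) / (x + w ^ 2 * y) with hτ
  have hτ0 : 0 < τ := by positivity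
  set Q : Polynomial ℝ := Polynomial.C (1 / (x + w ^ 2 * y)) * (Polynomial.X ^ (m - 2) *
    ((Polynomial.C x * Polynomial.X + 1) * (Polynomial.C y * Polynomial.X + 1))) with hQ
  have hQd : Q.natDegree ≤ m := by
    have h1 : (Polynomial.C x * Polynomial.X + 1 : Polynomial ℝ).natDegree ≤ 1 := by
      compute_degree
    have h2 : (Polynomial.C y * Polynomial.X + 1 : Polynomial ℝ).natDegree ≤ 1 := by
      compute_degree
    have h3 : ((Polynomial.C x * Polynomial.X + 1) *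
        (Polynomial.C y * Polynomial.X + 1) : Polynomial ℝ).natDegree ≤ 1 + 1 :=
      Polynomial.natDegree_mul_le_of_le h1 h2
    have h4 : ((Polynomial.X : Polynomial ℝ) ^ (m - 2)).natDegree ≤ m - 2 := by
      rw [Polynomial.natDegree_X_pow]
    have h5 := Polynomial.natDegree_mul_le_of_le h4 h3
    have h6 := Polynomial.natDegree_mul_le_of_le
      (Polynomial.natDegree_C (1 / (x + w ^ 2 * y))).le h5
    refine h6.trans ?_
    omega
  have hQe : ∀ c : ℝ, Q.eval c = c ^ (m - 2) * ((x * c + 1) * (y * c + 1)) / (x + w ^ 2 * y) := by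
    intro c
    rw [hQ]
    simp only [Polynomial.eval_mul, Polynomial.eval_C, Polynomial.eval_pow, Polynomial.eval_X,
      Polynomial.eval_add, Polynomial.eval_one]
    ring
  have h := hL m C τ Q hC (fun j => (add_pos (hpos j) hτ0).ne') hQd
  have hl : ∀ j, C j ^ (m - 2) * Phi x y w (C j) / ∏ l ∈ univ.erase j, (C j - C l) =
      Q.eval (C j) / ((C j + τ) * ∏ l ∈ univ.erase j, (C j - C l)) := by
    intro j
    rw [hQe, Phi]
    have h1 : (x + w ^ 2 * y) * (C j + τ) = (x * C j + 1) + w ^ 2 * (y * C j + 1) := by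
      rw [hτ]
      field_simp
      ring
    rw [← h1, ← div_div, ← div_div, ← mul_div_assoc, ← mul_div_assoc]
  rw [Finset.sum_congr rfl (fun j _ => hl j), h, hQe, gg, ← hτ]
  have hx1 : 1 - x * τ = w ^ 2 * (y - x) / (x + w ^ 2 * y) := by
    rw [hτ]
    field_simp
    ring
  have hy1 : 1 - y * τ = -(y - x) / (x + w ^ 2 * y) := by
    rw [hτ]
    field_simp
    ring
  have hx2 : x * (-τ) + 1 = w ^ 2 * (y - x) / (x + w ^ 2 * y) := by rw [← hx1]; ring
  have hy2 : y * (-τ) + 1 = -(y - x) / (x + w ^ 2 * y) := by rw [← hy1]; ring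
  have hs : (-1 : ℝ) ^ m * (-τ) ^ (m - 2) = τ ^ (m - 2) := by
    have e1 : (-1 : ℝ) ^ m = (-1) ^ (m - 2) := by
      have : m = (m - 2) + 2 := by omega
      conv_lhs => rw [this, pow_add]
      norm_num
    rw [e1, neg_pow τ, ← mul_assoc, ← mul_pow]
    norm_num
  have hP : 0 < ∏ j, (C j + τ) := prod_pos fun j _ => add_pos (hpos j) hτ0
  rw [hx2, hy2]
  have e2 : (-1 : ℝ) ^ m * ((-τ) ^ (m - 2) * (w ^ 2 * (y - x) / (x + w ^ 2 * y) *
      (-(y - x) / (x + w ^ 2 * y))) / (x + w ^ 2 * y)) / ∏ j, (C j + τ) =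
      ((-1 : ℝ) ^ m * (-τ) ^ (m - 2)) * (w ^ 2 * (y - x) / (x + w ^ 2 * y) *
      (-(y - x) / (x + w ^ 2 * y))) / (x + w ^ 2 * y) / ∏ j, (C j + τ) := by ring
  rw [e2, hs]
  field_simp

theorem gg_nonneg (m : ℕ) (C : Fin (m + 1) → ℝ) (hpos : ∀ j, 0 < C j) (x y w : ℝ) (hx : 0 < x)
    (hy : 0 < y) : 0 ≤ gg m C x y w := by
  have hD : 0 < x + w ^ 2 * y := by positivity
  have hτ0 : 0 < (1 + w ^ 2) / (x + w ^ 2 * y) := by positivity
  have hP : 0 < ∏ j, (C j + (1 + w ^ 2) / (x + w ^ 2 * y)) :=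
    prod_pos fun j _ => add_pos (hpos j) hτ0
  unfold gg
  positivity

theorem gg_pos (m : ℕ) (C : Fin (m + 1) → ℝ) (hpos : ∀ j, 0 < C j) (x y w : ℝ) (hx : 0 < x)
    (hxy : x < y) (hw : w ≠ 0) : 0 < gg m C x y w := by
  have hy : 0 < y := hx.trans hxy
  have hD : 0 < x + w ^ 2 * y := by positivity
  have hτ0 : 0 < (1 + w ^ 2) / (x + w ^ 2 * y) := by positivity
  have hP : 0 < ∏ j, (C j + (1 + w ^ 2) / (x + w ^ 2 * y)) :=
    prod_pos fun j _ => add_pos (hpos j) hτ0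
  have h1 : 0 < y - x := sub_pos.mpr hxy
  unfold gg
  positivity

theorem gg_le (m : ℕ) (C : Fin (m + 1) → ℝ) (hpos : ∀ j, 0 < C j) (x y w : ℝ) (hx : 0 < x)
    (hxy : x < y) : gg m C x y w ≤
      y ^ 2 * (1 / x) ^ (m - 2) / (4 * x * y * ∏ j, C j) * (1 / (x + w ^ 2 * y)) := by
  have hy : 0 < y := hx.trans hxy
  have hD : 0 < x + w ^ 2 * y := by positivity
  have hτ0 : 0 < (1 + w ^ 2) / (x + w ^ 2 * y) := by positivity
  have hτ1 : (1 + w ^ 2) / (x + w ^ 2 * y) ≤ 1 / x := by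
    rw [div_le_div_iff₀ hD hx]
    have : w ^ 2 * x ≤ w ^ 2 * y := mul_le_mul_of_nonneg_left hxy.le (sq_nonneg w)
    linarith
  have hPC : 0 < ∏ j, C j := prod_pos fun j _ => hpos j
  have hP : ∏ j, C j ≤ ∏ j, (C j + (1 + w ^ 2) / (x + w ^ 2 * y)) :=
    prod_le_prod (fun j _ => (hpos j).le) (fun j _ => by linarith)
  have h1 : (y - x) ^ 2 ≤ y ^ 2 := pow_le_pow_left₀ (by linarith) (by linarith) 2
  have h2 : ((1 + w ^ 2) / (x + w ^ 2 * y)) ^ (m - 2) ≤ (1 / x) ^ (m - 2) :=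
    pow_le_pow_left₀ hτ0.le hτ1 _
  have h3 : w ^ 2 * (4 * x * y) ≤ (x + w ^ 2 * y) ^ 2 := by
    nlinarith [sq_nonneg (x - w ^ 2 * y)]
  have h4 : gg m C x y w ≤ w ^ 2 * y ^ 2 * (1 / x) ^ (m - 2) /
      ((x + w ^ 2 * y) ^ 3 * ∏ j, C j) := by
    unfold gg
    refine div_le_div₀ (by positivity) ?_ (by positivity) ?_
    · exact mul_le_mul (mul_le_mul_of_nonneg_left h1 (sq_nonneg w)) h2 (by positivity)
        (by positivity)
    · exact mul_le_mul_of_nonneg_left hP (by positivity)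
  refine h4.trans ?_
  have h5 : y ^ 2 * (1 / x) ^ (m - 2) / (4 * x * y * ∏ j, C j) * (1 / (x + w ^ 2 * y)) =
      (x + w ^ 2 * y) ^ 2 * (y ^ 2 * (1 / x) ^ (m - 2)) /
        ((4 * x * y) * ((x + w ^ 2 * y) ^ 3 * ∏ j, C j)) := by
    field_simp
  have h6 : w ^ 2 * y ^ 2 * (1 / x) ^ (m - 2) / ((x + w ^ 2 * y) ^ 3 * ∏ j, C j) =
      w ^ 2 * (4 * x * y) * (y ^ 2 * (1 / x) ^ (m - 2)) /
        ((4 * x * y) * ((x + w ^ 2 * y) ^ 3 * ∏ j, C j)) := by
    field_simp
  rw [h5, h6]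
  refine div_le_div_of_nonneg_right ?_ (by positivity)
  exact mul_le_mul_of_nonneg_right h3 (by positivity)

theorem intD (x y : ℝ) (hx : 0 < x) (hy : 0 < y) :
    Integrable (fun w : ℝ => 1 / (x + w ^ 2 * y)) ∧
      ∫ w : ℝ, 1 / (x + w ^ 2 * y) = π / √(x * y) := by
  have e : (fun w : ℝ => 1 / (x + w ^ 2 * y)) =
      fun w : ℝ => (1 / y) * (1 / (w ^ 2 + x / y)) := by
    funext w
    have h1 : x + w ^ 2 * y ≠ 0 := by positivity
    have h2 : w ^ 2 + x / y ≠ 0 := by positivity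
    field_simp
    ring
  obtain ⟨h1, h2⟩ := UB.int0 (x / y) (by positivity)
  rw [e]
  refine ⟨h1.const_mul _, ?_⟩
  rw [integral_const_mul, h2, Real.sqrt_div hx.le, Real.sqrt_mul hx.le]
  have h3 : 0 < √x := Real.sqrt_pos.2 hx
  have h4 : 0 < √y := Real.sqrt_pos.2 hy
  have h5 : √y * √y = y := Real.mul_self_sqrt hy.le
  field_simp
  linear_combination h5

/-- The divided difference. -/
noncomputable def S (m : ℕ) (C : Fin (m + 1) → ℝ) (x y : ℝ) : ℝ :=
  ∑ j, C j ^ (m - 2) * √((x * C j + 1) * (y * C j + 1)) / ∏ l ∈ univ.erase j, (C j - C l)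

theorem S_bounds (hL : LagStmt) (m : ℕ) (hm : 2 ≤ m) (C : Fin (m + 1) → ℝ)
    (hC : Function.Injective C) (hpos : ∀ j, 0 < C j) (x y : ℝ) (hx : 0 < x) (hxy : x < y) :
    0 < - S m C x y ∧
      - S m C x y ≤ y ^ 2 * (1 / x) ^ (m - 2) / (4 * x * y * ∏ j, C j) * (1 / √(x * y)) := by
  have hy : 0 < y := hx.trans hxy
  have hi := fun j => Phi_int x y (C j) hx hy (hpos j)
  have e1 : (fun w => gg m C x y w) = fun w => - ∑ j, (C j ^ (m - 2) /
      ∏ l ∈ univ.erase j, (C j - C l)) * Phi x y w (C j) := by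
    funext w
    have h1 := ident hL m hm C hC hpos x y w hx hy
    have h2 : gg m C x y w = - ∑ j, C j ^ (m - 2) * Phi x y w (C j) /
        ∏ l ∈ univ.erase j, (C j - C l) := by rw [h1, neg_neg]
    rw [h2]
    congr 1
    refine Finset.sum_congr rfl fun j _ => ?_
    ring
  have hint : Integrable (fun w => gg m C x y w) := by
    rw [e1]
    exact (integrable_finsetSum _ fun j _ => (hi j).1.const_mul _).neg
  have hval : ∫ w, gg m C x y w = π * (- S m C x y) := by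
    rw [e1, integral_neg, integral_finsetSum _ fun j _ => (hi j).1.const_mul _, S, mul_neg,
      Finset.mul_sum]
    congr 1
    refine Finset.sum_congr rfl fun j _ => ?_
    rw [integral_const_mul, (hi j).2]
    ring
  have hpos1 : 0 < ∫ w, gg m C x y w := by
    rw [integral_pos_iff_support_of_nonneg (fun w => gg_nonneg m C hpos x y w hx hy) hint]
    refine lt_of_lt_of_le ?_ (measure_mono (s := Set.Ioi (0 : ℝ)) ?_)
    · rw [Real.volume_Ioi]
      exact ENNReal.coe_lt_top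
    · intro w hw
      exact (gg_pos m C hpos x y w hx hxy (ne_of_gt hw)).ne'
  obtain ⟨d1, d2⟩ := intD x y hx hy
  have hle : ∫ w, gg m C x y w ≤
      y ^ 2 * (1 / x) ^ (m - 2) / (4 * x * y * ∏ j, C j) * (π / √(x * y)) := by
    rw [← d2, ← integral_const_mul]
    exact integral_mono hint (d1.const_mul _) fun w => gg_le m C hpos x y w hx hxy
  rw [hval] at hpos1 hle
  have hpi := Real.pi_pos
  refine ⟨(mul_pos_iff_of_pos_left hpi).mp hpos1, ?_⟩
  have h7 : y ^ 2 * (1 / x) ^ (m - 2) / (4 * x * y * ∏ j, C j) * (π / √(x * y)) =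
      π * (y ^ 2 * (1 / x) ^ (m - 2) / (4 * x * y * ∏ j, C j) * (1 / √(x * y))) := by ring
  rw [h7] at hle
  exact le_of_mul_le_mul_left hle hpi

/-- Row GM. -/
theorem row (hL : LagStmt) : GmStmt := by
  intro m hm c x y hc h0 hx hxy hX hY
  -- the integer
  have hcz : StrictMono (fun j => (c j : ℤ)) := fun i j hij => Int.ofNat_lt.mpr (hc hij)
  choose q hq using fun j => dvd_vand (fun j => (c j : ℤ)) j
  choose u hu using hX
  choose v hv using hY
  set C : Fin (m + 1) → ℝ := fun j => (c j : ℝ) with hCdef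
  have hCinj : Function.Injective C := fun i j hij => hc.injective (Nat.cast_injective hij)
  have hcpos : ∀ j, 0 < c j := fun j => lt_of_lt_of_le h0 (hc.monotone (Fin.zero_le j))
  have hCpos : ∀ j, 0 < C j := fun j => Nat.cast_pos.mpr (hcpos j)
  have hxR : (0 : ℝ) < x := by exact_mod_cast hx
  have hxyR : (x : ℝ) < y := by exact_mod_cast hxy
  have hyR : (0 : ℝ) < y := hxR.trans hxyR
  obtain ⟨s1, s2⟩ := S_bounds hL m hm C hCinj hCpos x y hxR hxyR
  set V : ℤ := vand (fun j => (c j : ℤ)) with hV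
  have hVpos : 0 < V := vand_pos _ hcz
  have hVR : (0 : ℝ) < V := by exact_mod_cast hVpos
  have hroot : ∀ j, √(((x : ℝ) * C j + 1) * ((y : ℝ) * C j + 1)) = (u j : ℝ) * v j := by
    intro j
    have e1 : ((x : ℝ) * (c j : ℝ) + 1) = (u j : ℝ) * u j := by exact_mod_cast hu j
    have e2 : ((y : ℝ) * (c j : ℝ) + 1) = (v j : ℝ) * v j := by exact_mod_cast hv j
    show √(((x : ℝ) * (c j : ℝ) + 1) * ((y : ℝ) * (c j : ℝ) + 1)) = (u j : ℝ) * v j
    rw [e1, e2]
    have e3 : (u j : ℝ) * u j * ((v j : ℝ) * v j) = ((u j : ℝ) * v j) ^ 2 := by ring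
    rw [e3, Real.sqrt_sq (by positivity)]
  have hZ : ((∑ j, q j * ((c j : ℤ) ^ (m - 2) * (u j * v j)) : ℤ) : ℝ) = V * S m C x y := by
    rw [S, Finset.mul_sum, Int.cast_sum]
    refine Finset.sum_congr rfl fun j _ => ?_
    rw [hroot]
    have e1 : (V : ℝ) = (∏ l ∈ univ.erase j, (C j - C l)) * q j := by
      have h1 : ((vand (fun j => (c j : ℤ)) : ℤ) : ℝ) =
          (((∏ l ∈ univ.erase j, ((c j : ℤ) - (c l : ℤ))) * q j : ℤ) : ℝ) := by
        exact_mod_cast hq j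
      rw [hV, h1]
      push_cast
      rfl
    have e2 : ∏ l ∈ univ.erase j, (C j - C l) ≠ 0 := by
      rw [prod_ne_zero_iff]
      intro l hl h1
      exact (Finset.ne_of_mem_erase hl) (hCinj (sub_eq_zero.mp h1)).symm
    rw [e1]
    push_cast
    have e3 : C j = (c j : ℝ) := rfl
    rw [← e3]
    field_simp
  set Z : ℤ := ∑ j, q j * ((c j : ℤ) ^ (m - 2) * (u j * v j)) with hZdef
  have hZneg : Z < 0 := by
    have h1 : (Z : ℝ) < 0 := by
      rw [hZ]
      have := mul_pos hVR s1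
      linarith
    exact_mod_cast h1
  have hZ1 : (1 : ℝ) ≤ V * (- S m C x y) := by
    have h1 : (Z : ℝ) ≤ -1 := by exact_mod_cast (by omega : Z ≤ -1)
    rw [hZ] at h1
    linarith
  set P : ℝ := ∏ j, C j with hP
  have hPpos : 0 < P := prod_pos fun j _ => hCpos j
  have hsq : 0 < √((x : ℝ) * y) := Real.sqrt_pos.2 (by positivity)
  have h1 : (1 : ℝ) ≤ V * ((y : ℝ) ^ 2 * (1 / x) ^ (m - 2) / (4 * x * y * P) *
      (1 / √((x : ℝ) * y))) := hZ1.trans (mul_le_mul_of_nonneg_left s2 hVR.le)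
  have h2 : 4 * (x : ℝ) ^ (m - 1) * √((x : ℝ) * y) * P ≤ V * y := by
    have hm1 : (x : ℝ) ^ (m - 1) = x ^ (m - 2) * x := by
      rw [← pow_succ]
      congr 1
      omega
    have e1 : V * ((y : ℝ) ^ 2 * (1 / x) ^ (m - 2) / (4 * x * y * P) *
        (1 / √((x : ℝ) * y))) = V * y / (4 * (x : ℝ) ^ (m - 1) * √((x : ℝ) * y) * P) := by
      rw [hm1, one_div, inv_pow]
      field_simp
    rw [e1, le_div_iff₀ (by positivity), one_mul] at h1
    exact h1
  have h3 := pow_le_pow_left₀ (by positivity) h2 2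
  have h4 : (4 * (x : ℝ) ^ (m - 1) * √((x : ℝ) * y) * P) ^ 2 =
      y * (16 * (x : ℝ) ^ (2 * m - 1) * P ^ 2) := by
    have e1 : (√((x : ℝ) * y)) ^ 2 = x * y := Real.sq_sqrt (by positivity)
    have e2 : (x : ℝ) ^ (2 * m - 1) = ((x : ℝ) ^ (m - 1)) ^ 2 * x := by
      rw [← pow_mul, ← pow_succ]
      congr 1
      omega
    rw [mul_pow, mul_pow, mul_pow, e1, e2]
    ring
  have h5 : (V * (y : ℝ)) ^ 2 = y * ((V : ℝ) ^ 2 * y) := by ring
  rw [h4, h5] at h3
  have h6 := le_of_mul_le_mul_left h3 hyR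
  have h7 : (V : ℝ) ^ 2 ≤ (c (Fin.last m) : ℝ) ^ (m * (m - 1)) * P ^ 2 := by
    have h8 := vand_le m (fun j => (c j : ℤ)) hcz (by exact_mod_cast h0)
    have h9 : ((vand (fun j => (c j : ℤ)) ^ 2 : ℤ) : ℝ) ≤
        (((c (Fin.last m) : ℤ) ^ (m * (m - 1)) * (∏ j, (c j : ℤ)) ^ 2 : ℤ) : ℝ) := by
      exact_mod_cast h8
    push_cast at h9
    exact h9
  have h10 : 16 * (x : ℝ) ^ (2 * m - 1) * P ^ 2 ≤
      (c (Fin.last m) : ℝ) ^ (m * (m - 1)) * y * P ^ 2 := by
    calc 16 * (x : ℝ) ^ (2 * m - 1) * P ^ 2 ≤ (V : ℝ) ^ 2 * y := h6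
      _ ≤ (c (Fin.last m) : ℝ) ^ (m * (m - 1)) * P ^ 2 * y :=
        mul_le_mul_of_nonneg_right h7 hyR.le
      _ = (c (Fin.last m) : ℝ) ^ (m * (m - 1)) * y * P ^ 2 := by ring
  have h11 := le_of_mul_le_mul_right h10 (by positivity)
  have h12 : (0 : ℝ) ≤ (x : ℝ) ^ (2 * m - 1) := by positivity
  have h13 : (x : ℝ) ^ (2 * m - 1) ≤ (c (Fin.last m) : ℝ) ^ (m * (m - 1)) * y := by linarith
  exact_mod_cast h13

end Pool.Agent.Helper83.KM.R4GM
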