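import Mathlib
import Pool.Agent.Helper83.KM.Stm
import Pool.Agent.Helper83.KM.Stm2

namespace Pool.Agent.Helper83.KM

open Finset MeasureTheory Real

/-- Row LAG: the Lagrange identity. -/
def LagStmt : Prop :=
  ∀ (m : ℕ) (c : Fin (m + 1) → ℝ) (τ : ℝ) (Q : Polynomial ℝ), Function.Injective c →
    (∀ j, c j + τ ≠ 0) → Q.natDegree ≤ m →
    ∑ j, Q.eval (c j) / ((c j + τ) * ∏ l ∈ univ.erase j, (c j - c l)) =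
      (-1) ^ m * Q.eval (-τ) / ∏ j, (c j + τ)

/-- Row GM: the gap principle for two common neighbours of `m + 1` integers. -/
def GmStmt : Prop :=
  ∀ (m : ℕ), 2 ≤ m → ∀ (c : Fin (m + 1) → ℕ) (x y : ℕ), StrictMono c → 0 < c 0 → 0 < x → x < y →
    (∀ j, IsSquare (x * c j + 1)) → (∀ j, IsSquare (y * c j + 1)) →
    x ^ (2 * m - 1) ≤ c (Fin.last m) ^ (m * (m - 1)) * y

/-- Row ONE: ten positive integers have at most one common neighbour that is large. -/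
def OneStmt : Prop :=
  ∀ (c : Fin 10 → ℕ) (x y : ℕ), StrictMono c → 0 < c 0 → 0 < x → x < y →
    (∀ j, IsSquare (x * c j + 1)) → (∀ j, IsSquare (y * c j + 1)) → x < c 9 ^ 73

/-- Row NORM: the zeros of a nontrivial relation. -/
def NormStmt : Prop :=
  ∀ (n a₁ a₂ a₃ : ℕ), 0 < a₁ → a₁ < a₂ → a₂ < a₃ → ∀ P Q R : Polynomial ℤ,
    P.natDegree < n → Q.natDegree < n → R.natDegree < n → ¬ (P = 0 ∧ Q = 0 ∧ R = 0) →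
    ∀ S : Finset ℕ, (∀ b ∈ S, ∃ x y z : ℤ, x ^ 2 = a₁ * b + 1 ∧ y ^ 2 = a₂ * b + 1 ∧
      z ^ 2 = a₃ * b + 1 ∧ P.eval (b : ℤ) * x + Q.eval (b : ℤ) * y + R.eval (b : ℤ) * z = 0) →
    S.card ≤ 4 * n

/-- Row TAY: approximation of `√(a + t)` by polynomials in `t`, uniformly in `a ≥ 1`. -/
def TayStmt : Prop :=
  ∀ Q : ℕ, ∃ K : ℝ, 1 ≤ K ∧ ∀ a : ℝ, 1 ≤ a → ∃ γ : ℕ → ℝ, (∀ q, |γ q| ≤ K * √a) ∧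
    ∀ t : ℝ, 0 ≤ t → t ≤ 1 →
      |√(a + t) - ∑ q ∈ range Q, γ q * t ^ q| ≤ K * √a * t ^ Q

/-- Row BOX: the pigeonhole principle for real linear forms. -/
def BoxStmt : Prop :=
  ∀ (ι κ : Type) [Fintype ι] [Fintype κ] (H : ℕ) (φ : κ → ι → ℝ) (R : ℝ) (η : κ → ℝ),
    0 ≤ R → (∀ i, 0 < η i) → (∀ i, (∑ j, |φ i j|) * H ≤ R) →
    ∏ i, (R / η i + 1) < ((H : ℝ) + 1) ^ Fintype.card ι →
    ∃ v : ι → ℤ, v ≠ 0 ∧ (∀ j, |v j| ≤ H) ∧ ∀ i, |∑ j, φ i j * v j| ≤ η i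

/-- Row AUX: auxiliary polynomials. -/
def AuxStmt : Prop :=
  ∀ C : ℕ, ∃ n Y₀ : ℕ, ∀ a₁ a₂ a₃ Y : ℕ, 0 < a₁ → a₁ < a₂ → a₂ < a₃ → a₃ ≤ Y ^ C → Y₀ ≤ Y →
    ∃ P Q R : Polynomial ℤ, P.natDegree < n ∧ Q.natDegree < n ∧ R.natDegree < n ∧
      ¬ (P = 0 ∧ Q = 0 ∧ R = 0) ∧ ∀ b : ℕ, Y ≤ b → b ^ 4 ≤ Y ^ 5 →
        |((P.eval (b : ℤ) : ℤ) : ℝ) * √(a₁ * b + 1) + ((Q.eval (b : ℤ) : ℤ) : ℝ) * √(a₂ * b + 1) +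
          ((R.eval (b : ℤ) : ℤ) : ℝ) * √(a₃ * b + 1)| < 1

/-- Row CLUSTER (from AUX, NORM). -/
def ClusterStmt : Prop :=
  ∀ C : ℕ, ∃ M Y₀ : ℕ, ∀ a₁ a₂ a₃ Y : ℕ, 0 < a₁ → a₁ < a₂ → a₂ < a₃ → a₃ ≤ Y ^ C → Y₀ ≤ Y →
    ∀ S : Finset ℕ, (∀ b ∈ S, Y ≤ b ∧ b ^ 4 ≤ Y ^ 5 ∧ IsSquare (a₁ * b + 1) ∧
      IsSquare (a₂ * b + 1) ∧ IsSquare (a₃ * b + 1)) → S.card ≤ M

/-- Row RANGE (from CLUSTER). -/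
def RangeStmt : Prop :=
  ∀ C : ℕ, ∃ N : ℕ, ∀ a₁ a₂ a₃ Y : ℕ, 0 < a₁ → a₁ < a₂ → a₂ < a₃ → a₃ ≤ Y ^ C →
    ∀ S : Finset ℕ, (∀ b ∈ S, Y ≤ b ∧ b ≤ Y ^ C ∧ IsSquare (a₁ * b + 1) ∧
      IsSquare (a₂ * b + 1) ∧ IsSquare (a₃ * b + 1)) → S.card ≤ N

/-- Row K4 (from TRIPLE, ONE, RANGE). -/
def K4Stmt : Prop :=
  ∃ N : ℕ, ∀ A B : Finset ℕ, (∀ a ∈ A, 0 < a) → (∀ b ∈ B, 0 < b) →
    (∀ a ∈ A, ∀ b ∈ B, IsSquare (a * b + 1)) → A.card ≤ 3 ∨ B.card ≤ N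

end Pool.Agent.Helper83.KM
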