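import Mathlib
import Pool.Agent.Helper83.KM.Stm4

namespace Pool.Agent.Helper83.KM.R4Graph

open Finset

/-- No Diophantine graph contains `K_{4,N}`, for some absolute `N`. -/
def K4GraphStmt : Prop :=
  ∃ N : ℕ, ∀ (V : Type) (G : SimpleGraph V), Pool.Agent.Helper56.Dio.IsDiophantine G →
    ¬ (completeBipartiteGraph (Fin 4) (Fin N)).IsContained G

theorem row (h4 : K4Stmt) : K4GraphStmt := by
  obtain ⟨N, hN⟩ := h4
  refine ⟨N + 1, ?_⟩
  intro V G hG hc
  obtain ⟨f, hpos, hinj, hadj⟩ := hG
  obtain ⟨c⟩ := hc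
  have hcinj : Function.Injective c := c.injective
  have hl : Function.Injective (fun i : Fin 4 => f (c (Sum.inl i))) := by
    intro i j hij
    exact Sum.inl_injective (hcinj (hinj hij))
  have hr : Function.Injective (fun i : Fin (N + 1) => f (c (Sum.inr i))) := by
    intro i j hij
    exact Sum.inr_injective (hcinj (hinj hij))
  have h := hN (univ.image (fun i : Fin 4 => f (c (Sum.inl i))))
    (univ.image (fun i : Fin (N + 1) => f (c (Sum.inr i)))) ?_ ?_ ?_
  · rw [card_image_of_injective _ hl, card_image_of_injective _ hr, card_univ, card_univ,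
      Fintype.card_fin, Fintype.card_fin] at h
    omega
  · intro a ha
    obtain ⟨i, _, rfl⟩ := mem_image.mp ha
    exact hpos _
  · intro a ha
    obtain ⟨i, _, rfl⟩ := mem_image.mp ha
    exact hpos _
  · intro a ha b hb
    obtain ⟨i, _, rfl⟩ := mem_image.mp ha
    obtain ⟨j, _, rfl⟩ := mem_image.mp hb
    have had : G.Adj (c (Sum.inl i)) (c (Sum.inr j)) := by
      apply c.toHom.map_adj
      simp [completeBipartiteGraph]
    exact (hadj _ _ had.ne).mp had

end Pool.Agent.Helper83.KM.R4Graph
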