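import Pool.Agent.Helper83.KM.Stm4

namespace Pool.Agent.Helper83.KM.R4K4

theorem not_sq {a : ℕ} (ha : 0 < a) : ¬ IsSquare (a * a + 1) := by
  rintro ⟨r, hr⟩
  have h1 : a < r := by
    by_contra h
    have h2 : r * r ≤ a * a := Nat.mul_le_mul (by omega) (by omega)
    omega
  have h3 : (a + 1) * (a + 1) ≤ r * r := Nat.mul_le_mul h1 h1
  have h4 : (a + 1) * (a + 1) = a * a + 2 * a + 1 := by ring
  omega

/-- Row K4 -/
theorem row (ht : TripleStmt) (ho : OneStmt) (hr : RangeStmt) : K4Stmt := by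
  classical
  obtain ⟨N, hN⟩ := hr 73
  refine ⟨N + 25, ?_⟩
  intro A B hA hB h
  by_contra hc
  rw [not_or, not_le, not_le] at hc
  obtain ⟨A', hA', cA⟩ := Finset.exists_subset_card_eq (show 4 ≤ A.card by omega)
  have ma : ∀ i, A'.orderEmbOfFin cA i ∈ A := fun i => hA' (Finset.orderEmbOfFin_mem A' cA i)
  obtain ⟨a, hadef⟩ : ∃ a : Fin 4 → ℕ, a = A'.orderEmbOfFin cA := ⟨_, rfl⟩
  have hmono : StrictMono a := by rw [hadef]; exact (A'.orderEmbOfFin cA).strictMono
  have ma' : ∀ i, a i ∈ A := by intro i; rw [hadef]; exact ma i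
  have h01 : a 0 < a 1 := hmono (by decide)
  have h12 : a 1 < a 2 := hmono (by decide)
  have h23 : a 2 < a 3 := hmono (by decide)
  have h0 : 0 < a 0 := hA _ (ma' 0)
  -- the neighbours above `a 2`
  have hB1 : (B.filter (fun b => a 2 < b)).card ≤ 10 := by
    refine ht (a 0) (a 1) (a 2) h0 h01 h12 _ ?_
    intro b hb
    rw [Finset.mem_filter] at hb
    exact ⟨hb.2, h _ (ma' 0) _ hb.1, h _ (ma' 1) _ hb.1, h _ (ma' 2) _ hb.1⟩
  obtain ⟨B', hB'⟩ : ∃ B', B' = B.filter (fun b => b < a 2) := ⟨_, rfl⟩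
  have hmem : ∀ b, b ∈ B' → b ∈ B ∧ b < a 2 := by
    intro b hb
    rw [hB', Finset.mem_filter] at hb
    exact hb
  have hcard : N + 16 ≤ B'.card := by
    have h1 : B ⊆ B.filter (fun b => a 2 < b) ∪ B' := by
      intro b hb
      rw [Finset.mem_union, hB', Finset.mem_filter, Finset.mem_filter]
      rcases lt_trichotomy b (a 2) with h2 | h2 | h2
      · exact Or.inr ⟨hb, h2⟩
      · exfalso
        have h3 := h _ (ma' 2) _ hb
        rw [h2] at h3
        exact not_sq (hA _ (ma' 2)) h3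
      · exact Or.inl ⟨hb, h2⟩
    have h2 := (Finset.card_le_card h1).trans (Finset.card_union_le _ _)
    omega
  obtain ⟨e, he⟩ : ∃ e : Fin B'.card ↪o ℕ, e = B'.orderEmbOfFin rfl := ⟨_, rfl⟩
  have me : ∀ i, e i ∈ B' := by intro i; rw [he]; exact Finset.orderEmbOfFin_mem B' rfl i
  have hlt : ∀ i : Fin 10, (i : ℕ) < B'.card := fun i => by omega
  have hx := ho (fun i => e ⟨i, hlt i⟩) (a 2) (a 3) (by
    intro i j hij
    exact e.strictMono (by rw [Fin.mk_lt_mk]; exact hij))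
    (hB _ (hmem _ (me _)).1) (by omega) h23
    (fun j => h _ (ma' 2) _ (hmem _ (me _)).1) (fun j => h _ (ma' 3) _ (hmem _ (me _)).1)
  obtain ⟨Y, hY⟩ : ∃ Y, Y = e ⟨9, by omega⟩ := ⟨_, rfl⟩
  have hx' : a 2 < Y ^ 73 := by rw [hY]; exact hx
  have hS : (B'.filter (fun b => Y ≤ b)).card ≤ N := by
    refine hN (a 0) (a 1) (a 2) Y h0 h01 h12 hx'.le _ ?_
    intro b hb
    rw [Finset.mem_filter] at hb
    obtain ⟨hb1, hb2⟩ := hmem _ hb.1
    exact ⟨hb.2, by omega, h _ (ma' 0) _ hb1, h _ (ma' 1) _ hb1, h _ (ma' 2) _ hb1⟩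
  have hS2 : (B'.filter (fun b => ¬ Y ≤ b)).card ≤ 9 := by
    have h1 : B'.filter (fun b => ¬ Y ≤ b) ⊆
        Finset.univ.image (fun i : Fin 9 => e ⟨i, by omega⟩) := by
      intro b hb
      rw [Finset.mem_filter] at hb
      have h2 : b ∈ Set.range e := by
        rw [he, Finset.range_orderEmbOfFin]
        exact hb.1
      obtain ⟨j, hj⟩ := h2
      have h3 : e j < e ⟨9, by omega⟩ := by rw [hj, ← hY]; omega
      have h4 : j < ⟨9, by omega⟩ := e.lt_iff_lt.1 h3
      rw [Finset.mem_image]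
      refine ⟨⟨j, ?_⟩, Finset.mem_univ _, ?_⟩
      · exact h4
      · rw [← hj]
    have h2 := (Finset.card_le_card h1).trans Finset.card_image_le
    rw [Finset.card_univ, Fintype.card_fin] at h2
    exact h2
  have hsum := Finset.card_filter_add_card_filter_not (s := B') (fun b => Y ≤ b)
  omega

end Pool.Agent.Helper83.KM.R4K4
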