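import Pool.Agent.Helper83.KM.Stm4

/-! Row LAG of the K_{4,N} sheet (typed by helper28). -/

set_option autoImplicit false

namespace Pool.Agent.Helper83.KM.R4LAG

open Finset Polynomial Pool.Agent.Helper83.KM

theorem row : LagStmt := by
  intro m c τ Q hc hτ hQ
  have hdeg : Q.degree < ((univ : Finset (Fin (m + 1))).card : WithBot ℕ) := by
    rw [card_univ, Fintype.card_fin]
    refine lt_of_le_of_lt degree_le_natDegree ?_
    exact_mod_cast Nat.lt_succ_of_le hQ
  have h := Lagrange.eq_interpolate (s := univ) (v := c) hc.injOn hdeg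
  have h1 : Q.eval (-τ) =
      ∑ j, Q.eval (c j) * ∏ l ∈ univ.erase j, ((c j - c l)⁻¹ * (-τ - c l)) := by
    conv_lhs => rw [h]
    rw [Lagrange.interpolate_apply, eval_finsetSum]
    refine sum_congr rfl fun j _ => ?_
    rw [eval_mul, eval_C, Lagrange.basis, eval_prod]
    congr 1
    refine prod_congr rfl fun l _ => ?_
    rw [Lagrange.basisDivisor, eval_mul, eval_C, eval_sub, eval_X, eval_C]
  rw [h1, mul_sum, sum_div]
  refine sum_congr rfl fun j _ => ?_
  have e1 : ∏ l ∈ univ.erase j, ((c j - c l)⁻¹ * (-τ - c l)) =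
      (∏ l ∈ univ.erase j, (c j - c l))⁻¹ * ((-1) ^ m * ∏ l ∈ univ.erase j, (c l + τ)) := by
    rw [prod_mul_distrib, prod_inv_distrib]
    congr 1
    have e2 : ∀ l ∈ univ.erase j, -τ - c l = (-1) * (c l + τ) := by
      intro l _
      ring
    rw [prod_congr rfl e2, prod_mul_distrib, prod_const, card_erase_of_mem (mem_univ j),
      card_univ, Fintype.card_fin, Nat.add_sub_cancel]
  rw [e1, ← mul_prod_erase univ (fun l => c l + τ) (mem_univ j)]
  have h2 : ∏ l ∈ univ.erase j, (c l + τ) ≠ 0 := prod_ne_zero_iff.2 fun l _ => hτ l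
  have h3 : ∏ l ∈ univ.erase j, (c j - c l) ≠ 0 := by
    refine prod_ne_zero_iff.2 fun l hl => ?_
    rw [sub_ne_zero]
    exact fun h => (ne_of_mem_erase hl) (hc h).symm
  have h4 := hτ j
  have h5 : ((-1 : ℝ) ^ m) * (-1) ^ m = 1 := by
    rw [← mul_pow]
    norm_num
  generalize ∏ l ∈ univ.erase j, (c l + τ) = A at *
  generalize ∏ l ∈ univ.erase j, (c j - c l) = B at *
  generalize ((-1 : ℝ) ^ m) = s at *
  rw [div_eq_div_iff (mul_ne_zero h4 h3) (mul_ne_zero h4 h2)]
  have h6 : B⁻¹ * B = 1 := inv_mul_cancel₀ h3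
  linear_combination (-(Q.eval (c j)) * (c j + τ) * A * s * s) * h6 -
    (Q.eval (c j)) * (c j + τ) * A * h5

end Pool.Agent.Helper83.KM.R4LAG
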