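import Mathlib
import Pool.Agent.Helper83.KM.Stm4

/-! Row NORM (helper25): the zeros of a nontrivial relation. -/

set_option autoImplicit false

namespace Pool.Agent.Helper83.KM.R4NORM

open Polynomial

theorem par (a b : ℤ) (ha : a ≠ 0) (hab : a ≠ b) (U V : ℤ[X])
    (h : U ^ 2 = V ^ 2 * ((C a * X + 1) * (C b * X + 1))) : V = 0 := by
  by_contra hV
  have h1 : V ∣ U := by
    rw [← IsIntegrallyClosed.pow_dvd_pow_iff (two_ne_zero)]
    exact ⟨_, h⟩
  obtain ⟨W, rfl⟩ := h1
  have h2 : W * W = (C a * X + 1) * (C b * X + 1) := by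
    have h3 : V ^ 2 * (W * W) = V ^ 2 * ((C a * X + 1) * (C b * X + 1)) := by
      rw [← h]
      ring
    exact mul_left_cancel₀ (pow_ne_zero 2 hV) h3
  have ha' : (a : ℚ) ≠ 0 := by exact_mod_cast ha
  have h4 := congrArg (fun p => (p.map (Int.castRingHom ℚ)).eval (-1 / (a : ℚ))) h2
  have h5 := congrArg (fun p => ((derivative p).map (Int.castRingHom ℚ)).eval (-1 / (a : ℚ))) h2
  simp only [Polynomial.map_mul, Polynomial.map_add, Polynomial.map_one, map_C, map_X, eval_mul,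
    eval_add, eval_one, eval_C, eval_X, derivative_mul, derivative_add, derivative_C,
    derivative_X, derivative_one, zero_mul, zero_add, mul_one, add_zero,
    Int.coe_castRingHom] at h4 h5
  have h6 : (a : ℚ) * (-1 / a) + 1 = 0 := by
    field_simp
    ring
  rw [h6, zero_mul] at h4
  have h7 : (W.map (Int.castRingHom ℚ)).eval (-1 / (a : ℚ)) = 0 := by
    rcases mul_eq_zero.mp h4 with h | h <;> exact h
  rw [h7, h6] at h5
  simp only [mul_zero, zero_mul, add_zero] at h5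
  have h8 : (b : ℚ) * (-1 / a) + 1 = 0 := by
    rcases mul_eq_zero.mp h5.symm with h | h
    · exact absurd h ha'
    · exact h
  apply hab
  have h9 : (a : ℚ) = b := by
    field_simp at h8
    linarith
  exact_mod_cast h9

theorem row : NormStmt := by
  intro n a₁ a₂ a₃ h1 h12 h23 P Q R hP hQ hR h0 S hS
  obtain ⟨A₁, hA₁⟩ : ∃ A : ℤ[X], A = C (a₁ : ℤ) * X + 1 := ⟨_, rfl⟩
  obtain ⟨A₂, hA₂⟩ : ∃ A : ℤ[X], A = C (a₂ : ℤ) * X + 1 := ⟨_, rfl⟩
  obtain ⟨A₃, hA₃⟩ : ∃ A : ℤ[X], A = C (a₃ : ℤ) * X + 1 := ⟨_, rfl⟩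
  obtain ⟨U, hU⟩ : ∃ U : ℤ[X], U = R ^ 2 * A₃ - P ^ 2 * A₁ - Q ^ 2 * A₂ := ⟨_, rfl⟩
  obtain ⟨N, hN⟩ : ∃ N : ℤ[X], N = U ^ 2 - (2 * P * Q) ^ 2 * (A₁ * A₂) := ⟨_, rfl⟩
  have hA0 : A₃ ≠ 0 := by
    intro h
    have h' := congrArg (fun p => p.eval 0) h
    simp [hA₃] at h'
  have hN0 : N ≠ 0 := by
    intro h
    rw [hN] at h
    have e0 := sub_eq_zero.mp h
    have e1 : 2 * P * Q = 0 := by
      refine par a₁ a₂ (by omega) (by omega) U _ ?_
      rw [← hA₁, ← hA₂]
      exact e0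
    have e2 : U = 0 := by
      rw [e1] at e0
      have e3 : U ^ 2 = 0 := by
        rw [e0]
        ring
      exact pow_eq_zero_iff two_ne_zero |>.mp e3
    rw [hU] at e2
    have e3 : P = 0 ∨ Q = 0 := by
      rcases mul_eq_zero.mp e1 with h | h
      · rcases mul_eq_zero.mp h with h | h
        · exact absurd h two_ne_zero
        · exact Or.inl h
      · exact Or.inr h
    rcases e3 with e | e
    · have e4 : Q = 0 := by
        refine par a₂ a₃ (by omega) (by omega) (R * A₃) Q ?_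
        rw [← hA₂, ← hA₃]
        linear_combination A₃ * e2 + (P * A₁ * A₃) * e
      have e5 : R ^ 2 * A₃ = 0 := by
        linear_combination e2 + (P * A₁) * e + (Q * A₂) * e4
      rcases mul_eq_zero.mp e5 with e6 | e6
      · exact h0 ⟨e, e4, pow_eq_zero_iff two_ne_zero |>.mp e6⟩
      · exact hA0 e6
    · have e4 : P = 0 := by
        refine par a₁ a₃ (by omega) (by omega) (R * A₃) P ?_
        rw [← hA₁, ← hA₃]
        linear_combination A₃ * e2 + (Q * A₂ * A₃) * e
      have e5 : R ^ 2 * A₃ = 0 := by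
        linear_combination e2 + (Q * A₂) * e + (P * A₁) * e4
      rcases mul_eq_zero.mp e5 with e6 | e6
      · exact h0 ⟨e4, e, pow_eq_zero_iff two_ne_zero |>.mp e6⟩
      · exact hA0 e6
  -- the degree
  have hd : ∀ a : ℕ, (C (a : ℤ) * X + 1 : ℤ[X]).natDegree ≤ 1 := by
    intro a
    compute_degree
  have hd1 : A₁.natDegree ≤ 1 := hA₁ ▸ hd a₁
  have hd2 : A₂.natDegree ≤ 1 := hA₂ ▸ hd a₂
  have hd3 : A₃.natDegree ≤ 1 := hA₃ ▸ hd a₃
  have hn : 1 ≤ n := by omega
  have hP' : P.natDegree ≤ n - 1 := by omega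
  have hQ' : Q.natDegree ≤ n - 1 := by omega
  have hR' : R.natDegree ≤ n - 1 := by omega
  have hdU : U.natDegree ≤ 2 * (n - 1) + 1 := by
    rw [hU]
    refine (natDegree_sub_le _ _).trans (max_le ((natDegree_sub_le _ _).trans
      (max_le ?_ ?_)) ?_)
    · exact natDegree_mul_le_of_le (natDegree_pow_le_of_le 2 hR') hd3
    · exact natDegree_mul_le_of_le (natDegree_pow_le_of_le 2 hP') hd1
    · exact natDegree_mul_le_of_le (natDegree_pow_le_of_le 2 hQ') hd2
  have hdN : N.natDegree ≤ 4 * n := by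
    rw [hN]
    refine (natDegree_sub_le _ _).trans (max_le ?_ ?_)
    · refine (natDegree_pow_le_of_le 2 hdU).trans ?_
      omega
    · have h2 : (2 : ℤ[X]).natDegree ≤ 0 := by
        have : (2 : ℤ[X]) = C 2 := rfl
        rw [this, natDegree_C]
      have h3 : (2 * P * Q).natDegree ≤ 0 + (n - 1) + (n - 1) :=
        natDegree_mul_le_of_le (natDegree_mul_le_of_le h2 hP') hQ'
      have h4 := natDegree_mul_le_of_le (natDegree_pow_le_of_le 2 h3)
        (natDegree_mul_le_of_le hd1 hd2)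
      refine h4.trans ?_
      omega
  -- the roots
  have hroot : ∀ b ∈ S, N.eval (b : ℤ) = 0 := by
    intro b hb
    obtain ⟨x, y, z, hx, hy, hz, hrel⟩ := hS b hb
    have e1 : A₁.eval (b : ℤ) = x ^ 2 := by simp [hA₁, hx]
    have e2 : A₂.eval (b : ℤ) = y ^ 2 := by simp [hA₂, hy]
    have e3 : A₃.eval (b : ℤ) = z ^ 2 := by simp [hA₃, hz]
    rw [hN, hU]
    simp only [eval_sub, eval_mul, eval_pow, e1, e2, e3, eval_ofNat]
    generalize P.eval (b : ℤ) = p at hrel ⊢
    generalize Q.eval (b : ℤ) = q at hrel ⊢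
    generalize R.eval (b : ℤ) = r at hrel ⊢
    have h3 : r ^ 2 * z ^ 2 = (p * x + q * y) ^ 2 := by
      linear_combination (r * z - p * x - q * y) * hrel
    rw [h3]
    ring
  have hinj : Function.Injective (Nat.cast : ℕ → ℤ) := Nat.cast_injective
  have hcard : (S.map ⟨Nat.cast, hinj⟩ : Finset ℤ).card ≤ N.natDegree := by
    refine card_le_degree_of_subset_roots ?_
    intro t ht
    rw [Finset.mem_val, Finset.mem_map] at ht
    obtain ⟨b, hb, rfl⟩ := ht
    rw [mem_roots hN0]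
    exact hroot b hb
  rw [Finset.card_map] at hcard
  exact hcard.trans hdN

end Pool.Agent.Helper83.KM.R4NORM
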