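import Pool.Agent.Helper83.KM.Stm4

/-! Row ONE of the K_{4,N} sheet (typed by helper28). -/

set_option autoImplicit false

namespace Pool.Agent.Helper83.KM.R4ONE

open Finset Pool.Agent.Helper83.KM

theorem row (hGM : GmStmt) (hP : PadeStmt) : OneStmt := by
  intro c x y hc h0 hx hxy h1 h2
  by_contra hcon
  push Not at hcon
  have e1 : x ^ 17 ≤ c 9 ^ 72 * y := hGM 9 (by norm_num) c x y hc h0 hx hxy h1 h2
  have h09 : c 0 < c 9 := hc (by decide)
  have h29 : c 2 < c 9 := hc (by decide)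
  have h01 : c 0 < c 1 := hc (by decide)
  have h12 : c 1 < c 2 := hc (by decide)
  have h9 : 2 ≤ c 9 := by omega
  have e2 : c 2 ^ 65 ≤ x :=
    ((Nat.pow_le_pow_left h29.le 65).trans
      (Nat.pow_le_pow_right (by omega) (by norm_num))).trans hcon
  have e3 : y ≤ x ^ 16 := hP (c 0) (c 1) (c 2) x y h0 h01 h12 e2 (by omega)
    (by rw [mul_comm]; exact h1 0) (by rw [mul_comm]; exact h1 1) (by rw [mul_comm]; exact h1 2)
    (by rw [mul_comm]; exact h2 0) (by rw [mul_comm]; exact h2 1) (by rw [mul_comm]; exact h2 2)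
  have e4 : x * x ^ 16 ≤ c 9 ^ 72 * x ^ 16 := by
    calc x * x ^ 16 = x ^ 17 := by rw [← pow_succ']
      _ ≤ c 9 ^ 72 * y := e1
      _ ≤ c 9 ^ 72 * x ^ 16 := Nat.mul_le_mul_left _ e3
  have e5 : x ≤ c 9 ^ 72 := Nat.le_of_mul_le_mul_right e4 (pow_pos hx 16)
  have e6 : c 9 ^ 72 < c 9 ^ 73 := Nat.pow_lt_pow_right (by omega) (by norm_num)
  omega

end Pool.Agent.Helper83.KM.R4ONE
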