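import Mathlib
import Pool.Agent.Helper83.KM.Stm4

namespace Pool.Agent.Helper83.KM.R4RANGE

open Finset

/-- There is an exponent `k` with `4 ^ k C <= 5 ^ k`. -/
theorem exp_aux (C : ℕ) : ∃ k : ℕ, C * 4 ^ k ≤ 5 ^ k := by
  refine ⟨4 * C, ?_⟩
  have h1 : (5 : ℕ) ^ (4 * C) = (5 ^ 4) ^ C := by rw [pow_mul]
  have h2 : (4 : ℕ) ^ (4 * C) = (4 ^ 4) ^ C := by rw [pow_mul]
  have h3 : C ≤ 2 ^ C := (Nat.lt_two_pow_self).le
  calc C * 4 ^ (4 * C) ≤ 2 ^ C * 4 ^ (4 * C) := Nat.mul_le_mul_right _ h3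
    _ = (2 * 4 ^ 4) ^ C := by rw [h2, mul_pow]
    _ ≤ (5 ^ 4) ^ C := Nat.pow_le_pow_left (by norm_num) C
    _ = 5 ^ (4 * C) := h1.symm

/-- The induction over the clusters. -/
theorem chain (C M Y₀ a₁ a₂ a₃ : ℕ) (h1 : 0 < a₁) (h2 : a₁ < a₂) (h3 : a₂ < a₃)
    (hM : ∀ Y : ℕ, a₃ ≤ Y ^ C → Y₀ ≤ Y → ∀ S : Finset ℕ,
      (∀ b ∈ S, Y ≤ b ∧ b ^ 4 ≤ Y ^ 5 ∧ IsSquare (a₁ * b + 1) ∧
        IsSquare (a₂ * b + 1) ∧ IsSquare (a₃ * b + 1)) → S.card ≤ M) :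
    ∀ k Z : ℕ, a₃ ≤ Z ^ C → Y₀ ≤ Z → ∀ S : Finset ℕ,
      (∀ b ∈ S, Z ≤ b ∧ b ^ (4 ^ k) ≤ Z ^ (5 ^ k) ∧ IsSquare (a₁ * b + 1) ∧
        IsSquare (a₂ * b + 1) ∧ IsSquare (a₃ * b + 1)) → S.card ≤ k * M + 1 := by
  intro k
  induction k with
  | zero =>
    intro Z hZ hY S hS
    have hsub : S ⊆ {Z} := by
      intro b hb
      obtain ⟨hb1, hb2, -⟩ := hS b hb
      rw [pow_zero, pow_zero, pow_one, pow_one] at hb2
      exact mem_singleton.2 (le_antisymm hb2 hb1)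
    have := card_le_card hsub
    rw [card_singleton] at this
    omega
  | succ k ih =>
    intro Z hZ hY S hS
    have hsplit : S.card = (S.filter fun b => b ^ 4 ≤ Z ^ 5).card +
        (S.filter fun b => ¬ b ^ 4 ≤ Z ^ 5).card :=
      (card_filter_add_card_filter_not (s := S) (fun b => b ^ 4 ≤ Z ^ 5)).symm
    have hS0 : (S.filter fun b => b ^ 4 ≤ Z ^ 5).card ≤ M := by
      apply hM Z hZ hY
      intro b hb
      obtain ⟨hbS, hb4⟩ := mem_filter.1 hb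
      obtain ⟨hb1, -, hb3⟩ := hS b hbS
      exact ⟨hb1, hb4, hb3⟩
    have hS1 : (S.filter fun b => ¬ b ^ 4 ≤ Z ^ 5).card ≤ k * M + 1 := by
      rcases (S.filter fun b => ¬ b ^ 4 ≤ Z ^ 5).eq_empty_or_nonempty with he | hne
      · rw [he, card_empty]
        exact Nat.zero_le _
      · obtain ⟨Z', hZ'mem, hmin⟩ := exists_min_image (S.filter fun b => ¬ b ^ 4 ≤ Z ^ 5)
          (fun b => b) hne
        obtain ⟨hZ'S, hZ'4⟩ := mem_filter.1 hZ'mem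
        have hZZ' : Z ≤ Z' := (hS Z' hZ'S).1
        refine ih Z' (hZ.trans (Nat.pow_le_pow_left hZZ' C)) (hY.trans hZZ') _ ?_
        intro b hb
        obtain ⟨hbS, hb4⟩ := mem_filter.1 hb
        obtain ⟨hb1, hb2, hb3⟩ := hS b hbS
        refine ⟨hmin b hb, ?_, hb3⟩
        have hlt : Z ^ 5 ≤ Z' ^ 4 := (not_le.1 hZ'4).le
        have hchain : (b ^ (4 ^ k)) ^ 4 ≤ (Z' ^ (5 ^ k)) ^ 4 := by
          calc (b ^ (4 ^ k)) ^ 4 = b ^ (4 ^ (k + 1)) := by rw [← pow_mul, pow_succ 4 k]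
            _ ≤ Z ^ (5 ^ (k + 1)) := hb2
            _ = (Z ^ 5) ^ (5 ^ k) := by rw [← pow_mul, pow_succ 5 k, mul_comm]
            _ ≤ (Z' ^ 4) ^ (5 ^ k) := Nat.pow_le_pow_left hlt _
            _ = (Z' ^ (5 ^ k)) ^ 4 := by rw [← pow_mul, ← pow_mul, mul_comm]
        exact (Nat.pow_le_pow_iff_left (by norm_num)).1 hchain
    rw [hsplit]
    calc (S.filter fun b => b ^ 4 ≤ Z ^ 5).card + (S.filter fun b => ¬ b ^ 4 ≤ Z ^ 5).card
        ≤ M + (k * M + 1) := Nat.add_le_add hS0 hS1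
      _ = (k + 1) * M + 1 := by ring

/-- Row RANGE. -/
theorem row (hC : ClusterStmt) : RangeStmt := by
  intro C
  obtain ⟨M, Y₀, hM⟩ := hC C
  obtain ⟨k, hk⟩ := exp_aux C
  refine ⟨max (k * M + 1) (Y₀ ^ C + 1), ?_⟩
  intro a₁ a₂ a₃ Y h1 h2 h3 haY S hS
  have hYpos : 1 ≤ Y := by
    rcases Nat.eq_zero_or_pos Y with h0 | h0
    · exfalso
      subst h0
      have : (0 : ℕ) ^ C ≤ 1 := by
        rcases Nat.eq_zero_or_pos C with hC0 | hC0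
        · rw [hC0, pow_zero]
        · rw [zero_pow hC0.ne']; exact Nat.zero_le _
      omega
    · exact h0
  rcases le_or_gt Y₀ Y with hY | hY
  · refine (chain C M Y₀ a₁ a₂ a₃ h1 h2 h3
      (fun Y' hY'1 hY'2 => hM a₁ a₂ a₃ Y' h1 h2 h3 hY'1 hY'2) k Y haY hY S ?_).trans
      (le_max_left _ _)
    intro b hb
    obtain ⟨hb1, hb2, hb3⟩ := hS b hb
    refine ⟨hb1, ?_, hb3⟩
    calc b ^ (4 ^ k) ≤ (Y ^ C) ^ (4 ^ k) := Nat.pow_le_pow_left hb2 _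
      _ = Y ^ (C * 4 ^ k) := by rw [← pow_mul]
      _ ≤ Y ^ (5 ^ k) := Nat.pow_le_pow_right hYpos hk
  · have hsub : S ⊆ range (Y₀ ^ C + 1) := by
      intro b hb
      obtain ⟨-, hb2, -⟩ := hS b hb
      have : Y ^ C ≤ Y₀ ^ C := Nat.pow_le_pow_left hY.le C
      exact mem_range.2 (by omega)
    have := card_le_card hsub
    rw [card_range] at this
    exact this.trans (le_max_right _ _)

end Pool.Agent.Helper83.KM.R4RANGE
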