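import Pool.Agent.Helper83.KM.Stm4

/-! Row TAY of the K_{4,N} sheet (typed by helper28). -/

set_option autoImplicit false

namespace Pool.Agent.Helper83.KM.R4TAY

open Finset Real Pool.Agent.Helper83.KM

theorem base (Q : ℕ) : ∃ (c : ℕ → ℝ) (C : ℝ), ∀ u : ℝ, 0 ≤ u → u ≤ 1 →
    |√(1 + u) - ∑ q ∈ range Q, c q * u ^ q| ≤ C * u ^ Q := by
  rcases Q with _ | n
  · refine ⟨0, 2, fun u h0 h1 => ?_⟩
    rw [range_zero, sum_empty, sub_zero, pow_zero, mul_one, abs_of_nonneg (sqrt_nonneg _)]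
    calc √(1 + u) ≤ √(2 ^ 2) := sqrt_le_sqrt (by linarith)
      _ = 2 := sqrt_sq (by norm_num)
  · have hf : ContDiffOn ℝ ((n : WithTop ℕ∞) + 1) (fun u : ℝ => √(1 + u)) (Set.Icc 0 1) := by
      refine ContDiffOn.sqrt (contDiffOn_const.add contDiffOn_id) ?_
      intro x hx
      have h1 : (0 : ℝ) ≤ x := hx.1
      change (1 : ℝ) + x ≠ 0
      linarith
    obtain ⟨C, hC⟩ := exists_taylor_mean_remainder_bound (n := n) (zero_le_one' ℝ) hf
    refine ⟨fun q => ((q.factorial : ℝ)⁻¹) *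
      iteratedDerivWithin q (fun u : ℝ => √(1 + u)) (Set.Icc 0 1) 0, C, fun u h0 h1 => ?_⟩
    have h2 := hC u ⟨h0, h1⟩
    rw [taylor_within_apply, sub_zero, norm_eq_abs] at h2
    have h3 : ∑ q ∈ range (n + 1), ((q.factorial : ℝ)⁻¹ * u ^ q) •
        iteratedDerivWithin q (fun u : ℝ => √(1 + u)) (Set.Icc 0 1) 0 =
        ∑ q ∈ range (n + 1), ((q.factorial : ℝ)⁻¹) *
          iteratedDerivWithin q (fun u : ℝ => √(1 + u)) (Set.Icc 0 1) 0 * u ^ q := by
      refine sum_congr rfl fun q _ => ?_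
      rw [smul_eq_mul]
      ring
    rwa [h3] at h2

theorem row : TayStmt := by
  intro Q
  obtain ⟨c, C, hC⟩ := base Q
  have hS : 0 ≤ ∑ q ∈ range Q, |c q| := sum_nonneg fun q _ => abs_nonneg _
  refine ⟨1 + |C| + ∑ q ∈ range Q, |c q|, by linarith [abs_nonneg C], fun a ha => ?_⟩
  have ha0 : 0 < a := lt_of_lt_of_le zero_lt_one ha
  have hsa : 0 ≤ √a := sqrt_nonneg a
  refine ⟨fun q => if q < Q then √a * c q * (a ^ q)⁻¹ else 0, fun q => ?_, fun t h0 h1 => ?_⟩
  · change |if q < Q then √a * c q * (a ^ q)⁻¹ else 0| ≤ _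
    by_cases hq : q < Q
    · rw [if_pos hq, abs_mul, abs_mul, abs_of_nonneg hsa]
      have e1 : |(a ^ q)⁻¹| ≤ 1 := by
        rw [abs_of_nonneg (inv_nonneg.2 (pow_nonneg ha0.le _))]
        exact inv_le_one_of_one_le₀ (one_le_pow₀ ha)
      have e2 : |c q| ≤ ∑ q ∈ range Q, |c q| :=
        single_le_sum (f := fun q => |c q|) (fun q _ => abs_nonneg _) (mem_range.2 hq)
      calc √a * |c q| * |(a ^ q)⁻¹| ≤ √a * |c q| * 1 :=
            mul_le_mul_of_nonneg_left e1 (mul_nonneg hsa (abs_nonneg _))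
        _ = |c q| * √a := by ring
        _ ≤ (1 + |C| + ∑ q ∈ range Q, |c q|) * √a :=
            mul_le_mul_of_nonneg_right (by linarith [abs_nonneg C]) hsa
    · rw [if_neg hq, abs_zero]
      exact mul_nonneg (by linarith [abs_nonneg C]) hsa
  · have hu0 : 0 ≤ t / a := div_nonneg h0 ha0.le
    have hut : t / a ≤ t := div_le_self h0 ha
    have h2 := hC (t / a) hu0 (hut.trans h1)
    have e1 : √(a + t) = √a * √(1 + t / a) := by
      rw [← sqrt_mul ha0.le]
      congr 1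
      rw [mul_add, mul_one, mul_div_cancel₀ _ ha0.ne']
    have e2 : ∑ q ∈ range Q, (if q < Q then √a * c q * (a ^ q)⁻¹ else 0) * t ^ q =
        √a * ∑ q ∈ range Q, c q * (t / a) ^ q := by
      rw [mul_sum]
      refine sum_congr rfl fun q hq => ?_
      rw [if_pos (mem_range.1 hq), div_pow]
      ring
    rw [e1, e2, ← mul_sub, abs_mul, abs_of_nonneg hsa]
    have e3 : C * (t / a) ^ Q ≤ |C| * t ^ Q :=
      (mul_le_mul_of_nonneg_right (le_abs_self C) (pow_nonneg hu0 _)).trans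
        (mul_le_mul_of_nonneg_left (pow_le_pow_left₀ hu0 hut _) (abs_nonneg _))
    calc √a * |√(1 + t / a) - ∑ q ∈ range Q, c q * (t / a) ^ q| ≤ √a * (|C| * t ^ Q) :=
          mul_le_mul_of_nonneg_left (h2.trans e3) hsa
      _ = |C| * √a * t ^ Q := by ring
      _ ≤ (1 + |C| + ∑ q ∈ range Q, |c q|) * √a * t ^ Q :=
          mul_le_mul_of_nonneg_right (mul_le_mul_of_nonneg_right (by linarith) hsa)
            (pow_nonneg h0 _)

end Pool.Agent.Helper83.KM.R4TAY
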