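import Mathlib
import Pool.Agent.Helper83.KM.Main
import Pool.Agent.Helper83.KM.Stm4
import Pool.Agent.Helper83.KM.R4LAG
import Pool.Agent.Helper83.KM.R4GM
import Pool.Agent.Helper83.KM.R4ONE
import Pool.Agent.Helper83.KM.R4NORM
import Pool.Agent.Helper83.KM.R4TAY
import Pool.Agent.Helper83.KM.R4Box
import Pool.Agent.Helper83.KM.R4Aux
import Pool.Agent.Helper83.KM.R4CLUSTER
import Pool.Agent.Helper83.KM.R4RANGE
import Pool.Agent.Helper83.KM.R4K4
import Pool.Agent.Helper83.KM.R4Graph
import Pool.Agent.Helper83.KM.R4Wide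

namespace Pool.Agent.Helper83.KM.Main4

theorem gm : GmStmt := R4GM.row R4LAG.row

theorem one : OneStmt := R4ONE.row gm Main.pade

theorem aux : AuxStmt := R4Aux.row R4TAY.row R4Box.row

theorem cluster : ClusterStmt := R4CLUSTER.row aux R4NORM.row

theorem range : RangeStmt := R4RANGE.row cluster

theorem k4 : K4Stmt := R4K4.row Main.triple one range

theorem graph : R4Graph.K4GraphStmt := R4Graph.row k4

theorem wide : R4Wide.WideStmt := R4Wide.row Main.triple range

end Pool.Agent.Helper83.KM.Main4
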