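import Mathlib
import Pool.Agent.Helper83.KM.Stm4

namespace Pool.Agent.Helper83.KM

open Finset

/-- Row COUNT: double counting. `R u x` is read as `x` lies above `u`. -/
def CountStmt : Prop :=
  ∀ (V : Type) [Fintype V] [DecidableEq V] (R : V → V → Prop) [DecidableRel R] (k : ℕ),
    (∀ x y : V, x ≠ y → (univ.filter (fun u : V => R u x ∧ R u y)).card ≤ k) →
    (univ.filter (fun p : V × V => R p.1 p.2)).card ^ 2 ≤
      Fintype.card V * (k * Fintype.card V ^ 2 +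
        (univ.filter (fun p : V × V => R p.1 p.2)).card)

/-- Row SUM: the final arithmetic. -/
def SumStmt : Prop :=
  ∀ (n e : ℕ) (E : Fin 4 → ℕ) (F : ℕ), 2 * e ≤ n ^ 2 → e ≤ ∑ j, E j + F →
    (∀ j, E j ^ 2 ≤ n * (2 * n ^ 2 + E j)) → F ^ 2 ≤ n * (9 * n ^ 2 + F) →
    (e : ℝ) ≤ 9 * (n : ℝ) ^ (3 / 2 : ℝ)

/-- Row NEAR: three vertices do not have two common neighbours in the same window. -/
def NearStmt : Prop :=
  ∀ (μ a₁ a₂ a₃ x y : ℕ), 1 ≤ μ → 0 < a₁ → a₁ < a₂ → a₂ < a₃ → x < y →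
    a₃ ^ μ ≤ x → y < a₁ ^ (3 * μ) →
    IsSquare (a₁ * x + 1) → IsSquare (a₂ * x + 1) → IsSquare (a₃ * x + 1) →
    IsSquare (a₁ * y + 1) → IsSquare (a₂ * y + 1) → IsSquare (a₃ * y + 1) → False

/-- Row WIN (from NEAR): at most two common neighbours below, in a window. -/
def WinStmt : Prop :=
  ∀ (μ x y : ℕ), 1 ≤ μ → x ≠ y → ∀ S : Finset ℕ,
    (∀ a ∈ S, 0 < a ∧ a ^ μ ≤ x ∧ x < a ^ (3 * μ) ∧ a ^ μ ≤ y ∧ y < a ^ (3 * μ) ∧
      IsSquare (a * x + 1) ∧ IsSquare (a * y + 1)) → S.card ≤ 2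

/-- Row FAR (from ONE): at most nine common neighbours far below. -/
def FarStmt : Prop :=
  ∀ (x y : ℕ), x ≠ y → ∀ S : Finset ℕ,
    (∀ a ∈ S, 0 < a ∧ a ^ 81 ≤ x ∧ a ^ 81 ≤ y ∧ IsSquare (a * x + 1) ∧ IsSquare (a * y + 1)) →
    S.card ≤ 9

/-- Row E32 (from COUNT, SUM, WIN, FAR): a Diophantine graph has at most `9 n ^ (3 / 2)` edges. -/
def E32Stmt : Prop :=
  ∀ (V : Type) [Fintype V] (G : SimpleGraph V) [DecidableRel G.Adj],
    Pool.Agent.Helper56.Dio.IsDiophantine G →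
    (G.edgeFinset.card : ℝ) ≤ 9 * (Fintype.card V : ℝ) ^ (3 / 2 : ℝ)

end Pool.Agent.Helper83.KM
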