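import Mathlib
import Pool.Agent.Helper83.KM.Stm5

/-! Row COUNT (helper25): double counting. -/

set_option autoImplicit false

namespace Pool.Agent.Helper83.KM.R5COUNT

open Finset

theorem row : CountStmt := by
  intro V _ _ R _ k hk
  -- degrees
  have hE : (univ.filter (fun p : V × V => R p.1 p.2)).card =
      ∑ u : V, (univ.filter (fun x : V => R u x)).card := by
    rw [card_filter, ← univ_product_univ, sum_product]
    exact sum_congr rfl fun u _ => (card_filter _ _).symm
  have hCS : (∑ u : V, (univ.filter (fun x : V => R u x)).card) ^ 2 ≤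
      Fintype.card V * ∑ u : V, (univ.filter (fun x : V => R u x)).card ^ 2 := by
    have h := sq_sum_le_card_mul_sum_sq (s := (univ : Finset V))
      (f := fun u : V => ((univ.filter (fun x : V => R u x)).card : ℕ))
    simpa using h
  have hsq : ∑ u : V, (univ.filter (fun x : V => R u x)).card ^ 2 =
      ∑ p : V × V, (univ.filter (fun u : V => R u p.1 ∧ R u p.2)).card := by
    have h1 : ∀ u : V, (univ.filter (fun x : V => R u x)).card ^ 2 =
        ∑ p : V × V, if R u p.1 ∧ R u p.2 then 1 else 0 := by
      intro u
      rw [sq, ← card_product, ← filter_product, card_filter, univ_product_univ]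
    rw [sum_congr rfl fun u _ => h1 u, sum_comm]
    exact sum_congr rfl fun p _ => (card_filter _ _).symm
  have hbd : ∑ p : V × V, (univ.filter (fun u : V => R u p.1 ∧ R u p.2)).card ≤
      k * Fintype.card V ^ 2 + ∑ u : V, (univ.filter (fun x : V => R u x)).card := by
    have h1 : ∀ p : V × V, (univ.filter (fun u : V => R u p.1 ∧ R u p.2)).card ≤
        k + if p.1 = p.2 then (univ.filter (fun u : V => R u p.1)).card else 0 := by
      intro p
      by_cases h : p.1 = p.2
      · rw [if_pos h]
        refine le_trans (card_le_card ?_) (Nat.le_add_left _ _)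
        intro u hu
        rw [mem_filter] at hu ⊢
        exact ⟨hu.1, hu.2.1⟩
      · rw [if_neg h, add_zero]
        exact hk p.1 p.2 h
    refine (sum_le_sum fun p _ => h1 p).trans ?_
    rw [sum_add_distrib, sum_const, card_univ, Fintype.card_prod, smul_eq_mul]
    have h2 : ∑ p : V × V, (if p.1 = p.2 then (univ.filter (fun u : V => R u p.1)).card else 0) =
        ∑ u : V, (univ.filter (fun x : V => R u x)).card := by
      rw [← univ_product_univ, sum_product]
      have h3 : ∀ x : V, ∑ y : V, (if x = y then (univ.filter (fun u : V => R u x)).card else 0) =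
          (univ.filter (fun u : V => R u x)).card := by
        intro x
        rw [sum_ite_eq, if_pos (mem_univ x)]
      rw [sum_congr rfl fun x _ => h3 x]
      rw [sum_congr rfl fun x _ => card_filter _ _, sum_comm]
      exact sum_congr rfl fun u _ => (card_filter _ _).symm
    rw [h2]
    have h4 : Fintype.card V * Fintype.card V * k = k * Fintype.card V ^ 2 := by ring
    rw [h4]
  rw [hE]
  refine hCS.trans (Nat.mul_le_mul_left _ ?_)
  rw [hsq]
  exact hbd

end Pool.Agent.Helper83.KM.R5COUNT
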