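import Mathlib
import Pool.Agent.Helper83.KM.Stm5

namespace Pool.Agent.Helper83.KM.R5E32

open Finset

theorem row (hC : CountStmt) (hS : SumStmt) (hW : WinStmt) (hF : FarStmt) : E32Stmt := by
  classical
  intro V _ G _ hG
  obtain ⟨f, hpos, hinj, hadj⟩ := hG
  set R : Fin 4 → V → V → Prop := fun j u x => G.Adj u x ∧ f u ^ (3 ^ (j : ℕ)) ≤ f x ∧
    f x < f u ^ (3 * 3 ^ (j : ℕ)) with hR
  set F : V → V → Prop := fun u x => G.Adj u x ∧ f u ^ 81 ≤ f x with hFdef
  have hRc : ∀ j, (univ.filter (fun p : V × V => R j p.1 p.2)).card ^ 2 ≤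
      Fintype.card V * (2 * Fintype.card V ^ 2 +
        (univ.filter (fun p : V × V => R j p.1 p.2)).card) := by
    intro j
    refine hC V (R j) 2 ?_
    intro x y hxy
    rw [← Finset.card_image_of_injective _ hinj]
    refine hW (3 ^ (j : ℕ)) (f x) (f y) (Nat.one_le_pow _ _ (by norm_num))
      (fun h => hxy (hinj h)) _ ?_
    intro a ha
    obtain ⟨u, hu, rfl⟩ := Finset.mem_image.mp ha
    obtain ⟨⟨h1, h2, h3⟩, h4, h5, h6⟩ := (Finset.mem_filter.mp hu).2
    exact ⟨hpos u, h2, h3, h5, h6, (hadj _ _ h1.ne).mp h1, (hadj _ _ h4.ne).mp h4⟩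
  have hFc : (univ.filter (fun p : V × V => F p.1 p.2)).card ^ 2 ≤
      Fintype.card V * (9 * Fintype.card V ^ 2 +
        (univ.filter (fun p : V × V => F p.1 p.2)).card) := by
    refine hC V F 9 ?_
    intro x y hxy
    rw [← Finset.card_image_of_injective _ hinj]
    refine hF (f x) (f y) (fun h => hxy (hinj h)) _ ?_
    intro a ha
    obtain ⟨u, hu, rfl⟩ := Finset.mem_image.mp ha
    obtain ⟨⟨h1, h2⟩, h4, h5⟩ := (Finset.mem_filter.mp hu).2
    exact ⟨hpos u, h2, h5, (hadj _ _ h1.ne).mp h1, (hadj _ _ h4.ne).mp h4⟩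
  refine hS (Fintype.card V) G.edgeFinset.card
    (fun j => (univ.filter (fun p : V × V => R j p.1 p.2)).card)
    (univ.filter (fun p : V × V => F p.1 p.2)).card ?_ ?_ hRc hFc
  · have h1 := G.card_edgeFinset_le_card_choose_two
    rw [Nat.choose_two_right] at h1
    have h2 : Fintype.card V * (Fintype.card V - 1) ≤ Fintype.card V ^ 2 := by
      rw [sq]; exact Nat.mul_le_mul_left _ (Nat.sub_le _ _)
    omega
  · have hsub : G.edgeFinset ⊆ ((univ.biUnion (fun j : Fin 4 =>
        univ.filter (fun p : V × V => R j p.1 p.2))) ∪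
        univ.filter (fun p : V × V => F p.1 p.2)).image (fun p : V × V => s(p.1, p.2)) := by
      have key : ∀ u x : V, G.Adj u x → f u < f x → s(u, x) ∈ ((univ.biUnion (fun j : Fin 4 =>
          univ.filter (fun p : V × V => R j p.1 p.2))) ∪
          univ.filter (fun p : V × V => F p.1 p.2)).image (fun p : V × V => s(p.1, p.2)) := by
        intro u x hux hlt
        refine Finset.mem_image.mpr ⟨(u, x), ?_, rfl⟩
        rw [Finset.mem_union, Finset.mem_biUnion]
        by_cases h81 : f u ^ 81 ≤ f x
        · right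
          exact Finset.mem_filter.mpr ⟨Finset.mem_univ _, hux, h81⟩
        · left
          push Not at h81
          by_cases h27 : f u ^ 27 ≤ f x
          · exact ⟨3, Finset.mem_univ _, Finset.mem_filter.mpr ⟨Finset.mem_univ _, hux, h27, h81⟩⟩
          · push Not at h27
            by_cases h9 : f u ^ 9 ≤ f x
            · exact ⟨2, Finset.mem_univ _, Finset.mem_filter.mpr ⟨Finset.mem_univ _, hux, h9, h27⟩⟩
            · push Not at h9
              by_cases h3 : f u ^ 3 ≤ f x
              · exact ⟨1, Finset.mem_univ _, Finset.mem_filter.mpr ⟨Finset.mem_univ _, hux, h3, h9⟩⟩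
              · push Not at h3
                refine ⟨0, Finset.mem_univ _, Finset.mem_filter.mpr ⟨Finset.mem_univ _, hux, ?_, h3⟩⟩
                show f u ^ 1 ≤ f x
                rw [pow_one]; exact hlt.le
      intro e he
      induction e using Sym2.ind with
      | _ u x =>
        rw [SimpleGraph.mem_edgeFinset, SimpleGraph.mem_edgeSet] at he
        rcases lt_trichotomy (f u) (f x) with h | h | h
        · exact key u x he h
        · exact absurd (hinj h) he.ne
        · rw [Sym2.eq_swap]; exact key x u he.symm h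
    calc G.edgeFinset.card ≤ _ := Finset.card_le_card hsub
      _ ≤ _ := Finset.card_image_le
      _ ≤ _ := Finset.card_union_le _ _
      _ ≤ _ := Nat.add_le_add_right Finset.card_biUnion_le _

end Pool.Agent.Helper83.KM.R5E32
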