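import Mathlib
import Pool.Agent.Helper83.KM.Stm5

/-! Row FAR (helper25): from ONE. -/

set_option autoImplicit false

namespace Pool.Agent.Helper83.KM.R5FAR

open Finset

theorem aux (hO : OneStmt) (x y : ℕ) (hxy : x < y) (S : Finset ℕ)
    (hS : ∀ a ∈ S, 0 < a ∧ a ^ 81 ≤ x ∧ IsSquare (a * x + 1) ∧ IsSquare (a * y + 1)) :
    S.card ≤ 9 := by
  by_contra hc
  obtain ⟨T, hT, hTc⟩ := exists_subset_card_eq (s := S) (n := 10) (by omega)
  have hmem : ∀ j : Fin 10, T.orderEmbOfFin hTc j ∈ S := fun j =>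
    hT (orderEmbOfFin_mem T hTc j)
  have h9 := hS _ (hmem 9)
  have hx : 0 < x := lt_of_lt_of_le (pow_pos h9.1 81) h9.2.1
  have h1 := hO (fun j => T.orderEmbOfFin hTc j) x y (T.orderEmbOfFin hTc).strictMono
    (hS _ (hmem 0)).1 hx hxy
    (fun j => by
      have h := (hS _ (hmem j)).2.2.1
      rwa [mul_comm] at h)
    (fun j => by
      have h := (hS _ (hmem j)).2.2.2
      rwa [mul_comm] at h)
  have h2 : T.orderEmbOfFin hTc 9 ^ 73 ≤ T.orderEmbOfFin hTc 9 ^ 81 :=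
    Nat.pow_le_pow_right h9.1 (by norm_num)
  have h3 : x < T.orderEmbOfFin hTc 9 ^ 73 := h1
  exact absurd (h3.trans_le (h2.trans h9.2.1)) (lt_irrefl x)

theorem row (hO : OneStmt) : FarStmt := by
  intro x y hxy S hS
  rcases lt_or_gt_of_ne hxy with h | h
  · exact aux hO x y h S fun a ha => ⟨(hS a ha).1, (hS a ha).2.1, (hS a ha).2.2.2.1,
      (hS a ha).2.2.2.2⟩
  · exact aux hO y x h S fun a ha => ⟨(hS a ha).1, (hS a ha).2.2.1, (hS a ha).2.2.2.2,
      (hS a ha).2.2.2.1⟩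

end Pool.Agent.Helper83.KM.R5FAR
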