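import Pool.Agent.Helper83.KM.Stm5
import Pool.Agent.Helper74.KM.GapTwo

/-! Project KM, row NEAR (helper46): three vertices do not have two common neighbours in the same
window. -/

set_option autoImplicit false

namespace Pool.Agent.Helper83.KM.R5Near

theorem row : NearStmt := by
  intro μ a₁ a₂ a₃ x y hμ h1 h12 h23 hxy hx hy h1x h2x h3x h1y h2y h3y
  have ha3 : 0 < a₃ := by omega
  have hx0 : 0 < x := lt_of_lt_of_le (pow_pos ha3 μ) hx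
  have h := Pool.Agent.Helper74.KM.gapTwo a₁ a₂ a₃ x y h1 h12 h23 hx0 hxy h1x h2x h3x h1y h2y h3y
  obtain ⟨k, hk⟩ : ∃ k, 3 * μ = k + 2 := ⟨3 * μ - 2, by omega⟩
  have e1 : a₃ ^ (3 * μ) ≤ x ^ 3 := by
    rw [mul_comm, pow_mul]
    exact Nat.pow_le_pow_left hx 3
  have e2 : a₁ ^ k ≤ a₃ ^ k := Nat.pow_le_pow_left (by omega) k
  have e3 : a₁ ^ (3 * μ) * a₃ ^ 2 ≤ a₃ ^ (3 * μ) * a₁ ^ 2 := by
    rw [hk, pow_add, pow_add]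
    calc a₁ ^ k * a₁ ^ 2 * a₃ ^ 2 = a₁ ^ k * (a₃ ^ 2 * a₁ ^ 2) := by ring
      _ ≤ a₃ ^ k * (a₃ ^ 2 * a₁ ^ 2) := Nat.mul_le_mul_right _ e2
      _ = a₃ ^ k * a₃ ^ 2 * a₁ ^ 2 := by ring
  have e4 : y * a₃ ^ 2 < a₁ ^ (3 * μ) * a₃ ^ 2 :=
    Nat.mul_lt_mul_of_pos_right hy (pow_pos ha3 2)
  have e5 : a₃ ^ (3 * μ) * a₁ ^ 2 ≤ x ^ 3 * a₁ ^ 2 := Nat.mul_le_mul_right _ e1
  have e6 : 64 * x ^ 3 * a₁ ^ 2 = 64 * (x ^ 3 * a₁ ^ 2) := by ring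
  omega

end Pool.Agent.Helper83.KM.R5Near
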