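import Pool.Agent.Helper83.KM.Stm5

namespace Pool.Agent.Helper83.KM.R5SUM

open Pool.Agent.Helper83.KM

/-- solving the quadratic inequality -/
theorem bound (s c k X : ℝ) (hs : 18 ≤ s) (hc : 1 ≤ c) (hk : c ≤ (c ^ 2 - k) * 18)
    (hX : X ^ 2 ≤ s ^ 2 * (k * s ^ 4 + X)) : X ≤ c * s ^ 3 := by
  by_contra h
  have h1 : c * s ^ 3 < X := not_le.mp h
  have hs0 : (0 : ℝ) < s := by linarith
  have hck : 0 < c ^ 2 - k := by nlinarith
  have h2 : c ≤ (c ^ 2 - k) * s := by nlinarith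
  have h3 : 0 ≤ s ^ 5 * ((c ^ 2 - k) * s - c) := mul_nonneg (by positivity) (by linarith)
  have h4 : s ^ 2 ≤ c * s ^ 3 := by
    have h5 : s ^ 2 * 1 ≤ s ^ 2 * (c * s) :=
      mul_le_mul_of_nonneg_left (by nlinarith) (by positivity)
    nlinarith
  have h6 : 0 < (X - c * s ^ 3) * (X + c * s ^ 3 - s ^ 2) := by
    apply mul_pos (by linarith)
    have h7 : (0 : ℝ) < s ^ 2 := by positivity
    linarith
  nlinarith

theorem row : SumStmt := by
  intro n e E F h2 hsum hE hF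
  have hn0 : (0 : ℝ) ≤ (n : ℝ) := Nat.cast_nonneg n
  set s : ℝ := Real.sqrt n with hs
  have hs0 : 0 ≤ s := Real.sqrt_nonneg _
  have hsn : s ^ 2 = (n : ℝ) := Real.sq_sqrt hn0
  have hpow : (n : ℝ) ^ (3 / 2 : ℝ) = s ^ 3 := by
    rw [← hsn, ← Real.rpow_natCast s 2, ← Real.rpow_mul hs0, ← Real.rpow_natCast s 3]
    norm_num
  rw [hpow]
  have h2' : 2 * (e : ℝ) ≤ s ^ 4 := by
    have h : ((2 * e : ℕ) : ℝ) ≤ ((n ^ 2 : ℕ) : ℝ) := by exact_mod_cast h2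
    push_cast at h
    calc 2 * (e : ℝ) ≤ (n : ℝ) ^ 2 := h
      _ = s ^ 4 := by rw [← hsn]; ring
  rcases le_total s 18 with hs18 | hs18
  · have h3 : s ^ 4 ≤ 18 * s ^ 3 := by
      have : 0 ≤ s ^ 3 * (18 - s) := mul_nonneg (by positivity) (by linarith)
      nlinarith
    linarith
  · have hEj : ∀ j, (E j : ℝ) ≤ (1443 / 1000) * s ^ 3 := by
      intro j
      apply bound s (1443 / 1000) 2 (E j : ℝ) hs18 (by norm_num) (by norm_num)
      have h : ((E j ^ 2 : ℕ) : ℝ) ≤ ((n * (2 * n ^ 2 + E j) : ℕ) : ℝ) := by exact_mod_cast hE j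
      push_cast at h
      calc (E j : ℝ) ^ 2 ≤ (n : ℝ) * (2 * (n : ℝ) ^ 2 + E j) := h
        _ = s ^ 2 * (2 * s ^ 4 + E j) := by rw [← hsn]; ring
    have hFF : (F : ℝ) ≤ (303 / 100) * s ^ 3 := by
      apply bound s (303 / 100) 9 (F : ℝ) hs18 (by norm_num) (by norm_num)
      have h : ((F ^ 2 : ℕ) : ℝ) ≤ ((n * (9 * n ^ 2 + F) : ℕ) : ℝ) := by exact_mod_cast hF
      push_cast at h
      calc (F : ℝ) ^ 2 ≤ (n : ℝ) * (9 * (n : ℝ) ^ 2 + F) := h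
        _ = s ^ 2 * (9 * s ^ 4 + F) := by rw [← hsn]; ring
    have hS : (e : ℝ) ≤ (∑ j, (E j : ℝ)) + F := by
      have h : ((e : ℕ) : ℝ) ≤ ((∑ j, E j + F : ℕ) : ℝ) := by exact_mod_cast hsum
      push_cast at h
      exact h
    rw [Fin.sum_univ_four] at hS
    have h0 := hEj 0
    have h1 := hEj 1
    have h2 := hEj 2
    have h3 := hEj 3
    have h4 : 0 ≤ s ^ 3 := by positivity
    linarith

end Pool.Agent.Helper83.KM.R5SUM
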