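import Mathlib
import Pool.Agent.Helper83.KM.Stm5

/-!
# Row WIN

At most two common neighbours below, in a window.
-/

namespace Pool.Agent.Helper83.KM.R5WIN

open Finset

theorem row (hN : NearStmt) : WinStmt := by
  intro μ x y hμ hxy S hS
  by_contra hcon
  have h3 : 3 ≤ S.card := by omega
  obtain ⟨T, hTS, hT⟩ := Finset.exists_subset_card_eq h3
  have hm : ∀ i : Fin 3, T.orderEmbOfFin hT i ∈ S := fun i => hTS (T.orderEmbOfFin_mem hT i)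
  have l01 : T.orderEmbOfFin hT 0 < T.orderEmbOfFin hT 1 :=
    (T.orderEmbOfFin hT).strictMono (by decide)
  have l12 : T.orderEmbOfFin hT 1 < T.orderEmbOfFin hT 2 :=
    (T.orderEmbOfFin hT).strictMono (by decide)
  have h0 := hS _ (hm 0)
  have h1 := hS _ (hm 1)
  have h2 := hS _ (hm 2)
  rcases lt_or_gt_of_ne hxy with h | h
  · exact hN μ _ _ _ x y hμ h0.1 l01 l12 h h2.2.1 h0.2.2.2.2.1 h0.2.2.2.2.2.1 h1.2.2.2.2.2.1
      h2.2.2.2.2.2.1 h0.2.2.2.2.2.2 h1.2.2.2.2.2.2 h2.2.2.2.2.2.2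
  · exact hN μ _ _ _ y x hμ h0.1 l01 l12 h h2.2.2.2.1 h0.2.2.1 h0.2.2.2.2.2.2 h1.2.2.2.2.2.2
      h2.2.2.2.2.2.2 h0.2.2.2.2.2.1 h1.2.2.2.2.2.1 h2.2.2.2.2.2.1

end Pool.Agent.Helper83.KM.R5WIN
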