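import Mathlib
import Pool.Agent.Helper83.KM.Main4
import Pool.Agent.Helper83.KM.Stm5
import Pool.Agent.Helper83.KM.R5COUNT
import Pool.Agent.Helper83.KM.R5SUM
import Pool.Agent.Helper83.KM.R5Near
import Pool.Agent.Helper83.KM.R5WIN
import Pool.Agent.Helper83.KM.R5FAR
import Pool.Agent.Helper83.KM.R5E32

namespace Pool.Agent.Helper83.KM.Main5

theorem edge : E32Stmt :=
  R5E32.row R5COUNT.row R5SUM.row (R5WIN.row R5Near.row) (R5FAR.row Main4.one)

end Pool.Agent.Helper83.KM.Main5
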