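import Mathlib
import Pool.Agent.Helper83.KM.Stm4

namespace Pool.Agent.Helper83.KM.R4Wide

/-- Three positive integers have a bounded number of common neighbours `b` with
`a₃ ≤ b ^ C`, for every fixed `C`. -/
def WideStmt : Prop :=
  ∀ C : ℕ, ∃ N : ℕ, ∀ a₁ a₂ a₃ : ℕ, 0 < a₁ → a₁ < a₂ → a₂ < a₃ →
    ∀ S : Finset ℕ, (∀ b ∈ S, a₃ ≤ b ^ C ∧ IsSquare (a₁ * b + 1) ∧ IsSquare (a₂ * b + 1) ∧
      IsSquare (a₃ * b + 1)) → S.card ≤ N

theorem row (ht : TripleStmt) (hr : RangeStmt) : WideStmt := by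
  classical
  intro C
  obtain ⟨N, hN⟩ := hr (C + 1)
  refine ⟨N + 10, ?_⟩
  intro a₁ a₂ a₃ h0 h1 h2 S hS
  have hex : ∃ Y, a₃ ≤ Y ^ (C + 1) := ⟨a₃, Nat.le_self_pow (by omega) _⟩
  obtain ⟨Y, hY, hmin⟩ : ∃ Y, a₃ ≤ Y ^ (C + 1) ∧ ∀ b, a₃ ≤ b ^ C → Y ≤ b := by
    refine ⟨Nat.find hex, Nat.find_spec hex, ?_⟩
    intro b hb
    apply Nat.find_min' hex
    rcases Nat.eq_zero_or_pos b with h | h
    · subst h
      have : 0 ^ C ≤ 1 := by
        rcases Nat.eq_zero_or_pos C with h' | h'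
        · subst h'; simp
        · rw [zero_pow h'.ne']; omega
      omega
    · exact hb.trans (Nat.pow_le_pow_right h (by omega))
  have hc := Finset.card_filter_add_card_filter_not (s := S) (fun b => a₃ < b)
  have hA : (S.filter (fun b => a₃ < b)).card ≤ 10 := by
    refine ht a₁ a₂ a₃ h0 h1 h2 _ ?_
    intro b hb
    rw [Finset.mem_filter] at hb
    exact ⟨hb.2, (hS b hb.1).2⟩
  have hB : (S.filter (fun b => ¬ a₃ < b)).card ≤ N := by
    refine hN a₁ a₂ a₃ Y h0 h1 h2 hY _ ?_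
    intro b hb
    rw [Finset.mem_filter] at hb
    exact ⟨hmin b (hS b hb.1).1, by omega, (hS b hb.1).2⟩
  omega

end Pool.Agent.Helper83.KM.R4Wide
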