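import Mathlib
import Pool.Agent.Helper83.KM.Stm

namespace Pool.Agent.Helper83.KM.CHAIN

theorem pw (i a b α D N : ℕ) (h : 1024 * D ^ 4 ≤ N)
    (h2 : 4 * 1024 ^ 6 * α * D ^ 18 < N ^ 2) (ha : a = i) (hb : b = i) :
    4 * 1024 ^ (6 + a) * α * D ^ (4 * b + 18) < N ^ (2 + i) := by
  subst ha
  subst hb
  have e : 4 * 1024 ^ (6 + b) * α * D ^ (4 * b + 18) =
      (4 * 1024 ^ 6 * α * D ^ 18) * (1024 * D ^ 4) ^ b := by
    rw [mul_pow, ← pow_mul, pow_add, pow_add D]
    ring
  rw [e, pow_add]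
  have hN : 0 < N := by
    rcases Nat.eq_zero_or_pos N with h0 | h0
    · subst h0
      simp at h2
    · exact h0
  have hN' : 0 < N ^ b := pow_pos hN b
  calc (4 * 1024 ^ 6 * α * D ^ 18) * (1024 * D ^ 4) ^ b
      ≤ (4 * 1024 ^ 6 * α * D ^ 18) * N ^ b := Nat.mul_le_mul_left _ (Nat.pow_le_pow_left h b)
    _ < N ^ 2 * N ^ b := Nat.mul_lt_mul_of_pos_right h2 hN'

theorem row : ChainStmt := by
  intro α N M D hα hD hN hN2 hd
  by_contra hM
  push Not at hM
  have hNpos : 0 < N := lt_of_lt_of_le (by positivity) hN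
  have key : ∀ i : ℕ, 1024 ^ (4 + i + 1) * α * N ^ (3 * (4 + i) + 2) < M := by
    intro i
    induction i with
    | zero =>
        have e : 1024 ^ (4 + 0 + 1) * α * N ^ (3 * (4 + 0) + 2) = 1024 ^ 5 * α * N ^ 14 := by
          norm_num
        rw [e]
        exact hM
    | succ i ih =>
        by_contra hc
        push Not at hc
        have h1 : N ^ (4 * (4 + i) + 3) ≤ 4 * D ^ (4 * (4 + i) + 2) * M := by
          rcases hd (4 + i) with h | h
          · exact absurd h (not_le.mpr ih)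
          · exact h
        have h2 : N ^ (4 * (4 + i) + 3) ≤
            (4 * 1024 ^ (6 + i) * α * D ^ (4 * i + 18)) * N ^ (3 * i + 17) := by
          calc N ^ (4 * (4 + i) + 3) ≤ 4 * D ^ (4 * (4 + i) + 2) * M := h1
            _ ≤ 4 * D ^ (4 * (4 + i) + 2) *
                (1024 ^ (4 + (i + 1) + 1) * α * N ^ (3 * (4 + (i + 1)) + 2)) :=
                Nat.mul_le_mul_left _ hc
            _ = (4 * 1024 ^ (6 + i) * α * D ^ (4 * i + 18)) * N ^ (3 * i + 17) := by
                have e1 : 4 * (4 + i) + 2 = 4 * i + 18 := by omega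
                have e2 : 4 + (i + 1) + 1 = 6 + i := by omega
                have e3 : 3 * (4 + (i + 1)) + 2 = 3 * i + 17 := by omega
                rw [e1, e2, e3]
                ring
        have e4 : N ^ (4 * (4 + i) + 3) = N ^ (2 + i) * N ^ (3 * i + 17) := by
          rw [← pow_add]
          congr 1
          omega
        rw [e4] at h2
        have h3 : N ^ (2 + i) ≤ 4 * 1024 ^ (6 + i) * α * D ^ (4 * i + 18) :=
          Nat.le_of_mul_le_mul_right h2 (pow_pos hNpos _)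
        exact absurd (pw i i i α D N hN hN2 rfl rfl) (not_lt.mpr h3)
  have h := key M
  have h1 : M < 1024 ^ (4 + M + 1) := by
    calc M < 2 ^ M := Nat.lt_two_pow_self
      _ ≤ 1024 ^ M := Nat.pow_le_pow_left (by norm_num) M
      _ ≤ 1024 ^ (4 + M + 1) := Nat.pow_le_pow_right (by norm_num) (by omega)
  have h2 : 1024 ^ (4 + M + 1) ≤ 1024 ^ (4 + M + 1) * α * N ^ (3 * (4 + M) + 2) := by
    have : 0 < α * N ^ (3 * (4 + M) + 2) := Nat.mul_pos hα (pow_pos hNpos _)
    calc 1024 ^ (4 + M + 1) = 1024 ^ (4 + M + 1) * 1 := by rw [mul_one]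
      _ ≤ 1024 ^ (4 + M + 1) * (α * N ^ (3 * (4 + M) + 2)) := Nat.mul_le_mul_left _ this
      _ = 1024 ^ (4 + M + 1) * α * N ^ (3 * (4 + M) + 2) := by rw [mul_assoc]
  omega

end Pool.Agent.Helper83.KM.CHAIN
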